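import Mathlib

set_option autoImplicit false
open MeasureTheory ProbabilityTheory

namespace Pool.Agent.H592S

/-! The random stirring model. -/

/-- The randomness attached to an edge: the number of its bars, and the positions of the bars, as
fractions of the time interval. -/
abbrev EdgeData := ℕ × (ℕ → unitInterval)

/-- The randomness of the model on a vertex set `V`. Only the entries of the edges of the graph are
used. -/
abbrev Cfg (V : Type) := Sym2 V → EdgeData

/-- The law at one edge: a Poisson number of bars with mean `T`, whose positions are independent and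
uniform. With bars at the times `T * position` this is a Poisson process of rate `1` on
`[0, T]`. -/
noncomputable def edgeLaw (T : ℝ) : Measure EdgeData :=
  (poissonMeasure T.toNNReal).prod
    (Measure.infinitePi fun _ : ℕ => (volume : Measure unitInterval))

/-- The law of the model with parameter `T`: the edges are independent. -/
noncomputable def stirLaw (V : Type) (T : ℝ) : Measure (Cfg V) :=
  Measure.infinitePi fun _ : Sym2 V => edgeLaw T

/-- There is a bar at time `t` on the edge between `v` and `u`. -/
def Bar {V : Type} (G : SimpleGraph V) (T : ℝ) (ω : Cfg V) (v : V) (t : ℝ) (u : V) : Prop :=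
  G.Adj v u ∧ ∃ i < (ω s(v, u)).1, T * ((ω s(v, u)).2 i : ℝ) = t

/-- One piece of a trajectory, from the space-time point `a` to the space-time point `b`: either the
trajectory moves upward from `a` to the first bar incident to its current vertex and jumps to the
other endpoint of the edge, or there is no such bar before time `T` and it restarts at time `0` at
its current vertex. -/
def Step {V : Type} (G : SimpleGraph V) (T : ℝ) (ω : Cfg V) (a b : V × ℝ) : Prop :=
  (a.2 < b.2 ∧ b.2 < T ∧ Bar G T ω a.1 b.2 b.1 ∧
    ∀ r u, a.2 < r → r < b.2 → ¬ Bar G T ω a.1 r u) ∨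
  (b.1 = a.1 ∧ b.2 = 0 ∧ ∀ r u, a.2 < r → r < T → ¬ Bar G T ω a.1 r u)

/-- The cycle of `v`: the vertices `u` such that the trajectory from `(v, 0)` passes through
`(u, 0)`. -/
def stirCycle {V : Type} (G : SimpleGraph V) (T : ℝ) (ω : Cfg V) (v : V) : Set V :=
  {u | Relation.ReflTransGen (Step G T ω) (v, 0) (u, 0)}

/-- The set of `T > 0` for which the model on `G` with parameter `T` has infinite cycles almost
surely. -/
def infiniteSet {V : Type} (G : SimpleGraph V) : Set ℝ :=
  {T | 0 < T ∧ ∀ᵐ ω ∂(stirLaw V T), ∃ v, (stirCycle G T ω v).Infinite}

end Pool.Agent.H592S
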