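import Mathlib
import Pool.Agent.H592S.Model

set_option autoImplicit false
open MeasureTheory ProbabilityTheory

namespace Pool.Agent.H592S

variable {V : Type} {G : SimpleGraph V} {T : ℝ} {ω : Cfg V}

theorem Bar.symm {v u : V} {t : ℝ} (h : Bar G T ω v t u) : Bar G T ω u t v := by
  obtain ⟨h1, i, hi, h2⟩ := h
  refine ⟨h1.symm, i, ?_, ?_⟩
  · rwa [Sym2.eq_swap]
  · rw [Sym2.eq_swap]; exact h2

/-- no two bars at one vertex at one time, and all bars strictly inside the time interval -/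
def Regular (G : SimpleGraph V) (T : ℝ) (ω : Cfg V) : Prop :=
  (∀ v r u u', Bar G T ω v r u → Bar G T ω v r u' → u = u') ∧
  (∀ v r u, Bar G T ω v r u → 0 < r ∧ r < T)

/-- finitely many bars at each vertex -/
def FinBars (G : SimpleGraph V) (T : ℝ) (ω : Cfg V) : Prop :=
  ∀ v, {r | ∃ u, Bar G T ω v r u}.Finite

theorem step_det (hR : Regular G T ω) {a b c : V × ℝ} (hb : Step G T ω a b) (hc : Step G T ω a c) :
    b = c := by
  rcases hb with ⟨h1, h2, h3, h4⟩ | ⟨h1, h2, h3⟩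
  · rcases hc with ⟨k1, k2, k3, k4⟩ | ⟨k1, k2, k3⟩
    · rcases lt_trichotomy b.2 c.2 with h | h | h
      · exact absurd h3 (k4 _ _ h1 h)
      · rw [h] at h3
        exact Prod.ext (hR.1 _ _ _ _ h3 k3) h
      · exact absurd k3 (h4 _ _ k1 h)
    · exact absurd h3 (k3 _ _ h1 h2)
  · rcases hc with ⟨k1, k2, k3, k4⟩ | ⟨k1, k2, k3⟩
    · exact absurd k3 (h3 _ _ k1 k2)
    · exact Prod.ext (h1.trans k1.symm) (h2.trans k2.symm)

/-- time `0` or a bar -/
def Canon (G : SimpleGraph V) (T : ℝ) (ω : Cfg V) (z : V × ℝ) : Prop :=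
  z.2 = 0 ∨ ∃ u, Bar G T ω z.1 z.2 u

theorem step_canon {a b : V × ℝ} (h : Step G T ω a b) : Canon G T ω b := by
  rcases h with ⟨h1, h2, h3, h4⟩ | ⟨h1, h2, h3⟩
  · exact Or.inr ⟨_, h3.symm⟩
  · exact Or.inl h2

theorem canon_nonneg (hR : Regular G T ω) {z : V × ℝ} (h : Canon G T ω z) : 0 ≤ z.2 := by
  rcases h with h | ⟨u, h⟩
  · exact h.ge
  · exact (hR.2 _ _ _ h).1.le

theorem step_inj (hR : Regular G T ω) {a b c : V × ℝ} (ha : Canon G T ω a) (hb : Canon G T ω b)
    (h1 : Step G T ω a c) (h2 : Step G T ω b c) : a = b := by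
  have ha0 := canon_nonneg hR ha
  have hb0 := canon_nonneg hR hb
  have key : ∀ x y : V × ℝ, Canon G T ω y → 0 ≤ x.2 → x.1 = y.1 → x.2 < y.2 →
      ∃ u, Bar G T ω x.1 y.2 u := by
    intro x y hy hx hxy hlt
    rcases hy with hy | ⟨u, hy⟩
    · exact absurd hy (by linarith [hx])
    · exact ⟨u, hxy ▸ hy⟩
  rcases h1 with ⟨p1, p2, p3, p4⟩ | ⟨p1, p2, p3⟩
  · rcases h2 with ⟨q1, q2, q3, q4⟩ | ⟨q1, q2, q3⟩
    · have hv : a.1 = b.1 := hR.1 _ _ _ _ p3.symm q3.symm
      rcases lt_trichotomy a.2 b.2 with h | h | h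
      · obtain ⟨u, hu⟩ := key a b hb ha0 hv h
        exact absurd hu (p4 _ _ h q1)
      · exact Prod.ext hv h
      · obtain ⟨u, hu⟩ := key b a ha hb0 hv.symm h
        exact absurd hu (q4 _ _ h p1)
    · rw [q2] at p1
      linarith
  · rcases h2 with ⟨q1, q2, q3, q4⟩ | ⟨q1, q2, q3⟩
    · rw [p2] at q1
      linarith
    · have hv : a.1 = b.1 := p1.symm.trans q1
      rcases lt_trichotomy a.2 b.2 with h | h | h
      · obtain ⟨u, hu⟩ := key a b hb ha0 hv h
        exact absurd hu (p3 _ _ h (hR.2 _ _ _ hu).2)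
      · exact Prod.ext hv h
      · obtain ⟨u, hu⟩ := key b a ha hb0 hv.symm h
        exact absurd hu (q3 _ _ h (hR.2 _ _ _ hu).2)

theorem step_exists (hF : FinBars G T ω) (a : V × ℝ) : ∃ b, Step G T ω a b := by
  classical
  by_cases h : ∃ r u, a.2 < r ∧ r < T ∧ Bar G T ω a.1 r u
  · set S := {r | ∃ u, Bar G T ω a.1 r u} ∩ {r | a.2 < r ∧ r < T} with hS
    have hfin : S.Finite := (hF a.1).inter_of_left _
    obtain ⟨r, u, h1, h2, h3⟩ := h
    obtain ⟨m, hm, hmin⟩ := Set.exists_min_image S id hfin ⟨r, ⟨u, h3⟩, h1, h2⟩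
    obtain ⟨⟨u', hu'⟩, hm1, hm2⟩ := hm
    refine ⟨(u', m), Or.inl ⟨hm1, hm2, hu', ?_⟩⟩
    intro r' u'' h5 h6 h7
    have := hmin r' ⟨⟨u'', h7⟩, h5, h6.trans hm2⟩
    simp only [id] at this
    linarith
  · refine ⟨(a.1, 0), Or.inr ⟨rfl, rfl, ?_⟩⟩
    intro r u h1 h2 h3
    exact h ⟨r, u, h1, h2, h3⟩

/-- leaving a set with a single bar in its boundary -/
theorem leave {A : Set V} {p : V} {r : ℝ}
    (hA : ∀ x ∈ A, ∀ x', x' ∉ A → ∀ t, Bar G T ω x t x' → x' = p ∧ t = r) {z z' : V × ℝ}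
    (h : Relation.ReflTransGen (Step G T ω) z z') (hz : z.1 ∈ A) (hz' : z'.1 ∉ A) :
    Relation.ReflTransGen (Step G T ω) z (p, r) := by
  induction h using Relation.ReflTransGen.head_induction_on with
  | refl => exact absurd hz hz'
  | head hs hr ih =>
    rename_i x y
    by_cases hy : y.1 ∈ A
    · exact Relation.ReflTransGen.head hs (ih hy)
    · rcases hs with ⟨h1, h2, h3, h4⟩ | ⟨h1, h2, h3⟩
      · obtain ⟨h5, h6⟩ := hA _ hz _ hy _ h3
        have : y = (p, r) := Prod.ext h5 h6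
        rw [← this]
        exact Relation.ReflTransGen.single (Or.inl ⟨h1, h2, h3, h4⟩)
      · rw [h1] at hy
        exact absurd hz hy

/-- a finite cycle is a periodic orbit -/
theorem periodic (hR : Regular G T ω) (hF : FinBars G T ω)
    (hNI : ∀ y : ℕ → V × ℝ, (∀ n, Step G T ω (y n) (y (n + 1))) →
      ∃ n, ¬ (y n).2 < (y (n + 1)).2) (v0 : V)
    (hfin : (stirCycle G T ω v0).Finite) :
    ∃ P : Set (V × ℝ), P.Finite ∧ (v0, (0 : ℝ)) ∈ P ∧ (∀ z ∈ P, Canon G T ω z) ∧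
      (∀ z ∈ P, ∀ z', Step G T ω z z' → z' ∈ P) ∧
      (∀ z ∈ P, ∀ z' ∈ P, Relation.ReflTransGen (Step G T ω) z z') := by
  classical
  choose f hf using step_exists hF
  set x : ℕ → V × ℝ := fun n => f^[n] (v0, 0) with hx
  have hx0 : x 0 = (v0, 0) := rfl
  have hxs : ∀ n, Step G T ω (x n) (x (n + 1)) := by
    intro n
    rw [hx]
    simp only
    rw [Function.iterate_succ_apply']
    exact hf _
  have hcan : ∀ n, Canon G T ω (x n) := by
    intro n
    cases n with
    | zero => rw [hx0]; exact Or.inl rfl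
    | succ n => exact step_canon (hxs n)
  have hreach : ∀ n m, n ≤ m → Relation.ReflTransGen (Step G T ω) (x n) (x m) := by
    intro n m hnm
    induction m, hnm using Nat.le_induction with
    | base => exact Relation.ReflTransGen.refl
    | succ k _ ih => exact ih.tail (hxs k)
  have hinf : {n | (x n).2 = 0}.Infinite := by
    rw [Set.infinite_iff_exists_gt]
    intro n0
    obtain ⟨k, hk⟩ := hNI (fun n => x (n0 + n)) (fun n => hxs (n0 + n))
    refine ⟨n0 + k + 1, ?_, by omega⟩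
    rcases hxs (n0 + k) with ⟨h1, h2, h3, h4⟩ | ⟨h1, h2, h3⟩
    · exact absurd h1 hk
    · exact h2
  have hmaps : Set.MapsTo (fun n => (x n).1) {n | (x n).2 = 0} (stirCycle G T ω v0) := by
    intro n hn
    show Relation.ReflTransGen (Step G T ω) (v0, 0) ((x n).1, 0)
    have h1 := hreach 0 n (Nat.zero_le n)
    have h2 : x n = ((x n).1, 0) := Prod.ext rfl hn
    rw [hx0] at h1
    rw [← h2]
    exact h1
  obtain ⟨n, hn, m, hm, hnm, heq⟩ := hinf.exists_ne_map_eq_of_mapsTo hmaps hfin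
  have key : ∀ n m : ℕ, n < m → x n = x m → ∃ L, 0 < L ∧ x L = x 0 := by
    intro n
    induction n with
    | zero => intro m h1 h2; exact ⟨m, h1, h2.symm⟩
    | succ n ih =>
      intro m h1 h2
      obtain ⟨m', rfl⟩ : ∃ m', m = m' + 1 := ⟨m - 1, by omega⟩
      refine ih m' (by omega) (step_inj hR (hcan _) (hcan _) (hxs n) ?_)
      rw [h2]
      exact hxs m'
  obtain ⟨L, hL, hxL⟩ : ∃ L, 0 < L ∧ x L = x 0 := by
    have he : x n = x m := by
      refine Prod.ext heq ?_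
      rw [Set.mem_ofPred_eq] at hn hm
      rw [hn, hm]
    rcases lt_or_gt_of_ne hnm with h | h
    · exact key n m h he
    · exact key m n h he.symm
  have hper : ∀ k, x (k + L) = x k := by
    intro k
    induction k with
    | zero => rw [Nat.zero_add]; exact hxL
    | succ k ih =>
      have h1 := hxs (k + L)
      rw [ih] at h1
      have h2 := step_det hR h1 (hxs k)
      rw [← h2]
      congr 1
      ring
  have hper2 : ∀ j k, x (k + j * L) = x k := by
    intro j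
    induction j with
    | zero => intro k; simp
    | succ j ih =>
      intro k
      rw [show k + (j + 1) * L = (k + j * L) + L by ring, hper, ih]
  refine ⟨Set.range x, ?_, ⟨0, hx0⟩, ?_, ?_, ?_⟩
  · refine Set.Finite.subset ((Set.finite_Iio L).image x) ?_
    rintro _ ⟨k, rfl⟩
    refine ⟨k % L, Nat.mod_lt _ hL, ?_⟩
    have := hper2 (k / L) (k % L)
    rw [mul_comm, Nat.mod_add_div] at this
    exact this.symm
  · rintro _ ⟨k, rfl⟩
    exact hcan k
  · rintro _ ⟨k, rfl⟩ z' hz'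
    exact ⟨k + 1, step_det hR (hxs k) hz'⟩
  · rintro _ ⟨k, rfl⟩ _ ⟨k', rfl⟩
    rw [← hper2 k k']
    refine hreach k (k' + k * L) ?_
    have : k ≤ k * L := Nat.le_mul_of_pos_right k hL
    omega

/-- all bars at a vertex of a periodic orbit are used, if the orbit always comes back through the
bar by which it leaves -/
theorem all_bars (hR : Regular G T ω) (hF : FinBars G T ω) {P : Set (V × ℝ)} (hP : P.Finite)
    (hst : ∀ z ∈ P, ∀ z', Step G T ω z z' → z' ∈ P) {w : V} {s : ℝ} (hs : (w, s) ∈ P)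
    (hbr : ∀ r x, Bar G T ω w r x → (x, r) ∈ P → (w, r) ∈ P) {r : ℝ} {x : V}
    (hr : Bar G T ω w r x) : (x, r) ∈ P := by
  set S := {τ : ℝ | (w, τ) ∈ P} with hS
  have hSfin : S.Finite := hP.preimage (Function.Injective.injOn (fun a b h => by simpa using h))
  have h0 : (0 : ℝ) ∈ S := by
    obtain ⟨τ, hτ, hmax⟩ := Set.exists_max_image S id hSfin ⟨s, hs⟩
    obtain ⟨b, hb⟩ := step_exists hF (w, τ)
    have hbP := hst _ hτ _ hb
    rcases hb with ⟨h1, h2, h3, h4⟩ | ⟨h1, h2, h3⟩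
    · have h5 : (w, b.2) ∈ P := hbr _ _ h3 (by simpa using hbP)
      have h6 := hmax b.2 h5
      simp only [id] at h6
      simp only at h1
      linarith
    · have : b = (w, 0) := Prod.ext h1 h2
      rw [this] at hbP
      exact hbP
  obtain ⟨hr0, hrT⟩ := hR.2 _ _ _ hr
  obtain ⟨τ, ⟨hτ, hτr⟩, hmax⟩ := Set.exists_max_image (S ∩ {τ | τ < r}) id (hSfin.inter_of_left _)
    ⟨0, h0, hr0⟩
  obtain ⟨b, hb⟩ := step_exists hF (w, τ)
  have hbP := hst _ hτ _ hb
  rw [Set.mem_ofPred_eq] at hτr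
  rcases hb with ⟨h1, h2, h3, h4⟩ | ⟨h1, h2, h3⟩
  · simp only at h1 h3 h4
    have h5 : (w, b.2) ∈ P := hbr _ _ h3 (by simpa using hbP)
    have h6 : b.2 ≤ r := by
      by_contra hcon
      rw [not_le] at hcon
      exact h4 r x hτr hcon hr
    rcases lt_or_eq_of_le h6 with h7 | h7
    · have h8 := hmax b.2 ⟨h5, h7⟩
      simp only [id] at h8
      linarith
    · rw [h7] at h3
      have h8 := hR.1 _ _ _ _ h3 hr
      have : b = (x, r) := Prod.ext h8 h7
      rwa [this] at hbP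
  · exact absurd hr (h3 r x hτr hrT)

end Pool.Agent.H592S
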