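import Mathlib
import Pool.Agent.H592S.Flow

set_option autoImplicit false
open MeasureTheory ProbabilityTheory

namespace Pool.Agent.H592S

/-! The graph: a tree of blocks. A block is a root vertex, joined to all vertices of `J` disjoint
complete graphs with `n` vertices; the root is joined to the roots of `N` child blocks. -/

/-- vertices: the block (a word) and the position in the block -/
abbrev TV (J n N : ℕ) := List (Fin N) × Option (Fin J × Fin n)

variable {J n N : ℕ}

/-- the edges, in one orientation -/
def Rel (a b : TV J n N) : Prop :=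
  (a.1 = b.1 ∧ a.2 = none ∧ b.2 ≠ none) ∨
  (a.1 = b.1 ∧ ∃ j x y, a.2 = some (j, x) ∧ b.2 = some (j, y) ∧ x ≠ y) ∨
  (a.2 = none ∧ b.2 = none ∧ ∃ i, b.1 = i :: a.1)

/-- the graph -/
def treeG (J n N : ℕ) : SimpleGraph (TV J n N) where
  Adj a b := Rel a b ∨ Rel b a
  symm := ⟨fun a b h => h.symm⟩
  loopless := ⟨fun a h => by
    have h' : Rel a a := h.elim id id
    rcases h' with ⟨-, h1, h2⟩ | ⟨-, j, x, y, h1, h2, h3⟩ | ⟨-, -, i, hi⟩
    · exact h2 h1
    · rw [h1] at h2
      simp only [Option.some.injEq, Prod.mk.injEq, true_and] at h2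
      exact h3 h2
    · have := congrArg List.length hi
      simp at this⟩

theorem adj_iff {a b : TV J n N} : (treeG J n N).Adj a b ↔ Rel a b ∨ Rel b a := Iff.rfl

/-- neighbours of a root -/
theorem adj_root {u : List (Fin N)} {b : TV J n N} (h : (treeG J n N).Adj (u, none) b) :
    (∃ x, b = (u, some x)) ∨ (∃ i, b = (i :: u, none)) ∨ (∃ i u', u = i :: u' ∧ b = (u', none)) := by
  obtain ⟨u', o⟩ := b
  rcases h with h | h
  · rcases h with ⟨h1, -, h3⟩ | ⟨-, j, x, y, h1, -, -⟩ | ⟨-, h2, i, hi⟩
    · simp only at h1 h3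
      subst h1
      obtain ⟨x, hx⟩ := Option.ne_none_iff_exists'.mp h3
      exact Or.inl ⟨x, by rw [hx]⟩
    · simp at h1
    · simp only at h2 hi
      exact Or.inr (Or.inl ⟨i, by rw [h2, hi]⟩)
  · rcases h with ⟨-, -, h3⟩ | ⟨-, j, x, y, -, h2, -⟩ | ⟨h1, -, i, hi⟩
    · exact absurd rfl h3
    · simp at h2
    · simp only at h1 hi
      exact Or.inr (Or.inr ⟨i, u', hi, by rw [h1]⟩)

/-- neighbours of a clique vertex -/
theorem adj_clique {u : List (Fin N)} {j : Fin J} {x : Fin n} {b : TV J n N}
    (h : (treeG J n N).Adj (u, some (j, x)) b) :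
    b = (u, none) ∨ ∃ y, x ≠ y ∧ b = (u, some (j, y)) := by
  obtain ⟨u', o⟩ := b
  rcases h with h | h
  · rcases h with ⟨-, h2, -⟩ | ⟨h0, j', x', y, h1, h2, h3⟩ | ⟨h1, -, -⟩
    · simp at h2
    · simp only [Option.some.injEq, Prod.mk.injEq] at h0 h1 h2
      obtain ⟨rfl, rfl⟩ := h1
      subst h0 h2
      exact Or.inr ⟨y, h3, rfl⟩
    · simp at h1
  · rcases h with ⟨h1, h2, -⟩ | ⟨h0, j', x', y, h1, h2, h3⟩ | ⟨-, h2, -⟩
    · simp only at h1 h2
      exact Or.inl (by rw [h1, h2])
    · simp only [Option.some.injEq, Prod.mk.injEq] at h0 h1 h2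
      obtain ⟨rfl, rfl⟩ := h2
      subst h0 h1
      exact Or.inr ⟨x', h3.symm, rfl⟩
    · simp at h2

/-- the vertices of the blocks below the block `u` -/
def Sub (J n : ℕ) {N : ℕ} (u : List (Fin N)) : Set (TV J n N) := {a | u <:+ a.1}

theorem sub_boundary {u : List (Fin N)} {a b : TV J n N} (h : (treeG J n N).Adj a b)
    (ha : a ∈ Sub J n u) (hb : b ∉ Sub J n u) :
    a = (u, none) ∧ ∃ i u', u = i :: u' ∧ b = (u', none) := by
  obtain ⟨ua, oa⟩ := a
  obtain ⟨ub, ob⟩ := b
  have ha' : u <:+ ua := ha
  have hb' : ¬ u <:+ ub := hb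
  have key : ∀ (c c' : TV J n N), Rel c c' → (c.1 = c'.1) ∨ (c.2 = none ∧ c'.2 = none ∧
      ∃ i, c'.1 = i :: c.1) := by
    intro c c' hc
    rcases hc with ⟨h1, -⟩ | ⟨h1, -⟩ | h1
    · exact Or.inl h1
    · exact Or.inl h1
    · exact Or.inr h1
  rcases h with h | h
  · rcases key _ _ h with h1 | ⟨-, -, i, hi⟩
    · simp only at h1
      rw [h1] at ha'
      exact absurd ha' hb'
    · simp only at hi
      rw [hi] at hb'
      exact absurd (ha'.trans (List.suffix_cons _ _)) hb'
  · rcases key _ _ h with h1 | ⟨h1, h2, i, hi⟩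
    · simp only at h1
      rw [← h1] at ha'
      exact absurd ha' hb'
    · simp only at h1 h2 hi
      rw [hi, List.suffix_cons_iff] at ha'
      rcases ha' with h3 | h3
      · exact ⟨by rw [h2, hi, h3], i, ub, h3, by rw [h1]⟩
      · exact absurd h3 hb'

/-- the vertices of a copy together with the root -/
def cv (u : List (Fin N)) (j : Fin J) : Option (Fin n) → TV J n N
  | none => (u, none)
  | some x => (u, some (j, x))

theorem cv_inj (u : List (Fin N)) (j : Fin J) : Function.Injective (cv (n := n) u j) := by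
  intro a b h
  cases a <;> cases b <;> simp_all [cv]

theorem cv_adj (u : List (Fin N)) (j : Fin J) {x y : Option (Fin n)} (h : x ≠ y) :
    (treeG J n N).Adj (cv u j x) (cv u j y) := by
  cases x with
  | none =>
    cases y with
    | none => exact absurd rfl h
    | some y => exact Or.inl (Or.inl ⟨rfl, rfl, by simp [cv]⟩)
  | some x =>
    cases y with
    | none => exact Or.inr (Or.inl ⟨rfl, rfl, by simp [cv]⟩)
    | some y =>
      refine Or.inl (Or.inr (Or.inl ⟨rfl, j, x, y, rfl, rfl, ?_⟩))
      rintro rfl
      exact h rfl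

/-- number of bars -/
def cnt (ω : Cfg (TV J n N)) (u : List (Fin N)) (j : Fin J) (x y : Option (Fin n)) : ℕ :=
  (ω s(cv u j x, cv u j y)).1

theorem cnt_symm (ω : Cfg (TV J n N)) (u : List (Fin N)) (j : Fin J) (x y : Option (Fin n)) :
    cnt ω u j x y = cnt ω u j y x := by
  unfold cnt
  rw [Sym2.eq_swap]

/-- the edge to a child -/
def ech (u : List (Fin N)) (i : Fin N) : Sym2 (TV J n N) := s((u, none), (i :: u, none))

section

variable {T : ℝ} {ω : Cfg (TV J n N)}

theorem bar_pos {a b : TV J n N} {t : ℝ} (h : Bar (treeG J n N) T ω a t b) : 1 ≤ (ω s(a, b)).1 := by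
  obtain ⟨-, i, hi, -⟩ := h
  omega

theorem bar_single {a b : TV J n N} {t : ℝ} (h : Bar (treeG J n N) T ω a t b)
    (h1 : (ω s(a, b)).1 ≤ 1) : t = T * ((ω s(a, b)).2 0 : ℝ) := by
  obtain ⟨-, i, hi, h2⟩ := h
  have : i = 0 := by omega
  rw [this] at h2
  exact h2.symm

theorem bar_of_single {a b : TV J n N} (h : (treeG J n N).Adj a b) (h1 : (ω s(a, b)).1 = 1) :
    Bar (treeG J n N) T ω a (T * ((ω s(a, b)).2 0 : ℝ)) b :=
  ⟨h, 0, by omega, rfl⟩

/-- consecutive pairs of a list -/
def pathE {X : Type} : List X → List (Sym2 X)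
  | [] => []
  | [_] => []
  | x :: y :: l => s(x, y) :: pathE (y :: l)

theorem pathE_mem {X : Type} (l : List X) (e : Sym2 X) (he : e ∈ pathE l) : ∀ z ∈ e, z ∈ l := by
  induction l with
  | nil => simp [pathE] at he
  | cons x l ih =>
    cases l with
    | nil => simp [pathE] at he
    | cons y l =>
      simp only [pathE, List.mem_cons] at he
      intro z hz
      rcases he with rfl | he
      · rw [Sym2.mem_iff] at hz
        rcases hz with rfl | rfl
        · simp
        · simp
      · exact List.mem_cons_of_mem _ (ih he z hz)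

theorem pathE_nodup {X : Type} (l : List X) (h : l.Nodup) : (pathE l).Nodup := by
  induction l with
  | nil => simp [pathE]
  | cons x l ih =>
    cases l with
    | nil => simp [pathE]
    | cons y l =>
      rw [List.nodup_cons] at h
      simp only [pathE]
      rw [List.nodup_cons]
      refine ⟨fun hmem => h.1 ?_, ih h.2⟩
      exact pathE_mem _ _ hmem x (Sym2.mem_mk_left x y)

theorem pathE_concat {X : Type} (l : List X) (hl : l ≠ []) (z : X) :
    pathE (l ++ [z]) = pathE l ++ [s(l.getLast hl, z)] := by
  induction l with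
  | nil => exact absurd rfl hl
  | cons x l ih =>
    cases l with
    | nil => simp [pathE]
    | cons y l =>
      have := ih (by simp)
      simp only [List.cons_append, pathE] at this ⊢
      rw [this]
      simp

theorem pathE_length {X : Type} (l : List X) : (pathE l).length = l.length - 1 := by
  induction l with
  | nil => simp [pathE]
  | cons x l ih =>
    cases l with
    | nil => simp [pathE]
    | cons y l => simp only [pathE, List.length_cons] at ih ⊢; omega

/-- edges of an ear -/
def earE (p p' : Option (Fin n)) (b : List (Fin n)) : List (Sym2 (Option (Fin n))) :=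
  pathE (p :: (b.map some ++ [p']))

theorem earE_length (p p' : Option (Fin n)) (b : List (Fin n)) : (earE p p' b).length = b.length + 1 := by
  unfold earE
  rw [pathE_length]
  simp

theorem earE_nodup {p p' : Option (Fin n)} {b : List (Fin n)} (hb : b ≠ []) (hn : b.Nodup)
    (hp : ∀ y ∈ b, p ≠ some y) (hp' : ∀ y ∈ b, p' ≠ some y) (hg : ¬ (p = p' ∧ b.length = 1)) :
    (earE p p' b).Nodup := by
  unfold earE
  obtain ⟨y, l, rfl⟩ := List.exists_cons_of_ne_nil hb
  have hn' : ((y :: l).map (some : Fin n → Option (Fin n))).Nodup :=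
    hn.map (Option.some_injective _)
  have e1 : pathE (p :: ((y :: l).map some ++ [p']))
      = s(p, some y) :: pathE ((y :: l).map some ++ [p']) := by
    simp [pathE]
  rw [e1, List.nodup_cons]
  constructor
  · rw [pathE_concat _ (by simp)]
    rw [List.mem_append]
    rintro (h | h)
    · have := pathE_mem _ _ h p (Sym2.mem_mk_left _ _)
      rw [List.mem_map] at this
      obtain ⟨z, hz, hzp⟩ := this
      exact hp z hz hzp.symm
    · rw [List.mem_singleton, Sym2.eq_iff] at h
      rcases h with ⟨h1, h2⟩ | ⟨h1, h2⟩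
      · have hmem : List.getLast ((y :: l).map (some : Fin n → Option (Fin n))) (by simp)
            ∈ (y :: l).map some := List.getLast_mem _
        rw [← h1, List.mem_map] at hmem
        obtain ⟨z, hz, hzp⟩ := hmem
        exact hp z hz hzp.symm
      · apply hg
        refine ⟨h1, ?_⟩
        cases l with
        | nil => rfl
        | cons y' l' =>
          exfalso
          have h3 : (some y :: List.map some (y' :: l')).getLast (by simp)
              ∈ List.map some (y' :: l') := by
            rw [List.getLast_cons (by simp)]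
            exact List.getLast_mem _
          have h2' : some y = (some y :: List.map some (y' :: l')).getLast (by simp) := h2
          rw [← h2'] at h3
          rw [List.map_cons, List.nodup_cons] at hn'
          exact hn'.1 h3
  · refine pathE_nodup _ ?_
    rw [List.nodup_append]
    refine ⟨hn', by simp, ?_⟩
    intro a ha b hb
    rw [List.mem_singleton] at hb
    rw [List.mem_map] at ha
    obtain ⟨z, hz, rfl⟩ := ha
    rw [hb]
    exact fun h => hp' z hz h.symm

/-- all edges of the list carry bars -/
def ActE (ω : Cfg (TV J n N)) (u : List (Fin N)) (j : Fin J) (L : List (Sym2 (Option (Fin n)))) : Prop :=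
  ∀ e ∈ L, 1 ≤ (ω (e.map (cv u j))).1

/-- the active graph in a copy, restricted to the vertices satisfying `K` -/
def actG (ω : Cfg (TV J n N)) (u : List (Fin N)) (j : Fin J) (K : Fin n → Prop) :
    SimpleGraph (Fin n) where
  Adj x y := x ≠ y ∧ K x ∧ K y ∧ 1 ≤ cnt ω u j (some x) (some y)
  symm := ⟨fun x y h => ⟨h.1.symm, h.2.2.1, h.2.1, by rw [cnt_symm]; exact h.2.2.2⟩⟩
  loopless := ⟨fun x h => h.1 rfl⟩

theorem walk_list {K : Fin n → Prop} {u : List (Fin N)} {j : Fin J} {x y : Fin n}
    (w : (actG ω u j K).Walk x y) : ∀ (p p' : Option (Fin n)),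
    1 ≤ cnt ω u j p (some x) → 1 ≤ cnt ω u j (some y) p' → ActE ω u j (earE p p' w.support) := by
  induction w with
  | nil =>
    rename_i x
    intro p p' h1 h2 e he
    simp only [earE, SimpleGraph.Walk.support_nil, List.map_cons, List.map_nil, List.cons_append,
      List.nil_append, pathE, List.mem_cons, List.not_mem_nil, or_false] at he
    rcases he with rfl | rfl
    · exact h1
    · exact h2
  | cons h w ih =>
    rename_i x x' y
    intro p p' h1 h2 e he
    have ih' := ih (some x) p' h.2.2.2 h2
    have e1 : earE p p' (SimpleGraph.Walk.cons h w).support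
        = s(p, some x) :: earE (some x) p' w.support := by
      unfold earE
      rw [SimpleGraph.Walk.support_cons]
      simp only [List.map_cons, List.cons_append, pathE]
    rw [e1, List.mem_cons] at he
    rcases he with rfl | he
    · exact h1
    · exact ih' e he

/-- a simple active list between connected vertices -/
theorem reach_list {K : Fin n → Prop} {u : List (Fin N)} {j : Fin J} {x y : Fin n}
    (h : (actG ω u j K).Reachable x y) (hx : K x) {p p' : Option (Fin n)}
    (h1 : 1 ≤ cnt ω u j p (some x)) (h2 : 1 ≤ cnt ω u j (some y) p') :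
    ∃ b : List (Fin n), b ≠ [] ∧ b.Nodup ∧ (∀ z ∈ b, K z) ∧ (b.length = 1 → x = y) ∧
      ActE ω u j (earE p p' b) := by
  classical
  obtain ⟨w⟩ := h
  have hp := w.toPath.2
  refine ⟨w.toPath.1.support, by simp, hp.support_nodup, ?_, ?_, walk_list _ p p' h1 h2⟩
  · intro z hz
    have key : ∀ {a c : Fin n} (w : (actG ω u j K).Walk a c), K a → ∀ z ∈ w.support, K z := by
      intro a c w
      induction w with
      | nil => intro ha z hz; simp at hz; rwa [hz]
      | cons h w ih =>
        intro ha z hz
        rw [SimpleGraph.Walk.support_cons, List.mem_cons] at hz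
        rcases hz with rfl | hz
        · exact ha
        · exact ih h.2.2.1 z hz
    exact key _ hx z hz
  · intro hl
    rw [SimpleGraph.Walk.length_support] at hl
    exact SimpleGraph.Walk.eq_of_length_eq_zero (p := w.toPath.1) (by omega)

end

end Pool.Agent.H592S
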