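import Mathlib
import Pool.Agent.H592S.Tree

set_option autoImplicit false
open MeasureTheory ProbabilityTheory

namespace Pool.Agent.H592S

variable {J n N : ℕ} {T : ℝ} {ω : Cfg (TV J n N)}

/-! Deterministic part of the existence of infinite cycles. -/

/-- the root is attached to its copies by bridges with single bars -/
def Triv (ω : Cfg (TV J n N)) (u : List (Fin N)) : Prop :=
  (∀ j (y : Fin n), cnt ω u j none (some y) ≤ 1) ∧
  (∀ (j : Fin J) (b : List (Fin n)), b.Nodup → 2 ≤ b.length → ¬ ActE ω u j (earE none none b))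

/-- survival for `k` generations -/
def Surv (ω : Cfg (TV J n N)) : ℕ → List (Fin N) → Prop
  | 0, _ => True
  | k + 1, u => (Triv ω u ∧ ∀ i, (ω (ech u i)).1 ≤ 1) ∧
      ∃ i, (ω (ech u i)).1 = 1 ∧ Surv ω k (i :: u)

theorem reach_mem {P : Set (TV J n N × ℝ)}
    (hst : ∀ z ∈ P, ∀ z', Step (treeG J n N) T ω z z' → z' ∈ P) {z z' : TV J n N × ℝ}
    (hz : z ∈ P) (h : Relation.ReflTransGen (Step (treeG J n N) T ω) z z') : z' ∈ P := by
  induction h with
  | refl => exact hz
  | tail _ h2 ih => exact hst _ ih _ h2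

theorem surv_visit (hR : Regular (treeG J n N) T ω) (hF : FinBars (treeG J n N) T ω)
    {P : Set (TV J n N × ℝ)} (hP : P.Finite)
    (hst : ∀ z ∈ P, ∀ z', Step (treeG J n N) T ω z z' → z' ∈ P)
    (hrec : ∀ z ∈ P, ∀ z' ∈ P, Relation.ReflTransGen (Step (treeG J n N) T ω) z z') (k : ℕ) :
    ∀ (u : List (Fin N)) (s : ℝ), ((u, none), s) ∈ P → Surv ω k u →
      (∀ i u', u = i :: u' → (ω (ech u' i)).1 ≤ 1) →
      ∃ x : List (Fin N), x.length = k ∧ ∃ s', ((x ++ u, none), s') ∈ P := by
  induction k with
  | zero => intro u s hs _ _; exact ⟨[], rfl, s, hs⟩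
  | succ k ih =>
    intro u s hs hsurv hpar
    obtain ⟨⟨⟨ht1, ht2⟩, hch⟩, i, hi, hnext⟩ := hsurv
    have hbr : ∀ r x, Bar (treeG J n N) T ω (u, none) r x → (x, r) ∈ P → ((u, none), r) ∈ P := by
      intro r x hb hx
      rcases adj_root hb.1 with ⟨⟨j, a⟩, rfl⟩ | ⟨i', rfl⟩ | ⟨i', u', hu', rfl⟩
      · -- a copy
        set A : Set (TV J n N) := {c | ∃ y, c = (u, some (j, y)) ∧
          (actG ω u j fun _ => True).Reachable a y} with hA
        refine reach_mem hst hx (leave (A := A) ?_ (hrec _ hx _ hs) ⟨a, rfl,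
          SimpleGraph.Reachable.refl _⟩ ?_)
        · rintro c ⟨y, rfl, hy⟩ c' hc' t hbar
          rcases adj_clique hbar.1 with rfl | ⟨y', hne, rfl⟩
          · refine ⟨rfl, ?_⟩
            have hay : a = y := by
              obtain ⟨b, hb1, hb2, -, hb4, hb5⟩ := reach_list hy trivial (p := none) (p' := none)
                (bar_pos hb) (bar_pos hbar)
              by_contra hne
              have hlen : 2 ≤ b.length := by
                have h1 : b.length ≠ 1 := fun h => hne (hb4 h)
                have h2 : b.length ≠ 0 := fun h => hb1 (List.length_eq_zero_iff.mp h)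
                omega
              exact ht2 j b hb2 hlen hb5
            subst hay
            rw [bar_single hb (ht1 j a), bar_single hbar.symm (ht1 j a)]
          · exfalso
            apply hc'
            refine ⟨y', rfl, hy.trans (SimpleGraph.Adj.reachable ⟨hne, trivial, trivial, bar_pos hbar⟩)⟩
        · rintro ⟨y, hy, -⟩
          simp at hy
      · -- a child
        refine reach_mem hst hx (leave (A := Sub J n (i' :: u)) ?_ (hrec _ hx _ hs)
          (List.suffix_refl _) ?_)
        · intro c hc c' hc' t hbar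
          obtain ⟨h1, i'', u'', h2, h3⟩ := sub_boundary hbar.1 hc hc'
          simp only [List.cons.injEq] at h2
          obtain ⟨rfl, rfl⟩ := h2
          subst h1 h3
          refine ⟨rfl, ?_⟩
          rw [bar_single hb (hch i'), bar_single hbar.symm (hch i')]
        · intro hcon
          have := List.IsSuffix.length_le (show i' :: u <:+ u from hcon)
          simp at this
      · -- the parent
        refine reach_mem hst hx (leave (A := (Sub J n u)ᶜ) ?_ (hrec _ hx _ hs) ?_ ?_)
        · intro c hc c' hc' t hbar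
          rw [Set.mem_compl_iff, not_not] at hc'
          obtain ⟨h1, i'', u'', h2, h3⟩ := sub_boundary hbar.1.symm hc' hc
          refine ⟨h1, ?_⟩
          rw [hu'] at h2
          simp only [List.cons.injEq] at h2
          obtain ⟨rfl, rfl⟩ := h2
          subst h1 h3
          have hle := hpar i' u' hu'
          subst hu'
          rw [bar_single hb.symm hle, bar_single hbar hle]
        · rw [Set.mem_compl_iff]
          intro hcon
          have h1 := List.IsSuffix.length_le (show u <:+ u' from hcon)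
          rw [hu'] at h1
          simp at h1
        · rw [Set.mem_compl_iff, not_not]
          exact List.suffix_refl _
    have hadj : (treeG J n N).Adj (u, none) (i :: u, none) := Or.inl (Or.inr (Or.inr ⟨rfl, rfl, i, rfl⟩))
    have hbar := bar_of_single (T := T) hadj hi
    have hvis := all_bars hR hF hP hst hs hbr hbar
    obtain ⟨x, hx1, s', hx2⟩ := ih (i :: u) _ hvis hnext (by
      intro i' u' h
      simp only [List.cons.injEq] at h
      obtain ⟨rfl, rfl⟩ := h
      exact hi.le)
    refine ⟨x ++ [i], by simp [hx1], s', ?_⟩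
    rw [List.append_assoc]
    exact hx2

theorem infinite_of_surv (hR : Regular (treeG J n N) T ω) (hF : FinBars (treeG J n N) T ω)
    (hNI : ∀ y : ℕ → TV J n N × ℝ, (∀ m, Step (treeG J n N) T ω (y m) (y (m + 1))) →
      ∃ m, ¬ (y m).2 < (y (m + 1)).2) (u : List (Fin N))
    (hpar : ∀ i u', u = i :: u' → (ω (ech u' i)).1 ≤ 1) (hs : ∀ k, Surv ω k u) :
    (stirCycle (treeG J n N) T ω (u, none)).Infinite := by
  intro hfin
  obtain ⟨P, hP, h0, -, hst, hrec⟩ := periodic hR hF hNI (u, none) hfin
  have hbd : ((fun z : TV J n N × ℝ => z.1.1.length) '' P).Finite := hP.image _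
  obtain ⟨M, hM⟩ := hbd.bddAbove
  obtain ⟨x, hx, s', hx'⟩ := surv_visit hR hF hP hst hrec (M + 1) u 0 h0 (hs _) hpar
  have h1 := hM (Set.mem_image_of_mem _ hx')
  simp only [List.length_append, hx] at h1
  omega

/-- increasing bars along the path to a descendant block -/
def Chain (T : ℝ) (ω : Cfg (TV J n N)) (u0 : List (Fin N)) : List (Fin N) → ℝ → Prop
  | [], _ => True
  | i :: x, t => ∃ r ≤ t, Bar (treeG J n N) T ω (x ++ u0, none) r (i :: x ++ u0, none) ∧
      ∃ r' < r, Chain T ω u0 x r'

theorem chain_mono {u0 x : List (Fin N)} {t t' : ℝ} (h : t ≤ t') (hc : Chain T ω u0 x t) :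
    Chain T ω u0 x t' := by
  cases x with
  | nil => trivial
  | cons i x =>
    obtain ⟨r, h1, h2⟩ := hc
    exact ⟨r, h1.trans h, h2⟩

theorem chain_tail {u0 x : List (Fin N)} {i : Fin N} {t : ℝ} (hc : Chain T ω u0 (i :: x) t) :
    Chain T ω u0 x t := by
  obtain ⟨r, h1, -, r', h3, h4⟩ := hc
  exact chain_mono (h3.le.trans h1) h4

theorem chain_drop {u0 : List (Fin N)} {t : ℝ} (m : ℕ) : ∀ x : List (Fin N),
    Chain T ω u0 x t → Chain T ω u0 (x.drop m) t := by
  induction m with
  | zero => intro x h; simpa using h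
  | succ m ih =>
    intro x h
    cases x with
    | nil => simpa using h
    | cons i x => exact ih x (chain_tail h)

theorem adj_block {a b : TV J n N} (h : (treeG J n N).Adj a b) :
    a.1 = b.1 ∨ (a.2 = none ∧ b.2 = none ∧ ∃ i, b.1 = i :: a.1) ∨
      (a.2 = none ∧ b.2 = none ∧ ∃ i, a.1 = i :: b.1) := by
  rcases h with h | h
  · rcases h with ⟨h1, -⟩ | ⟨h1, -⟩ | h1
    · exact Or.inl h1
    · exact Or.inl h1
    · exact Or.inr (Or.inl h1)
  · rcases h with ⟨h1, -⟩ | ⟨h1, -⟩ | ⟨h1, h2, h3⟩
    · exact Or.inl h1.symm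
    · exact Or.inl h1.symm
    · exact Or.inr (Or.inr ⟨h2, h1, h3⟩)

theorem noinc (hF : FinBars (treeG J n N) T ω)
    (hC : ∀ u0 : List (Fin N), ∃ K, ∀ x : List (Fin N), x.length = K → ¬ Chain T ω u0 x T) :
    ∀ y : ℕ → TV J n N × ℝ, (∀ m, Step (treeG J n N) T ω (y m) (y (m + 1))) →
      ∃ m, ¬ (y m).2 < (y (m + 1)).2 := by
  classical
  intro y hy
  by_contra hcon
  push Not at hcon
  have hjump : ∀ m, (y (m + 1)).2 < T ∧ Bar (treeG J n N) T ω (y m).1 (y (m + 1)).2 (y (m + 1)).1 ∨
      ((y (m + 1)).1 = (y m).1 ∧ (y (m + 1)).2 = 0) := by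
    intro m
    rcases hy m with ⟨h1, h2, h3, h4⟩ | ⟨h1, h2, h3⟩
    · exact Or.inl ⟨h2, h3⟩
    · exact Or.inr ⟨h1, h2⟩
  -- times are strictly increasing, so from index 1 on they are positive or the first is 0
  have hmono : StrictMono fun m => (y m).2 := strictMono_nat_of_lt_succ hcon
  have hjump' : ∀ m, 1 ≤ m → (y (m + 1)).2 < T ∧
      Bar (treeG J n N) T ω (y m).1 (y (m + 1)).2 (y (m + 1)).1 := by
    intro m hm
    rcases hjump m with h | ⟨h1, h2⟩
    · exact h
    · exfalso
      -- at time 0 after an increase: the previous state has negative time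
      have h3 := hcon m
      rw [h2] at h3
      have h4 : 0 ≤ (y m).2 := by
        obtain ⟨m', rfl⟩ : ∃ m', m = m' + 1 := ⟨m - 1, by omega⟩
        rcases hjump m' with ⟨-, h⟩ | ⟨-, h⟩
        · obtain ⟨-, i, -, h5⟩ := h
          rw [← h5]
          have hT : 0 < T := by
            rcases hy (m' + 1 + 1) with ⟨k1, k2, -, -⟩ | ⟨k1, k2, k3⟩
            · have := hcon (m' + 1)
              rw [h2] at this k1
              linarith
            · have := hcon (m' + 1 + 1)
              rw [k2, h2] at this
              linarith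
          exact mul_nonneg hT.le (unitInterval.nonneg _)
        · exact h.ge
      linarith
  -- the highest block visited from index 1 on
  have hex : ∃ L, ∃ m, 1 ≤ m ∧ (y m).1.1.length = L := ⟨_, 1, le_rfl, rfl⟩
  obtain ⟨m0, hm0, hL⟩ := Nat.find_spec hex
  have hmin : ∀ m, 1 ≤ m → (y m0).1.1.length ≤ (y m).1.1.length := by
    intro m hm
    rw [hL]
    exact Nat.find_min' hex ⟨m, hm, rfl⟩
  set u0 := (y m0).1.1 with hu0
  have hch : ∀ m, m0 ≤ m → ∃ x, (y m).1.1 = x ++ u0 ∧ Chain T ω u0 x (y m).2 := by
    intro m hm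
    induction m, hm using Nat.le_induction with
    | base => exact ⟨[], rfl, trivial⟩
    | succ m hm ih =>
      obtain ⟨x, hx, hc⟩ := ih
      obtain ⟨-, hbar⟩ := hjump' m (by omega)
      have hlt := hcon m
      rcases adj_block hbar.1 with h | ⟨ha, hb, i, hi⟩ | ⟨ha, hb, i, hi⟩
      · exact ⟨x, by rw [← h, hx], chain_mono hlt.le hc⟩
      · refine ⟨i :: x, by rw [hi, hx]; rfl, (y (m + 1)).2, le_rfl, ?_, (y m).2, hlt, hc⟩
        have e1 : (y m).1 = (x ++ u0, none) := Prod.ext hx ha
        have e2 : (y (m + 1)).1 = (i :: x ++ u0, none) := Prod.ext (by rw [hi, hx]; rfl) hb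
        rw [← e1, ← e2]
        exact hbar
      · cases x with
        | nil =>
          exfalso
          have h1 := hmin (m + 1) (by omega)
          have h2 := congrArg List.length hi
          rw [hx] at h2
          simp only [List.nil_append, List.length_cons] at h2
          omega
        | cons i' x =>
          refine ⟨x, ?_, chain_mono hlt.le (chain_tail hc)⟩
          rw [hx] at hi
          simp only [List.cons_append, List.cons.injEq] at hi
          exact hi.2.symm
  obtain ⟨K, hK⟩ := hC u0
  have hlen : ∀ m, m0 ≤ m → (y m).1.1.length ≤ K + u0.length := by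
    intro m hm
    obtain ⟨x, hx, hc⟩ := hch m hm
    rw [hx, List.length_append]
    have : x.length ≤ K := by
      by_contra hlt
      rw [not_le] at hlt
      have hT : (y m).2 ≤ T := by
        have h1 := hcon m
        have h2 := (hjump' m (by omega)).1
        linarith
      refine hK (x.drop (x.length - K)) (by rw [List.length_drop]; omega) ?_
      exact chain_drop _ _ (chain_mono hT hc)
    omega
  -- finitely many states
  have hfinW : {l : List (Fin N) | l.length ≤ K + u0.length}.Finite := List.finite_length_le _ _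
  have hfinV : {a : TV J n N | a.1.length ≤ K + u0.length}.Finite := by
    refine Set.Finite.subset (hfinW.prod (Set.finite_univ (α := Option (Fin J × Fin n)))) ?_
    intro a ha
    exact ⟨ha, trivial⟩
  set S : Set (TV J n N × ℝ) := ⋃ a ∈ {a : TV J n N | a.1.length ≤ K + u0.length},
    (fun r => (a, r)) '' {r | ∃ c, Bar (treeG J n N) T ω a r c} with hS
  have hSfin : S.Finite := hfinV.biUnion fun a _ => (hF a).image _
  have hmaps : ∀ m, y (m0 + 1 + m) ∈ S := by
    intro m
    have h1 := (hjump' (m0 + m) (by omega)).2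
    rw [hS, Set.mem_iUnion₂]
    refine ⟨(y (m0 + 1 + m)).1, hlen _ (by omega), (y (m0 + 1 + m)).2, ?_, rfl⟩
    refine ⟨(y (m0 + m)).1, ?_⟩
    rw [show m0 + 1 + m = m0 + m + 1 by ring]
    exact h1.symm
  have hinj : Function.Injective fun m => y (m0 + 1 + m) := by
    intro a b hab
    have h1 : (fun m => (y m).2) (m0 + 1 + a) = (fun m => (y m).2) (m0 + 1 + b) := by
      simp only at hab ⊢
      rw [hab]
    have := hmono.injective h1
    omega
  exact Set.infinite_of_injective_forall_mem hinj hmaps hSfin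

end Pool.Agent.H592S
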