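import Mathlib
import Pool.Agent.H592S.Low

set_option autoImplicit false
open MeasureTheory ProbabilityTheory

namespace Pool.Agent.H592S

variable {J n N : ℕ} {T : ℝ} {ω : Cfg (TV J n N)}

/-! Deterministic part of the absence of infinite cycles. -/

/-- a quarter of the time interval -/
def Quarter (q : Fin 4) : Set unitInterval := {x | (q.val : ℝ) / 4 ≤ x ∧ (x : ℝ) < (q.val + 1) / 4}

/-- cyclic interval -/
def CI (α β σ : ℝ) : Prop := if α < β then α ≤ σ ∧ σ < β else α ≤ σ ∨ σ < β

theorem CI_left {α β : ℝ} (h : α ≠ β) : CI α β α := by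
  unfold CI
  split_ifs with h1
  · exact ⟨le_rfl, h1⟩
  · exact Or.inl le_rfl

theorem CI_wrap {α β σ T : ℝ} (h : CI α β σ) (h0 : 0 < β) (hT : β < T) (hn : ¬ (σ < β ∧ β < T)) :
    CI α β 0 := by
  unfold CI at h ⊢
  split_ifs at h ⊢ with h1
  · exact absurd ⟨h.2, hT⟩ hn
  · exact Or.inr h0

theorem CI_step {α β σ σ' : ℝ} (h : CI α β σ) (hσ : σ < σ') (hn : ¬ (σ < β ∧ β < σ'))
    (hab : α ≠ β) (hb : σ' ≠ β) : CI α β σ' ∧ σ' ≠ α := by
  unfold CI at h ⊢
  split_ifs at h ⊢ with h1
  · have h2 : σ' ≤ β := by
      by_contra hc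
      exact hn ⟨h.2, not_le.mp hc⟩
    have h3 : σ' < β := lt_of_le_of_ne h2 hb
    exact ⟨⟨by linarith [h.1], h3⟩, by linarith [h.1]⟩
  · have h1' : β < α := lt_of_le_of_ne (not_lt.mp h1) hab.symm
    rcases h with h | h
    · exact ⟨Or.inl (by linarith), by linarith⟩
    · have h2 : σ' ≤ β := by
        by_contra hc
        exact hn ⟨h, not_le.mp hc⟩
      have h3 : σ' < β := lt_of_le_of_ne h2 hb
      exact ⟨Or.inr h3, by linarith⟩

theorem quarter_sep {T : ℝ} (hT : 0 < T) {q : Fin 4} {s a t b : unitInterval} (hs : s ∈ Quarter q)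
    (ha : a ∈ Quarter (q + 1)) (ht : t ∈ Quarter (q + 2)) (hb : b ∈ Quarter (q + 3)) :
    CI (T * b) (T * a) (T * s) ∧ ¬ CI (T * b) (T * a) (T * t) := by
  unfold Quarter at hs ha ht hb
  rw [Set.mem_ofPred_eq] at hs ha ht hb
  unfold CI
  have hlt : ∀ x y : ℝ, (T * x < T * y ↔ x < y) := fun x y => mul_lt_mul_iff_right₀ hT
  have hle : ∀ x y : ℝ, (T * x ≤ T * y ↔ x ≤ y) := fun x y => mul_le_mul_iff_right₀ hT
  simp only [hlt, hle]
  fin_cases q
  · simp at hs ha ht hb
    norm_num at hs ha ht hb
    rw [if_neg (by linarith [ha.2, hb.1]), if_neg (by linarith [ha.2, hb.1])]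
    refine ⟨Or.inr (by linarith [hs.2, ha.1]), ?_⟩
    push Not
    exact ⟨by linarith [ht.2, hb.1], by linarith [ha.2, ht.1]⟩
  · simp at hs ha ht hb
    norm_num at hs ha ht hb
    have h1 : (b : ℝ) < a := by linarith [hb.2, ha.1]
    rw [if_pos h1, if_pos h1]
    refine ⟨⟨by linarith [hb.2, hs.1], by linarith [hs.2, ha.1]⟩, ?_⟩
    rintro ⟨-, h2⟩
    linarith [ht.1, ha.2]
  · simp at hs ha ht hb
    norm_num at hs ha ht hb
    have h1 : (b : ℝ) < a := by linarith [hb.2, ha.1]
    rw [if_pos h1, if_pos h1]
    refine ⟨⟨by linarith [hb.2, hs.1], by linarith [hs.2, ha.1]⟩, ?_⟩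
    rintro ⟨h2, -⟩
    linarith [ht.2, hb.1]
  · simp at hs ha ht hb
    norm_num at hs ha ht hb
    rw [if_neg (by linarith [ha.2, hb.1]), if_neg (by linarith [ha.2, hb.1])]
    refine ⟨Or.inl (by linarith [hb.2, hs.1]), ?_⟩
    push Not
    exact ⟨by linarith [ht.2, hb.1], by linarith [ha.2, ht.1]⟩

/-- the core vertices of a gadget -/
def core {k : ℕ} (γ : Fin k ↪ Fin n) : Fin (k + 1) → Option (Fin n) :=
  Fin.cons none fun i => some (γ i)

theorem core_zero {k : ℕ} (γ : Fin k ↪ Fin n) : core γ 0 = none := rfl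

theorem core_succ {k : ℕ} (γ : Fin k ↪ Fin n) (i : Fin k) : core γ i.succ = some (γ i) := rfl

theorem core_inj {k : ℕ} (γ : Fin k ↪ Fin n) : Function.Injective (core γ) := by
  intro a b h
  induction a using Fin.cases with
  | zero =>
    induction b using Fin.cases with
    | zero => rfl
    | succ b => simp [core_zero, core_succ] at h
  | succ a =>
    induction b using Fin.cases with
    | zero => simp [core_zero, core_succ] at h
    | succ b =>
      rw [core_succ, core_succ, Option.some.injEq] at h
      rw [γ.injective h]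

theorem core_range {k : ℕ} (γ : Fin k ↪ Fin n) {y : Fin n} (h : y ∈ Set.range γ) :
    ∃ i, some y = core γ i := by
  obtain ⟨i, rfl⟩ := h
  exact ⟨i.succ, rfl⟩

theorem core_some {k : ℕ} (γ : Fin k ↪ Fin n) {y : Fin n} {i : Fin (k + 1)} (h : core γ i = some y) :
    y ∈ Set.range γ := by
  induction i using Fin.cases with
  | zero => simp [core_zero] at h
  | succ a =>
    rw [core_succ, Option.some.injEq] at h
    exact ⟨a, h⟩

/-- core vertices seen in the copy `j'` -/
def CoreP (j : Fin J) {k : ℕ} (γ : Fin k ↪ Fin n) (j' : Fin J) (p : Option (Fin n)) : Prop :=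
  p = none ∨ (j' = j ∧ ∃ i, p = core γ i)

/-- other vertices of the copy `j'` -/
def NC (j : Fin J) {k : ℕ} (γ : Fin k ↪ Fin n) (j' : Fin J) (y : Fin n) : Prop :=
  j' = j → y ∉ Set.range γ

/-- position of the first bar -/
def posn (ω : Cfg (TV J n N)) (u : List (Fin N)) (j : Fin J) (x y : Option (Fin n)) :
    unitInterval := (ω s(cv u j x, cv u j y)).2 0

/-- the edges of the gadget are single, with first and last bar in given quarters -/
def Cyc (ω : Cfg (TV J n N)) (u : List (Fin N)) (j : Fin J) {k : ℕ} (γ : Fin k ↪ Fin n)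
    (q : Fin 4) : Prop :=
  (∀ i : Fin (k + 1), cnt ω u j (core γ i) (core γ (i + 1)) = 1) ∧
  posn ω u j (core γ 0) (core γ (0 + 1)) ∈ Quarter (q + 1) ∧
  posn ω u j (core γ (0 - 1)) (core γ (0 - 1 + 1)) ∈ Quarter (q + 3)

/-- nothing else interferes -/
def Clear (ω : Cfg (TV J n N)) (u : List (Fin N)) (j : Fin J) {k : ℕ} (γ : Fin k ↪ Fin n) : Prop :=
  (∀ i y, y ≠ core γ i → cnt ω u j (core γ i) y ≤ 1) ∧
  (∀ j' (y : Fin n), cnt ω u j' none (some y) ≤ 1) ∧
  (∀ i i', i' ≠ i → i' ≠ i + 1 → i ≠ i' + 1 → ¬ 1 ≤ cnt ω u j (core γ i) (core γ i')) ∧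
  (∀ j' p p' (b : List (Fin n)), CoreP j γ j' p → CoreP j γ j' p' → b ≠ [] → b.Nodup →
    (∀ y ∈ b, NC j γ j' y) → ¬ (p = p' ∧ b.length = 1) → ¬ ActE ω u j' (earE p p' b))

theorem fin_two {k : ℕ} (hk : 2 ≤ k) (i : Fin (k + 1)) : i - 1 ≠ i + 1 := by
  intro h
  have h1 : (1 : Fin (k + 1)) + 1 = 0 := by
    have : i = i + 1 + 1 := by rw [← h]; simp
    have h2 : i + 0 = i + (1 + 1) := by rw [add_zero, ← add_assoc]; exact this
    exact (add_left_cancel h2).symm
  have h2 := congrArg Fin.val h1
  obtain ⟨k', rfl⟩ : ∃ k', k = k' + 2 := ⟨k - 2, by omega⟩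
  rw [Fin.val_add, Fin.val_one, Fin.val_zero] at h2
  rw [Nat.mod_eq_of_lt (by omega)] at h2
  omega

theorem cv_none (u : List (Fin N)) (j j' : Fin J) : cv (n := n) u j none = cv u j' none := rfl

theorem inv_step {k : ℕ} (hk : 2 ≤ k) (hT : 0 < T) (hR : Regular (treeG J n N) T ω)
    {up : List (Fin N)} {ip : Fin N} {j : Fin J} {γ : Fin k ↪ Fin n} {q : Fin 4}
    (hcyc : Cyc ω (ip :: up) j γ q) (hclear : Clear ω (ip :: up) j γ)
    (hp1 : (ω (ech up ip)).1 ≤ 1)
    (hpq : (ω (ech up ip)).2 0 ∈ Quarter q) (hch : ∀ i, (ω (ech (ip :: up) i)).1 ≤ 1) (i0 : Fin N)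
    (hcq : (ω (ech (ip :: up) i0)).2 0 ∈ Quarter (q + 2)) {z z' : TV J n N × ℝ}
    (hz : z.1 ∉ Sub J n (ip :: up)) (h : Relation.ReflTransGen (Step (treeG J n N) T ω) z z') :
    z'.1 ∉ Sub J n (i0 :: ip :: up) := by
  set u := ip :: up with hu
  obtain ⟨hsingle, hfirst, hlast⟩ := hcyc
  obtain ⟨hnm, hnm', hnch, hnear⟩ := hclear
  set τ : Fin (k + 1) → ℝ := fun i => T * (posn ω u j (core γ i) (core γ (i + 1)) : ℝ) with hτ
  have hne1 : ∀ i : Fin (k + 1), core γ i ≠ core γ (i + 1) := by
    intro i hcon
    have h1 := core_inj γ hcon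
    have h2 := fin_two hk (i + 1)
    apply h2
    rw [add_sub_cancel_right, ← h1, ← h1]
  have bcyc : ∀ i, Bar (treeG J n N) T ω (cv u j (core γ i)) (τ i) (cv u j (core γ (i + 1))) :=
    fun i => bar_of_single (cv_adj u j (hne1 i)) (hsingle i)
  have bin : ∀ i, Bar (treeG J n N) T ω (cv u j (core γ i)) (τ (i - 1)) (cv u j (core γ (i - 1))) := by
    intro i
    have h1 := (bcyc (i - 1)).symm
    rwa [sub_add_cancel] at h1
  have hτne : ∀ i, τ (i - 1) ≠ τ i := by
    intro i hcon
    have h1 := bin i
    rw [hcon] at h1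
    have h2 := hR.1 _ _ _ _ h1 (bcyc i)
    exact fin_two hk i (core_inj γ (cv_inj u j h2))
  set Arc : Fin (k + 1) → ℝ → Prop := fun i σ => CI (τ (i - 1)) (τ i) σ with hArc
  have harc_par : Arc 0 (T * ((ω (ech up ip)).2 0 : ℝ)) := by
    rw [hArc, hτ]
    exact (quarter_sep hT hpq hfirst hcq hlast).1
  have harc_child : ¬ Arc 0 (T * ((ω (ech u i0)).2 0 : ℝ)) := by
    rw [hArc, hτ]
    exact (quarter_sep hT hpq hfirst hcq hlast).2
  set I : TV J n N × ℝ → Prop := fun z =>
    z.1 ∉ Sub J n u ∨
    (∃ i, z.1 = cv u j (core γ i) ∧ Arc i z.2) ∨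
    (∃ j' y, z.1 = (u, some (j', y)) ∧ NC j γ j' y ∧ ∃ p σ y0, CoreP j γ j' p ∧
      (∃ i, p = core γ i ∧ Arc i σ) ∧ Bar (treeG J n N) T ω (cv u j' p) σ (u, some (j', y0)) ∧
      NC j γ j' y0 ∧ (actG ω u j' (NC j γ j')).Reachable y0 y) ∨
    (∃ i', z.1 ∈ Sub J n (i' :: u) ∧ Arc 0 (T * ((ω (ech u i')).2 0 : ℝ))) with hI
  have hstep : ∀ z z', Step (treeG J n N) T ω z z' → I z → I z' := by
    rintro ⟨a, t⟩ ⟨a', t'⟩ (⟨h1, h2, h3, h4⟩ | ⟨h1, h2, h3⟩) hIz
    · simp only at h1 h2 h3 h4
      rcases hIz with hA | ⟨i, hB1, hB2⟩ | ⟨j', y, hC1, hC2, p, σ, y0, hC3, ⟨i, hC4, hC5⟩, hC6, hC7, hC8⟩ |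
        ⟨i', hD1, hD2⟩
      · -- outside
        simp only at hA
        by_cases ha' : a' ∈ Sub J n u
        · obtain ⟨e1, i, u', e2, e3⟩ := sub_boundary h3.1.symm ha' hA
          rw [hu] at e2
          simp only [List.cons.injEq] at e2
          obtain ⟨rfl, rfl⟩ := e2
          subst e1 e3
          refine Or.inr (Or.inl ⟨0, rfl, ?_⟩)
          simp only
          rw [bar_single h3 hp1]
          exact harc_par
        · exact Or.inl ha'
      · -- core
        simp only at hB1 hB2
        subst hB1
        by_cases hβ : t' = τ i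
        · rw [hβ] at h3
          have e1 := hR.1 _ _ _ _ h3 (bcyc i)
          refine Or.inr (Or.inl ⟨i + 1, e1, ?_⟩)
          simp only
          rw [hβ]
          have h5 := CI_left (hτne (i + 1))
          rw [add_sub_cancel_right] at h5
          rw [hArc]
          simp only
          rw [add_sub_cancel_right]
          exact h5
        · obtain ⟨hci, hα⟩ := CI_step hB2 h1 (fun hc => h4 _ _ hc.1 hc.2 (bcyc i)) (hτne i) hβ
          -- targets in the copy j
          have keyj : ∀ y', a' = cv u j y' → I (a', t') := by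
            intro y' hy'
            subst hy'
            by_cases hc : ∃ i', y' = core γ i'
            · exfalso
              obtain ⟨i', rfl⟩ := hc
              have hact : 1 ≤ cnt ω u j (core γ i) (core γ i') := bar_pos h3
              by_cases c1 : i' = i
              · rw [c1] at h3
                exact (treeG J n N).irrefl h3.1
              by_cases c2 : i' = i + 1
              · rw [c2] at h3
                exact hβ (bar_single h3 (hsingle i).le)
              by_cases c3 : i = i' + 1
              · rw [c3] at h3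
                have h5 := bar_single h3.symm (hsingle i').le
                apply hα
                rw [c3, add_sub_cancel_right]
                exact h5
              · exact hnch i i' c1 c2 c3 hact
            · cases y' with
              | none => exact absurd ⟨0, rfl⟩ hc
              | some y =>
                have hnc : NC j γ j y := fun _ hmem => hc (core_range γ hmem)
                exact Or.inr (Or.inr (Or.inl ⟨j, y, rfl, hnc, core γ i, t', y,
                  Or.inr ⟨rfl, i, rfl⟩, ⟨i, rfl, hci⟩, h3, hnc, SimpleGraph.Reachable.refl _⟩))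
          cases hcore : core γ i with
          | none =>
            have hi0 : i = 0 := core_inj γ (by rw [hcore, core_zero])
            subst hi0
            rcases adj_root (show (treeG J n N).Adj (u, none) a' by
              have := h3.1; rw [hcore] at this; exact this) with
              ⟨⟨j', y⟩, e⟩ | ⟨i', e⟩ | ⟨i', u', e1, e2⟩
            · by_cases hj : j' = j
              · subst hj
                exact keyj (some y) e
              · have hnc : NC j γ j' y := fun hc => absurd hc hj
                refine Or.inr (Or.inr (Or.inl ⟨j', y, e, hnc, none, t', y, Or.inl rfl,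
                  ⟨0, rfl, hci⟩, ?_, hnc, SimpleGraph.Reachable.refl _⟩))
                rw [hcore, e] at h3
                exact h3
            · refine Or.inr (Or.inr (Or.inr ⟨i', ?_, ?_⟩))
              · rw [e]; exact List.suffix_refl _
              · rw [hcore, e] at h3
                have h5 := bar_single h3 (hch i')
                have h6 : t' = T * ((ω (ech u i')).2 0 : ℝ) := h5
                rw [← h6]
                exact hci
            · refine Or.inl ?_
              simp only
              rw [e2]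
              intro hcon
              have h5 := List.IsSuffix.length_le (show u <:+ u' from hcon)
              rw [e1] at h5
              simp at h5
          | some x =>
            rcases adj_clique (show (treeG J n N).Adj (u, some (j, x)) a' by
              have := h3.1; rw [hcore] at this; exact this) with e | ⟨y, -, e⟩
            · exact keyj none e
            · exact keyj (some y) e
      · -- hanging in a copy
        simp only at hC1
        subst hC1
        have keyc : ∀ p', a' = cv u j' p' → CoreP j γ j' p' → I (a', t') := by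
          intro p' hp' hcp
          subst hp'
          obtain ⟨b, hb1, hb2, hb3, hb4, hb5⟩ := reach_list hC8 hC7 (p := p) (p' := p')
            (bar_pos hC6) (bar_pos h3)
          by_cases hpp : p = p' ∧ b.length = 1
          · obtain ⟨rfl, hlen⟩ := hpp
            have hy := hb4 hlen
            subst hy
            have hle : (ω s(cv u j' p, (u, some (j', y0)))).1 ≤ 1 := by
              rcases hC3 with hp | ⟨hj, i', hp⟩
              · subst hp
                exact hnm' j' y0
              · subst hj hp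
                refine hnm i' (some y0) ?_
                intro hcon
                exact hC7 rfl (core_some γ hcon.symm)
            have ht : t' = σ := by rw [bar_single h3.symm hle, bar_single hC6 hle]
            refine Or.inr (Or.inl ⟨i, ?_, ?_⟩)
            · simp only
              rcases hC3 with hp | ⟨hj, -⟩
              · rw [← hC4, hp]; rfl
              · rw [hj, hC4]
            · simp only
              rw [ht]
              exact hC5
          · exact absurd hb5 (hnear j' p p' b hC3 hcp hb1 hb2 hb3 hpp)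
        rcases adj_clique h3.1 with e | ⟨y', hne, e⟩
        · exact keyc none e (Or.inl rfl)
        · by_cases hnc : NC j γ j' y'
          · refine Or.inr (Or.inr (Or.inl ⟨j', y', e, hnc, p, σ, y0, hC3, ⟨i, hC4, hC5⟩, hC6, hC7,
              hC8.trans (SimpleGraph.Adj.reachable ⟨hne, hC2, hnc, ?_⟩)⟩))
            rw [e] at h3
            exact bar_pos h3
          · unfold NC at hnc
            push Not at hnc
            obtain ⟨i', hi'⟩ := core_range γ hnc.2
            exact keyc (some y') e (Or.inr ⟨hnc.1, i', hi'⟩)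
      · -- below a child
        simp only at hD1
        by_cases ha' : a' ∈ Sub J n (i' :: u)
        · exact Or.inr (Or.inr (Or.inr ⟨i', ha', hD2⟩))
        · obtain ⟨e1, i'', u'', e2, e3⟩ := sub_boundary h3.1 hD1 ha'
          simp only [List.cons.injEq] at e2
          obtain ⟨rfl, rfl⟩ := e2
          subst e1 e3
          refine Or.inr (Or.inl ⟨0, rfl, ?_⟩)
          simp only
          rw [bar_single h3.symm (hch i')]
          exact hD2
    · -- wrap
      simp only at h1 h2 h3
      subst h1 h2
      rcases hIz with hA | ⟨i, hB1, hB2⟩ | hC | hD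
      · exact Or.inl hA
      · refine Or.inr (Or.inl ⟨i, hB1, ?_⟩)
        simp only at hB1 hB2 ⊢
        obtain ⟨b1, b2⟩ := hR.2 _ _ _ (bcyc i)
        exact CI_wrap hB2 b1 b2 (fun hc => h3 (τ i) (cv u j (core γ (i + 1))) hc.1 hc.2
          (by rw [hB1]; exact bcyc i))
      · exact Or.inr (Or.inr (Or.inl hC))
      · exact Or.inr (Or.inr (Or.inr hD))
  have hIz' : I z' := by
    induction h with
    | refl => exact Or.inl hz
    | tail _ h2 ih => exact hstep _ _ h2 ih
  intro hcon
  have hcon' : i0 :: u <:+ z'.1.1 := hcon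
  rcases hIz' with hA | ⟨i, hB1, -⟩ | ⟨j', y, hC1, -⟩ | ⟨i', hD1, hD2⟩
  · exact hA ((List.suffix_cons _ _).trans hcon')
  · have h5 : z'.1.1 = u := by
      rw [hB1]
      cases core γ i <;> rfl
    rw [h5] at hcon'
    have := hcon'.length_le
    simp at this
  · rw [hC1] at hcon'
    have := hcon'.length_le
    simp at this
  · have hD1' : i' :: u <:+ z'.1.1 := hD1
    have h5 := List.suffix_of_suffix_length_le hD1' hcon' (by simp)
    have h6 := h5.eq_of_length (by simp)
    simp only [List.cons.injEq, and_true] at h6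
    rw [h6] at hD2
    exact harc_child hD2

end Pool.Agent.H592S
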