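import Mathlib
import Pool.Agent.H592S.High

set_option autoImplicit false
open MeasureTheory ProbabilityTheory

namespace Pool.Agent.H592S

variable {J n N : ℕ} {T : ℝ} {ω : Cfg (TV J n N)}

theorem range_path {X : Type} (f : ℕ → X) (L : ℕ) : ∀ s : ℕ, ∀ e ∈ pathE ((List.range' s L).map f),
    ∃ t, s ≤ t ∧ t + 1 < s + L ∧ e = s(f t, f (t + 1)) := by
  induction L with
  | zero => intro s e he; simp [pathE] at he
  | succ L ih =>
    intro s e he
    cases L with
    | zero => simp [pathE] at he
    | succ L =>
      rw [List.range'_succ, List.map_cons] at he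
      have e1 : List.map f (List.range' (s + 1) (L + 1)) = f (s + 1) :: List.map f (List.range' (s + 1 + 1) L) := by
        rw [List.range'_succ, List.map_cons]
      rw [e1] at he
      simp only [pathE, List.mem_cons] at he
      rcases he with rfl | he
      · exact ⟨s, le_rfl, by omega, rfl⟩
      · rw [← e1] at he
        obtain ⟨t, h1, h2, h3⟩ := ih (s + 1) e he
        exact ⟨t, by omega, by omega, h3⟩

/-- core vertices indexed by natural numbers -/
def cN {k : ℕ} (γ : Fin k ↪ Fin n) (m : ℕ) : Option (Fin n) :=
  if h : m < k + 1 then core γ ⟨m, h⟩ else none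

theorem cN_zero {k : ℕ} (γ : Fin k ↪ Fin n) : cN γ 0 = none := by
  unfold cN
  rw [dif_pos (by omega)]
  rfl

theorem cN_last {k : ℕ} (γ : Fin k ↪ Fin n) : cN γ (k + 1) = none := by
  unfold cN
  rw [dif_neg (by omega)]

theorem cN_inj {k : ℕ} (γ : Fin k ↪ Fin n) {m m' : ℕ} (hm : m ≤ k) (hm' : m' ≤ k)
    (h : cN γ m = cN γ m') : m = m' := by
  unfold cN at h
  rw [dif_pos (by omega), dif_pos (by omega)] at h
  have := core_inj γ h
  simpa using this

theorem cN_some {k : ℕ} (γ : Fin k ↪ Fin n) {m : ℕ} (h1 : 1 ≤ m) (h2 : m ≤ k) :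
    ∃ a, cN γ m = some a := by
  unfold cN
  rw [dif_pos (by omega)]
  have : (⟨m, by omega⟩ : Fin (k + 1)) = (⟨m - 1, by omega⟩ : Fin k).succ := by
    ext; simp; omega
  rw [this, core_succ]
  exact ⟨_, rfl⟩

theorem cN_edge {k : ℕ} {u : List (Fin N)} {j : Fin J} {γ : Fin k ↪ Fin n} {q : Fin 4}
    (h : Cyc ω u j γ q) {m : ℕ} (hm : m ≤ k) : cnt ω u j (cN γ m) (cN γ (m + 1)) = 1 := by
  have h1 := h.1 ⟨m, by omega⟩
  have e1 : cN γ m = core γ ⟨m, by omega⟩ := by unfold cN; rw [dif_pos (by omega)]
  have e2 : cN γ (m + 1) = core γ ((⟨m, by omega⟩ : Fin (k + 1)) + 1) := by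
    unfold cN
    split_ifs with h2
    · congr 1
      ext
      rw [Fin.val_add, Fin.val_one', Nat.mod_eq_of_lt (show 1 < k + 1 by omega)]
      rw [Nat.mod_eq_of_lt (by simp only; omega)]
    · have hmk : m = k := by omega
      subst hmk
      have : (⟨m, by omega⟩ : Fin (m + 1)) + 1 = 0 := by
        ext
        rw [Fin.val_add, Fin.val_one', Fin.val_zero]
        simp
      rw [this, core_zero]
  rw [e1, e2]
  exact h1

theorem quarter_disj {q : Fin 4} {x : unitInterval} (h1 : x ∈ Quarter (q + 1))
    (h3 : x ∈ Quarter (q + 3)) : False := by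
  unfold Quarter at h1 h3
  rw [Set.mem_ofPred_eq] at h1 h3
  fin_cases q
  · simp at h1 h3; norm_num at h1 h3; linarith [h1.2, h3.1]
  · simp at h1 h3; norm_num at h1 h3; linarith [h1.1, h3.2]
  · simp at h1 h3; norm_num at h1 h3; linarith [h1.1, h3.2]
  · simp at h1 h3; norm_num at h1 h3; linarith [h1.2, h3.1]

theorem posn_symm (u : List (Fin N)) (j : Fin J) (x y : Option (Fin n)) :
    posn ω u j x y = posn ω u j y x := by
  unfold posn
  rw [Sym2.eq_swap]

theorem uniq_agree {k k' : ℕ} (hk : 2 ≤ k) (hk' : 2 ≤ k') {u : List (Fin N)} {j : Fin J}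
    {γ : Fin k ↪ Fin n} {γ' : Fin k' ↪ Fin n} {q : Fin 4}
    (hcyc : Cyc ω u j γ q) (hclear : Clear ω u j γ) (hcyc' : Cyc ω u j γ' q) :
    ∀ m, m ≤ k' → m ≤ k ∧ ∀ t ≤ m, cN γ' t = cN γ t := by
  classical
  obtain ⟨-, -, hnch, hnear⟩ := hclear
  have core_cN : ∀ (i : Fin (k + 1)), cN γ i.val = core γ i := by
    intro i; unfold cN; rw [dif_pos i.2]
  intro m
  induction m with
  | zero =>
    intro _
    refine ⟨Nat.zero_le _, fun t ht => ?_⟩
    have : t = 0 := by omega
    rw [this, cN_zero, cN_zero]
  | succ m ih =>
    intro hm1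
    obtain ⟨hmk, hall⟩ := ih (by omega)
    have hagree := hall m le_rfl
    have hedge := cN_edge hcyc' (show m ≤ k' by omega)
    -- the next vertex is in the core
    have hcore : ∃ i, cN γ' (m + 1) = core γ i := by
      by_contra hno
      have hex : ∃ r, m + 1 ≤ r ∧ r ≤ k' + 1 ∧ ∃ i, cN γ' r = core γ i :=
        ⟨k' + 1, by omega, le_rfl, 0, by rw [cN_last, core_zero]⟩
      obtain ⟨hr1, hr2, i', hi'⟩ := Nat.find_spec hex
      set r := Nat.find hex with hr
      have hrmin : ∀ t, m + 1 ≤ t → t < r → ¬ ∃ i, cN γ' t = core γ i := by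
        intro t h1 h2 h3
        exact Nat.find_min hex h2 ⟨h1, by omega, h3⟩
      have hrm : m + 1 < r := by
        rcases lt_or_eq_of_le hr1 with h | h
        · exact h
        · exact absurd ⟨i', by rw [h]; exact hi'⟩ hno
      obtain ⟨L, hL⟩ : ∃ L, r = m + 1 + (L + 1) := ⟨r - m - 2, by omega⟩
      set a0 : Fin n := γ' ⟨0, by omega⟩
      set g : ℕ → Fin n := fun t => (cN γ' t).getD a0 with hg
      have hgs : ∀ t, 1 ≤ t → t ≤ k' → cN γ' t = some (g t) := by
        intro t h1 h2
        obtain ⟨a, ha⟩ := cN_some γ' h1 h2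
        rw [hg]
        simp only
        rw [ha]
        rfl
      set b := (List.range' (m + 1) (L + 1)).map g with hb
      have hbmem : ∀ y ∈ b, ∃ t, m + 1 ≤ t ∧ t < r ∧ y = g t := by
        intro y hy
        rw [hb, List.mem_map] at hy
        obtain ⟨t, ht, rfl⟩ := hy
        rw [List.mem_range'_1] at ht
        exact ⟨t, ht.1, by omega, rfl⟩
      have hlist : (cN γ' m :: (b.map some ++ [cN γ' r])) = (List.range' m (L + 1 + 2)).map (cN γ') := by
        rw [List.range'_succ, List.map_cons, List.range'_1_concat, List.map_append]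
        congr 2
        · rw [hb, List.map_map]
          refine List.map_congr_left fun t ht => ?_
          rw [List.mem_range'_1] at ht
          simp only [Function.comp_apply]
          exact (hgs t (by omega) (by omega)).symm
        · rw [hL]
          simp
      have hact : ActE ω u j (earE (cN γ' m) (cN γ' r) b) := by
        intro e he
        unfold earE at he
        rw [hlist] at he
        obtain ⟨t, h1, h2, rfl⟩ := range_path _ _ _ e he
        have := cN_edge hcyc' (show t ≤ k' by omega)
        exact this.ge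
      refine hnear j (cN γ' m) (cN γ' r) b ?_ ?_ ?_ ?_ ?_ ?_ hact
      · right
        refine ⟨rfl, ⟨m, by omega⟩, ?_⟩
        rw [hagree, ← core_cN]
      · exact Or.inr ⟨rfl, i', hi'⟩
      · rw [hb]
        simp [List.range'_succ]
      · rw [hb]
        refine List.Nodup.map_on ?_ (List.nodup_range' ..)
        intro x hx y hy hxy
        rw [List.mem_range'_1] at hx hy
        have h1 := hgs x (by omega) (by omega)
        have h2 := hgs y (by omega) (by omega)
        rw [hxy, ← h2] at h1
        exact cN_inj γ' (by omega) (by omega) h1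
      · intro y hy _ hmem
        obtain ⟨t, h1, h2, rfl⟩ := hbmem y hy
        obtain ⟨i, hi⟩ := core_range γ hmem
        exact hrmin t h1 h2 ⟨i, by rw [hgs t (by omega) (by omega)]; exact hi⟩
      · rintro ⟨h1, h2⟩
        rw [hb, List.length_map, List.length_range'] at h2
        -- p = p' forces m = 0, r = k' + 1
        by_cases hrk : r ≤ k'
        · have := cN_inj γ' (by omega) hrk h1
          omega
        · have hrk' : r = k' + 1 := by omega
          rw [hrk', cN_last] at h1
          have h3 : m = 0 := by
            by_contra hm0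
            obtain ⟨a, ha⟩ := cN_some γ' (m := m) (by omega) (by omega)
            rw [ha] at h1
            simp at h1
          omega
    obtain ⟨i', hi'⟩ := hcore
    have hactive : 1 ≤ cnt ω u j (core γ ⟨m, by omega⟩) (core γ i') := by
      rw [← core_cN ⟨m, by omega⟩, ← hi']
      simp only
      rw [← hagree]
      exact hedge.ge
    obtain ⟨a, ha⟩ := cN_some γ' (m := m + 1) (by omega) hm1
    by_cases c1 : i' = ⟨m, by omega⟩
    · exfalso
      rw [c1, ← core_cN] at hi'
      simp only at hi'
      rw [← hagree] at hi'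
      have := cN_inj γ' hm1 (by omega) hi'
      omega
    by_cases c2 : i' = (⟨m, by omega⟩ : Fin (k + 1)) + 1
    · by_cases hmk' : m = k
      · exfalso
        have : i' = 0 := by
          rw [c2]
          ext
          rw [Fin.val_add, Fin.val_one', Fin.val_zero]
          simp only
          rw [hmk']
          simp
        rw [this, core_zero, ha] at hi'
        simp at hi'
      · refine ⟨by omega, fun t ht => ?_⟩
        by_cases htm : t ≤ m
        · exact hall t htm
        · have htm' : t = m + 1 := by omega
          rw [htm', hi', c2, ← core_cN]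
          congr 1
          rw [Fin.val_add, Fin.val_one', Nat.mod_eq_of_lt (show 1 < k + 1 by omega)]
          simp only
          exact Nat.mod_eq_of_lt (by omega)
    by_cases c3 : (⟨m, by omega⟩ : Fin (k + 1)) = i' + 1
    · exfalso
      by_cases hm0 : m = 0
      · subst hm0
        -- the last core vertex: the quarters disagree
        have hi'2 : i' = 0 - 1 := by
          have h0 : (0 : Fin (k + 1)) = i' + 1 := c3
          rw [h0]
          simp
        have h1 := hcyc.2.2
        rw [← hi'2, ← hi'] at h1
        have h2 : i' + 1 = 0 := c3.symm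
        rw [h2, core_zero, posn_symm] at h1
        have h3 := hcyc'.2.1
        have h4 : core γ' (0 + 1) = cN γ' (0 + 1) := by
          unfold cN
          rw [dif_pos (by omega)]
          congr 1
          ext
          rw [Fin.val_add, Fin.val_one', Fin.val_zero, Nat.mod_eq_of_lt (show 1 < k' + 1 by omega)]
          simp only
          exact Nat.mod_eq_of_lt (by omega)
        rw [core_zero, h4] at h3
        exact quarter_disj h3 h1
      · have hi'2 : i' = ⟨m - 1, by omega⟩ := by
          have h1 : i' + 1 = (⟨m - 1, by omega⟩ : Fin (k + 1)) + 1 := by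
            rw [← c3]
            ext
            rw [Fin.val_add, Fin.val_one', Nat.mod_eq_of_lt (show 1 < k + 1 by omega)]
            simp only
            rw [Nat.mod_eq_of_lt (by omega)]
            omega
          exact add_right_cancel h1
        rw [hi'2, ← core_cN] at hi'
        simp only at hi'
        have h3 : cN γ' (m - 1) = cN γ (m - 1) := hall _ (by omega)
        rw [← h3] at hi'
        have := cN_inj γ' hm1 (by omega) hi'
        omega
    · exact absurd hactive (hnch _ _ c1 c2 c3)

end Pool.Agent.H592S
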