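import Mathlib
import Pool.Agent.H592S.Uniq

set_option autoImplicit false
open MeasureTheory ProbabilityTheory

namespace Pool.Agent.H592S

variable {J n N : ℕ} {T : ℝ} {ω : Cfg (TV J n N)}

theorem cyc_list {k : ℕ} (hk : 2 ≤ k) {u : List (Fin N)} {j : Fin J} {γ : Fin k ↪ Fin n} {q : Fin 4}
    (h : Cyc ω u j γ q) : ∃ b : List (Fin n), b.Nodup ∧ b.length = k ∧
      ActE ω u j (earE none none b) := by
  classical
  set a0 : Fin n := γ ⟨0, by omega⟩
  set g : ℕ → Fin n := fun t => (cN γ t).getD a0 with hg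
  have hgs : ∀ t, 1 ≤ t → t ≤ k → cN γ t = some (g t) := by
    intro t h1 h2
    obtain ⟨a, ha⟩ := cN_some γ h1 h2
    rw [hg]
    simp only
    rw [ha]
    rfl
  refine ⟨(List.range' 1 k).map g, ?_, by simp, ?_⟩
  · refine List.Nodup.map_on ?_ (List.nodup_range' ..)
    intro x hx y hy hxy
    rw [List.mem_range'_1] at hx hy
    have h1 := hgs x (by omega) (by omega)
    have h2 := hgs y (by omega) (by omega)
    rw [hxy, ← h2] at h1
    exact cN_inj γ (by omega) (by omega) h1
  · have hlist : (none :: (((List.range' 1 k).map g).map some ++ [none]))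
        = (List.range' 0 (k + 2)).map (cN γ) := by
      rw [List.range'_succ, List.map_cons, List.range'_1_concat, List.map_append, cN_zero]
      congr 2
      · rw [List.map_map]
        refine List.map_congr_left fun t ht => ?_
        rw [List.mem_range'_1] at ht
        simp only [Function.comp_apply]
        exact (hgs t (by omega) (by omega)).symm
      · simp only [List.map_cons, List.map_nil]
        rw [show 0 + 1 + k = k + 1 by ring, cN_last]
    intro e he
    unfold earE at he
    rw [hlist] at he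
    obtain ⟨t, h1, h2, rfl⟩ := range_path _ _ _ e he
    exact (cN_edge h (show t ≤ k by omega)).ge

/-- good gadgets are unique -/
theorem uniq {k k' : ℕ} (hk : 2 ≤ k) (hk' : 2 ≤ k') {u : List (Fin N)} {j j' : Fin J}
    {γ : Fin k ↪ Fin n} {γ' : Fin k' ↪ Fin n} {q : Fin 4}
    (hcyc : Cyc ω u j γ q) (hclear : Clear ω u j γ) (hcyc' : Cyc ω u j' γ' q) :
    (⟨k, j, γ⟩ : Σ k : ℕ, Fin J × (Fin k ↪ Fin n)) = ⟨k', j', γ'⟩ := by
  by_cases hj : j' = j
  · subst hj
    have hag := uniq_agree hk hk' hcyc hclear hcyc'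
    obtain ⟨hkk, hall⟩ := hag k' le_rfl
    obtain ⟨-, -, hnch, -⟩ := hclear
    have hkeq : k' = k := by
      by_contra hne
      have hedge := cN_edge hcyc' (le_refl k')
      rw [cN_last, hall k' le_rfl] at hedge
      have e1 : cN γ k' = core γ ⟨k', by omega⟩ := by unfold cN; rw [dif_pos (by omega)]
      rw [e1, ← core_zero γ] at hedge
      refine hnch _ _ ?_ ?_ ?_ hedge.ge
      · intro h
        have := congrArg Fin.val h
        simp at this
        omega
      · intro h
        have := congrArg Fin.val h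
        rw [Fin.val_add, Fin.val_one', Fin.val_zero, Nat.mod_eq_of_lt (show 1 < k + 1 by omega)] at this
        simp only at this
        rw [Nat.mod_eq_of_lt (by omega)] at this
        omega
      · intro h
        have := congrArg Fin.val h
        rw [Fin.val_add, Fin.val_one', Fin.val_zero, Nat.mod_eq_of_lt (show 1 < k + 1 by omega)] at this
        simp only at this
        rw [Nat.mod_eq_of_lt (by omega)] at this
        omega
    subst hkeq
    have hγ : γ = γ' := by
      ext i
      have h1 := hall (i.val + 1) (by omega)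
      unfold cN at h1
      rw [dif_pos (by omega), dif_pos (by omega)] at h1
      have e2 : (⟨i.val + 1, by omega⟩ : Fin (k' + 1)) = i.succ := rfl
      rw [e2, core_succ, core_succ, Option.some.injEq] at h1
      rw [h1]
    rw [hγ]
  · exfalso
    obtain ⟨b, hb1, hb2, hb3⟩ := cyc_list hk' hcyc'
    refine hclear.2.2.2 j' none none b (Or.inl rfl) (Or.inl rfl) ?_ hb1 (fun y _ h => absurd h hj)
      ?_ hb3
    · rintro rfl
      simp at hb2
      omega
    · rintro ⟨-, h⟩
      omega

/-- the child `i` of `u` is protected -/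
def Prot (ω : Cfg (TV J n N)) (u : List (Fin N)) (i : Fin N) (q : Fin 4) : Prop :=
  (ω (ech u i)).2 0 ∈ Quarter (q + 2) ∧
  ∃ g : Σ k : ℕ, Fin J × (Fin k ↪ Fin n), 2 ≤ g.1 ∧ Cyc ω u g.2.1 g.2.2 q ∧ Clear ω u g.2.1 g.2.2

/-- entry through a single bar in quarter `q` -/
def Entry (ω : Cfg (TV J n N)) (q : Fin 4) : List (Fin N) → Prop
  | [] => False
  | i :: u => (ω (ech u i)).1 = 1 ∧ (ω (ech u i)).2 0 ∈ Quarter q

/-- an upper bound for the visited blocks below `u0` -/
def VisB (ω : Cfg (TV J n N)) (u0 : List (Fin N)) : List (Fin N) → Prop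
  | [] => True
  | i :: x => VisB ω u0 x ∧ 1 ≤ (ω (ech (x ++ u0) i)).1 ∧
      (x = [] ∨ ¬ ∃ q, Entry ω q (x ++ u0) ∧ (∀ i', (ω (ech (x ++ u0) i')).1 ≤ 1) ∧
        Prot ω (x ++ u0) i q)

theorem visB_drop {u0 : List (Fin N)} (m : ℕ) : ∀ x : List (Fin N), VisB ω u0 x →
    VisB ω u0 (x.drop m) := by
  induction m with
  | zero => intro x h; simpa using h
  | succ m ih =>
    intro x h
    cases x with
    | nil => simpa using h
    | cons i x => exact ih x h.1

theorem enter {B : Set (TV J n N)} {z z' : TV J n N × ℝ}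
    (h : Relation.ReflTransGen (Step (treeG J n N) T ω) z z') (hz : z.1 ∉ B) (hz' : z'.1 ∈ B) :
    ∃ a b : TV J n N × ℝ, Relation.ReflTransGen (Step (treeG J n N) T ω) z a ∧ a.1 ∉ B ∧ b.1 ∈ B ∧
      Bar (treeG J n N) T ω a.1 b.2 b.1 := by
  induction h with
  | refl => exact absurd hz' hz
  | tail h1 h2 ih =>
    rename_i y z'
    by_cases hy : y.1 ∈ B
    · exact ih hy
    · rcases h2 with ⟨k1, k2, k3, k4⟩ | ⟨k1, k2, k3⟩
      · exact ⟨y, z', h1, hy, hz', k3⟩
      · rw [k1] at hz'
        exact absurd hz' hy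

theorem vis_of_reach (hT : 0 < T) (hR : Regular (treeG J n N) T ω) {u0 : List (Fin N)}
    {z0 : TV J n N × ℝ} (hz0 : z0.1.1 = u0) : ∀ (x : List (Fin N)) (z' : TV J n N × ℝ),
      Relation.ReflTransGen (Step (treeG J n N) T ω) z0 z' → z'.1 ∈ Sub J n (x ++ u0) →
      VisB ω u0 x := by
  intro x
  induction x with
  | nil => intro _ _ _; trivial
  | cons i x ih =>
    intro z' hz' hmem
    have hnot : ∀ y : List (Fin N), y ≠ [] → z0.1 ∉ Sub J n (y ++ u0) := by
      intro y hy hcon
      have h1 := List.IsSuffix.length_le (show y ++ u0 <:+ z0.1.1 from hcon)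
      rw [hz0, List.length_append] at h1
      have := List.length_pos_of_ne_nil hy
      omega
    obtain ⟨a, b, ha, ha', hb', hbar⟩ := enter hz' (hnot (i :: x) (by simp)) hmem
    obtain ⟨e1, i'', u'', e2, e3⟩ := sub_boundary hbar.symm.1 hb' ha'
    simp only [List.cons_append, List.cons.injEq] at e2
    obtain ⟨rfl, rfl⟩ := e2
    refine ⟨ih a ha (by rw [e3]; exact List.suffix_refl _), ?_, ?_⟩
    · rw [e3, e1] at hbar
      exact bar_pos hbar
    · by_cases hx : x = []
      · exact Or.inl hx
      · right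
        rintro ⟨q, hent, hch, hq, ⟨k, j, γ⟩, hk, hcyc, hclear⟩
        simp only at hk hcyc hclear
        obtain ⟨ip, x', rfl⟩ := List.exists_cons_of_ne_nil hx
        rw [List.cons_append] at hent hcyc hclear hch hq
        refine inv_step hk hT hR hcyc hclear hent.1.le hent.2 hch i hq
          (hnot (ip :: x') (by simp)) hz' ?_
        exact hmem

theorem orbit_split (hR : Regular (treeG J n N) T ω) {a c : TV J n N × ℝ}
    (h : Relation.ReflTransGen (Step (treeG J n N) T ω) a c) :
    ∃ F : Set (TV J n N × ℝ), F.Finite ∧ ∀ s,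
      Relation.ReflTransGen (Step (treeG J n N) T ω) a s → s ∈ F ∨
        Relation.ReflTransGen (Step (treeG J n N) T ω) c s := by
  induction h using Relation.ReflTransGen.head_induction_on with
  | refl => exact ⟨∅, Set.finite_empty, fun s hs => Or.inr hs⟩
  | head hs hr ih =>
    rename_i x y
    obtain ⟨F, hF, hall⟩ := ih
    refine ⟨insert x F, hF.insert _, fun s hs' => ?_⟩
    rcases Relation.ReflTransGen.cases_head hs' with rfl | ⟨y', h1, h2⟩
    · exact Or.inl (Set.mem_insert _ _)
    · have := step_det hR h1 hs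
      rw [this] at h2
      rcases hall s h2 with h3 | h3
      · exact Or.inl (Set.mem_insert_of_mem _ h3)
      · exact Or.inr h3

theorem all_finite (hT : 0 < T) (hR : Regular (treeG J n N) T ω)
    (hV : ∀ u0 : List (Fin N), ∃ K, ∀ x : List (Fin N), x.length = K → ¬ VisB ω u0 x)
    (v : TV J n N) : (stirCycle (treeG J n N) T ω v).Finite := by
  classical
  have hex : ∃ L, ∃ z, Relation.ReflTransGen (Step (treeG J n N) T ω) (v, 0) z ∧
      z.1.1.length = L := ⟨_, (v, 0), Relation.ReflTransGen.refl, rfl⟩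
  obtain ⟨z0, hz0, hL⟩ := Nat.find_spec hex
  have hmin : ∀ z, Relation.ReflTransGen (Step (treeG J n N) T ω) (v, 0) z →
      z0.1.1.length ≤ z.1.1.length := by
    intro z hz
    rw [hL]
    exact Nat.find_min' hex ⟨z, hz, rfl⟩
  obtain ⟨F, hF, hsplit⟩ := orbit_split hR hz0
  obtain ⟨K, hK⟩ := hV z0.1.1
  have hsub : ∀ z, Relation.ReflTransGen (Step (treeG J n N) T ω) z0 z → z.1 ∈ Sub J n z0.1.1 := by
    intro z hz
    induction hz with
    | refl => exact List.suffix_refl _
    | tail h1 h2 ih =>
      rename_i y z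
      by_contra hcon
      rcases h2 with ⟨k1, k2, k3, k4⟩ | ⟨k1, k2, k3⟩
      · obtain ⟨e1, i, u', e2, e3⟩ := sub_boundary k3.1 ih hcon
        have h3 := hmin z (hz0.trans (h1.tail (Or.inl ⟨k1, k2, k3, k4⟩)))
        rw [e3, e2] at h3
        simp at h3
      · rw [k1] at hcon
        exact hcon ih
  have hlen : ∀ z, Relation.ReflTransGen (Step (treeG J n N) T ω) z0 z →
      z.1.1.length ≤ K + z0.1.1.length := by
    intro z hz
    obtain ⟨x, hx⟩ : ∃ x, x ++ z0.1.1 = z.1.1 := hsub z hz
    rw [← hx, List.length_append]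
    have : x.length ≤ K := by
      by_contra hlt
      rw [not_le] at hlt
      refine hK (x.drop (x.length - K)) (by rw [List.length_drop]; omega) ?_
      refine visB_drop _ _ (vis_of_reach hT hR rfl x z hz ?_)
      show x ++ z0.1.1 <:+ z.1.1
      rw [hx]
    omega
  have hfinW : {l : List (Fin N) | l.length ≤ K + z0.1.1.length}.Finite := List.finite_length_le _ _
  have hfinV : {a : TV J n N | a.1.length ≤ K + z0.1.1.length}.Finite := by
    refine Set.Finite.subset (hfinW.prod (Set.finite_univ (α := Option (Fin J × Fin n)))) ?_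
    intro a ha
    exact ⟨ha, trivial⟩
  refine Set.Finite.subset ((hF.image Prod.fst).union hfinV) ?_
  intro w hw
  rcases hsplit _ hw with h | h
  · exact Or.inl ⟨_, h, rfl⟩
  · exact Or.inr (hlen _ h)

end Pool.Agent.H592S
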