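import Mathlib
import Pool.Agent.H592S.Vis

set_option autoImplicit false
open MeasureTheory ProbabilityTheory
open scoped ENNReal NNReal

namespace Pool.Agent.H592S

noncomputable section

instance (T : ℝ) : IsProbabilityMeasure (edgeLaw T) := by unfold edgeLaw; infer_instance

instance (V : Type) (T : ℝ) : IsProbabilityMeasure (stirLaw V T) := by unfold stirLaw; infer_instance

/-- events depending on disjoint sets of coordinates -/
theorem indep2 {I D : Type} [MeasurableSpace D] (μ : Measure D) [IsProbabilityMeasure μ] (d0 : D)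
    (S1 S2 : Finset I) (hS : Disjoint S1 S2) (E1 E2 : Set (I → D)) (h1 : MeasurableSet E1)
    (h2 : MeasurableSet E2) (d1 : ∀ ω ω' : I → D, (∀ i ∈ S1, ω i = ω' i) → (ω ∈ E1 ↔ ω' ∈ E1))
    (d2 : ∀ ω ω' : I → D, (∀ i ∈ S2, ω i = ω' i) → (ω ∈ E2 ↔ ω' ∈ E2)) :
    (Measure.infinitePi fun _ : I => μ) (E1 ∩ E2)
      = (Measure.infinitePi fun _ : I => μ) E1 * (Measure.infinitePi fun _ : I => μ) E2 := by
  classical
  have hi : iIndepFun (fun (x : I) (ω : I → D) => ω x) (Measure.infinitePi fun _ : I => μ) :=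
    iIndepFun_infinitePi (P := fun _ : I => μ) (X := fun _ a => a) (fun _ => measurable_id)
  have h3 := hi.indepFun_finset S1 S2 hS (fun x => measurable_pi_apply x)
  have ext : ∀ (S : Finset I) (E : Set (I → D)), MeasurableSet E →
      (∀ ω ω' : I → D, (∀ i ∈ S, ω i = ω' i) → (ω ∈ E ↔ ω' ∈ E)) →
      ∃ F : Set ({y // y ∈ S} → D), MeasurableSet F ∧
        E = (fun (ω : I → D) (y : {y // y ∈ S}) => ω y) ⁻¹' F := by
    intro S E hE hd
    set ex : ({y // y ∈ S} → D) → (I → D) := fun f x => if h : x ∈ S then f ⟨x, h⟩ else d0 with hex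
    have hm : Measurable ex := by
      refine measurable_pi_iff.mpr fun y => ?_
      by_cases hy : y ∈ S
      · have : (fun f : {y // y ∈ S} → D => ex f y) = fun f => f ⟨y, hy⟩ := by
          funext f; rw [hex]; simp only [dif_pos hy]
        rw [this]
        exact measurable_pi_apply _
      · have : (fun f : {y // y ∈ S} → D => ex f y) = fun _ => d0 := by
          funext f; rw [hex]; simp only [dif_neg hy]
        rw [this]
        exact measurable_const
    refine ⟨ex ⁻¹' E, hm hE, ?_⟩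
    ext ω
    simp only [Set.mem_preimage]
    refine hd _ _ fun i hi => ?_
    rw [hex]
    simp only [dif_pos hi]
  obtain ⟨F1, hF1, e1⟩ := ext S1 E1 h1 d1
  obtain ⟨F2, hF2, e2⟩ := ext S2 E2 h2 d2
  rw [e1, e2]
  exact h3.measure_inter_preimage_eq_mul _ _ hF1 hF2

theorem indepN {I D A : Type} [MeasurableSpace D] (μ : Measure D) [IsProbabilityMeasure μ] (d0 : D)
    (s : Finset A) (S : A → Finset I) (hS : ∀ a ∈ s, ∀ b ∈ s, a ≠ b → Disjoint (S a) (S b))
    (E : A → Set (I → D)) (h1 : ∀ a ∈ s, MeasurableSet (E a))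
    (d1 : ∀ a ∈ s, ∀ ω ω' : I → D, (∀ i ∈ S a, ω i = ω' i) → (ω ∈ E a ↔ ω' ∈ E a)) :
    (Measure.infinitePi fun _ : I => μ) (⋂ a ∈ s, E a)
      = ∏ a ∈ s, (Measure.infinitePi fun _ : I => μ) (E a) := by
  classical
  induction s using Finset.induction_on with
  | empty => simp
  | insert a s ha ih =>
    rw [Finset.set_biInter_insert, Finset.prod_insert ha,
      ← ih (fun a' h' b' hb' => hS a' (Finset.mem_insert_of_mem h') b' (Finset.mem_insert_of_mem hb'))
        (fun a' h' => h1 a' (Finset.mem_insert_of_mem h'))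
        (fun a' h' => d1 a' (Finset.mem_insert_of_mem h'))]
    refine indep2 μ d0 (S a) (s.biUnion S) ?_ _ _ (h1 a (Finset.mem_insert_self a s))
      (Finset.measurableSet_biInter _ fun a' h' => h1 a' (Finset.mem_insert_of_mem h'))
      (d1 a (Finset.mem_insert_self a s)) ?_
    · rw [Finset.disjoint_biUnion_right]
      intro b hb
      refine hS a (Finset.mem_insert_self a s) b (Finset.mem_insert_of_mem hb) ?_
      rintro rfl
      exact ha hb
    · intro ω ω' hω
      simp only [Set.mem_iInter]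
      refine forall_congr' fun b => forall_congr' fun hb => ?_
      exact d1 b (Finset.mem_insert_of_mem hb) ω ω' fun i hi =>
        hω i (Finset.mem_biUnion.mpr ⟨b, hb, hi⟩)

theorem box_prob {V : Type} (T : ℝ) (S : Finset (Sym2 V)) (A : Sym2 V → Set EdgeData)
    (hA : ∀ e ∈ S, MeasurableSet (A e)) :
    stirLaw V T {ω | ∀ e ∈ S, ω e ∈ A e} = ∏ e ∈ S, edgeLaw T (A e) := by
  have h1 : {ω : Cfg V | ∀ e ∈ S, ω e ∈ A e} = Set.pi (S : Set (Sym2 V)) A := by
    ext ω; simp [Set.mem_pi]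
  rw [h1]
  unfold stirLaw
  exact Measure.infinitePi_pi _ hA

theorem eval_prob {V : Type} (T : ℝ) (e : Sym2 V) (A : Set EdgeData) (hA : MeasurableSet A) :
    stirLaw V T {ω | ω e ∈ A} = edgeLaw T A := by
  have h := box_prob T {e} (fun _ => A) (fun _ _ => hA)
  simpa using h

theorem cnt_meas (A : Set ℕ) : MeasurableSet {a : EdgeData | a.1 ∈ A} :=
  measurable_fst (MeasurableSet.of_discrete (s := A))

theorem edge_fst (T : ℝ) (A : Set ℕ) :
    edgeLaw T {a | a.1 ∈ A} = poissonMeasure T.toNNReal A := by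
  have : {a : EdgeData | a.1 ∈ A} = A ×ˢ Set.univ := by ext; simp
  rw [this]
  unfold edgeLaw
  rw [Measure.prod_prod, measure_univ, mul_one]

theorem quarter_meas (q : Fin 4) : MeasurableSet (Quarter q) := by
  unfold Quarter
  exact (measurableSet_le measurable_const measurable_subtype_coe).inter
    (measurableSet_lt measurable_subtype_coe measurable_const)

theorem quarter_prob (q : Fin 4) : (volume : Measure unitInterval) (Quarter q) = ENNReal.ofReal (1 / 4) := by
  have hq : (q.val : ℝ) ≤ 3 := by exact_mod_cast (by omega : q.val ≤ 3)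
  have hq0 : (0 : ℝ) ≤ q.val := Nat.cast_nonneg _
  have : Quarter q = Set.Ico (⟨(q.val : ℝ) / 4, by positivity, by linarith⟩ : unitInterval)
      ⟨((q.val : ℝ) + 1) / 4, by positivity, by linarith⟩ := by
    ext x
    simp only [Quarter, Set.mem_ofPred_eq, Set.mem_Ico]
    exact Iff.rfl
  rw [this, unitInterval.volume_Ico]
  congr 1
  simp only
  ring

theorem one_prob {T : ℝ} (hT : 0 ≤ T) :
    edgeLaw T {a | a.1 = 1} = ENNReal.ofReal (T * Real.exp (-T)) := by
  have h := edge_fst T {1}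
  simp only [Set.mem_singleton_iff] at h
  rw [h, poissonMeasure_singleton]
  congr 1
  simp [Real.coe_toNNReal T hT]
  ring

theorem zero_prob {T : ℝ} (hT : 0 ≤ T) :
    edgeLaw T {a | a.1 = 0} = ENNReal.ofReal (Real.exp (-T)) := by
  have h := edge_fst T {0}
  simp only [Set.mem_singleton_iff] at h
  rw [h, poissonMeasure_singleton]
  congr 1
  simp [Real.coe_toNNReal T hT]

theorem act_prob {T : ℝ} (hT : 0 ≤ T) : edgeLaw T {a | 1 ≤ a.1} ≤ ENNReal.ofReal T := by
  have h1 : {a : EdgeData | 1 ≤ a.1} = {a : EdgeData | a.1 = 0}ᶜ := by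
    ext a; simp only [Set.mem_ofPred_eq, Set.mem_compl_iff]; omega
  have hm : MeasurableSet {a : EdgeData | a.1 = 0} := cnt_meas {0}
  rw [h1, prob_compl_eq_one_sub hm, zero_prob hT, ← ENNReal.ofReal_one,
    ← ENNReal.ofReal_sub _ (Real.exp_pos _).le]
  refine ENNReal.ofReal_le_ofReal ?_
  have := Real.add_one_le_exp (-T)
  linarith

theorem le_one_prob {T : ℝ} (hT : 0 ≤ T) :
    edgeLaw T {a | a.1 ≤ 1} = ENNReal.ofReal (Real.exp (-T) + T * Real.exp (-T)) := by
  have h1 : {a : EdgeData | a.1 ≤ 1} = {a : EdgeData | a.1 = 0} ∪ {a : EdgeData | a.1 = 1} := by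
    ext a; simp only [Set.mem_ofPred_eq, Set.mem_union]; omega
  have hm1 : MeasurableSet {a : EdgeData | a.1 = 1} := cnt_meas {1}
  rw [h1, measure_union _ hm1, zero_prob hT, one_prob hT,
    ← ENNReal.ofReal_add (Real.exp_pos _).le (mul_nonneg hT (Real.exp_pos _).le)]
  rw [Set.disjoint_left]
  intro a h2 h3
  rw [Set.mem_ofPred_eq] at h2 h3
  omega

theorem mul_prob {T : ℝ} (hT : 0 ≤ T) : edgeLaw T {a | 2 ≤ a.1} ≤ ENNReal.ofReal (T ^ 2) := by
  have h1 : {a : EdgeData | 2 ≤ a.1} = {a : EdgeData | a.1 ≤ 1}ᶜ := by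
    ext a; simp only [Set.mem_ofPred_eq, Set.mem_compl_iff]; omega
  have hm : MeasurableSet {a : EdgeData | a.1 ≤ 1} := cnt_meas {k | k ≤ 1}
  rw [h1, prob_compl_eq_one_sub hm, le_one_prob hT, ← ENNReal.ofReal_one,
    ← ENNReal.ofReal_sub _ (add_nonneg (Real.exp_pos _).le (mul_nonneg hT (Real.exp_pos _).le))]
  refine ENNReal.ofReal_le_ofReal ?_
  have h2 := Real.add_one_le_exp (-T)
  nlinarith [Real.exp_pos (-T)]

theorem le_one_lower {T : ℝ} (hT : 0 ≤ T) :
    ENNReal.ofReal (1 - T ^ 2) ≤ edgeLaw T {a | a.1 ≤ 1} := by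
  rw [le_one_prob hT]
  refine ENNReal.ofReal_le_ofReal ?_
  have h2 := Real.add_one_le_exp (-T)
  nlinarith [Real.exp_pos (-T)]

/-- exactly one bar, with position in `B` -/
theorem one_pos_prob {T : ℝ} (hT : 0 ≤ T) (B : Set unitInterval) (hB : MeasurableSet B) :
    edgeLaw T {a | a.1 = 1 ∧ a.2 0 ∈ B}
      = ENNReal.ofReal (T * Real.exp (-T)) * (volume : Measure unitInterval) B := by
  have h1 : {a : EdgeData | a.1 = 1 ∧ a.2 0 ∈ B} = {k | k = 1} ×ˢ {b | b 0 ∈ B} := by
    ext a; simp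
  rw [h1]
  unfold edgeLaw
  rw [Measure.prod_prod]
  have h2 := one_prob hT
  have h3 := edge_fst T {k | k = 1}
  simp only [Set.mem_ofPred_eq] at h3
  rw [← h3, h2]
  congr 1
  have h4 : {b : ℕ → unitInterval | b 0 ∈ B} = (fun b => b 0) ⁻¹' B := rfl
  rw [h4, ← Measure.map_apply (measurable_pi_apply 0) hB, Measure.infinitePi_map_eval]

theorem pos_meas (k : ℕ) (B : Set unitInterval) (hB : MeasurableSet B) :
    MeasurableSet {a : EdgeData | a.2 k ∈ B} := by
  have h : Measurable fun a : EdgeData => a.2 k := by fun_prop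
  exact h hB

theorem one_pos_meas (B : Set unitInterval) (hB : MeasurableSet B) :
    MeasurableSet {a : EdgeData | a.1 = 1 ∧ a.2 0 ∈ B} :=
  (cnt_meas {1}).inter (pos_meas 0 B hB)

theorem oneQ_prob {T : ℝ} (hT : 0 ≤ T) (q : Fin 4) :
    edgeLaw T {a | a.1 = 1 ∧ a.2 0 ∈ Quarter q} = ENNReal.ofReal (T * Real.exp (-T) / 4) := by
  rw [one_pos_prob hT _ (quarter_meas q), quarter_prob, ← ENNReal.ofReal_mul
    (mul_nonneg hT (Real.exp_pos _).le)]
  congr 1
  ring

/-- position probabilities -/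
theorem pos_prob (T : ℝ) (k : ℕ) (B : Set unitInterval) (hB : MeasurableSet B) :
    edgeLaw T {a | a.2 k ∈ B} = (volume : Measure unitInterval) B := by
  have h1 : {a : EdgeData | a.2 k ∈ B} = Set.univ ×ˢ {b | b k ∈ B} := by ext a; simp
  rw [h1]
  unfold edgeLaw
  rw [Measure.prod_prod, measure_univ, one_mul]
  have h4 : {b : ℕ → unitInterval | b k ∈ B} = (fun b => b k) ⁻¹' B := rfl
  rw [h4, ← Measure.map_apply (measurable_pi_apply k) hB, Measure.infinitePi_map_eval]

theorem pos_ne {V : Type} (T : ℝ) {e e' : Sym2 V} (he : e ≠ e') (i i' : ℕ) :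
    stirLaw V T {ω | (ω e).2 i = (ω e').2 i'} = 0 := by
  have hi : iIndepFun (fun (x : Sym2 V) (ω : Cfg V) => ω x) (stirLaw V T) :=
    iIndepFun_infinitePi (P := fun _ : Sym2 V => edgeLaw T) (X := fun _ a => a)
      (fun _ => measurable_id)
  have h1 := hi.indepFun he
  have hX : Measurable fun a : EdgeData => a.2 i := by fun_prop
  have hY : Measurable fun a : EdgeData => a.2 i' := by fun_prop
  have h2 := h1.comp hX hY
  have mX : Measurable fun ω : Cfg V => (ω e).2 i := hX.comp (measurable_pi_apply e)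
  have mY : Measurable fun ω : Cfg V => (ω e').2 i' := hY.comp (measurable_pi_apply e')
  have h3 := (indepFun_iff_map_prod_eq_prod_map_map (f := fun ω : Cfg V => (ω e).2 i)
    (g := fun ω : Cfg V => (ω e').2 i') mX.aemeasurable mY.aemeasurable).mp h2
  have hdiag : MeasurableSet {p : unitInterval × unitInterval | p.1 = p.2} :=
    measurableSet_eq_fun measurable_fst measurable_snd
  have h4 : stirLaw V T {ω | (ω e).2 i = (ω e').2 i'}
      = ((stirLaw V T).map fun ω => ((ω e).2 i, (ω e').2 i')) {p | p.1 = p.2} := by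
    rw [Measure.map_apply (mX.prodMk mY) hdiag]
    rfl
  have hYm : (stirLaw V T).map (fun ω : Cfg V => (ω e').2 i') = volume := by
    ext B hB
    rw [Measure.map_apply mY hB]
    have := eval_prob T e' {a | a.2 i' ∈ B} (pos_meas i' B hB)
    rw [pos_prob T i' B hB] at this
    exact this
  rw [h4, h3, hYm, Measure.prod_apply hdiag]
  rw [lintegral_eq_zero_iff' (measurable_measure_prodMk_left hdiag).aemeasurable]
  refine Filter.Eventually.of_forall fun x => ?_
  have : Prod.mk x ⁻¹' {p : unitInterval × unitInterval | p.1 = p.2} = {x} := by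
    ext y
    simp only [Set.mem_preimage, Set.mem_ofPred_eq, Set.mem_singleton_iff]
    exact eq_comm
  show (volume : Measure unitInterval) (Prod.mk x ⁻¹' {p | p.1 = p.2}) = 0
  rw [this]
  simp

theorem regular_ae {V : Type} [Countable V] (G : SimpleGraph V) {T : ℝ} (hT : 0 < T) :
    ∀ᵐ ω ∂(stirLaw V T), Regular G T ω := by
  have hcount : Countable (Sym2 V) := by
    unfold Sym2
    infer_instance
  have h1 : ∀ᵐ ω ∂(stirLaw V T), ∀ (e e' : Sym2 V) (i i' : ℕ), e ≠ e' → (ω e).2 i ≠ (ω e').2 i' := by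
    rw [ae_all_iff]; intro e
    rw [ae_all_iff]; intro e'
    rw [ae_all_iff]; intro i
    rw [ae_all_iff]; intro i'
    by_cases he : e = e'
    · exact Filter.Eventually.of_forall fun ω h => absurd he h
    · rw [ae_iff]
      refine measure_mono_null ?_ (pos_ne T he i i')
      intro ω hω
      rw [Set.mem_ofPred_eq] at hω
      push Not at hω
      exact hω.2
  have h2 : ∀ᵐ ω ∂(stirLaw V T), ∀ (e : Sym2 V) (i : ℕ), (ω e).2 i ≠ 0 ∧ (ω e).2 i ≠ 1 := by
    rw [ae_all_iff]; intro e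
    rw [ae_all_iff]; intro i
    rw [ae_iff]
    have h3 : {ω : Cfg V | ¬ ((ω e).2 i ≠ 0 ∧ (ω e).2 i ≠ 1)} = {ω | ω e ∈ {a : EdgeData | a.2 i ∈ ({0, 1} : Set unitInterval)}} := by
      ext ω
      simp only [Set.mem_ofPred_eq, Set.mem_insert_iff, Set.mem_singleton_iff]
      tauto
    have hm : MeasurableSet ({0, 1} : Set unitInterval) := (Set.toFinite _).measurableSet
    rw [h3, eval_prob T e _ (pos_meas i _ hm), pos_prob T i _ hm]
    exact Set.Finite.measure_zero (Set.toFinite _) _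
  filter_upwards [h1, h2] with ω hω1 hω2
  constructor
  · rintro v r u u' ⟨-, i, -, hi⟩ ⟨-, i', -, hi'⟩
    by_contra hne
    have hse : s(v, u) ≠ s(v, u') := by
      intro h
      exact hne (Sym2.congr_right.mp h)
    apply hω1 _ _ i i' hse
    rw [← hi'] at hi
    exact Subtype.ext (mul_left_cancel₀ hT.ne' hi)
  · rintro v r u ⟨-, i, -, hi⟩
    obtain ⟨h3, h4⟩ := hω2 s(v, u) i
    rw [← hi]
    have h5 : (0 : ℝ) < ((ω s(v, u)).2 i : ℝ) :=
      lt_of_le_of_ne (unitInterval.nonneg _) fun h => h3 (Subtype.ext h.symm)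
    have h6 : ((ω s(v, u)).2 i : ℝ) < 1 :=
      lt_of_le_of_ne (unitInterval.le_one _) fun h => h4 (Subtype.ext h)
    exact ⟨mul_pos hT h5, by nlinarith⟩

/-- the neighbours of a vertex -/
theorem nbr_subset {J n N : ℕ} (a : TV J n N) : (treeG J n N).neighborSet a ⊆
    (Set.range fun o : Option (Fin J × Fin n) => ((a.1, o) : TV J n N)) ∪
    ((Set.range fun i : Fin N => ((i :: a.1, none) : TV J n N)) ∪ {(a.1.tail, none)}) := by
  intro b hb
  rcases adj_block hb with h | ⟨h1, h2, i, hi⟩ | ⟨h1, h2, i, hi⟩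
  · exact Or.inl ⟨b.2, Prod.ext h rfl⟩
  · exact Or.inr (Or.inl ⟨i, Prod.ext hi.symm h2.symm⟩)
  · exact Or.inr (Or.inr (by
      rw [Set.mem_singleton_iff, hi]
      exact Prod.ext rfl h2))

theorem nbr_finite {J n N : ℕ} (a : TV J n N) : ((treeG J n N).neighborSet a).Finite :=
  ((Set.finite_range _).union ((Set.finite_range _).union (Set.finite_singleton _))).subset
    (nbr_subset a)

theorem finBars {J n N : ℕ} (T : ℝ) (ω : Cfg (TV J n N)) : FinBars (treeG J n N) T ω := by
  intro v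
  refine Set.Finite.subset ((nbr_finite v).biUnion fun u _ =>
    (Set.finite_Iio (ω s(v, u)).1).image fun i => T * ((ω s(v, u)).2 i : ℝ)) ?_
  rintro r ⟨u, hadj, i, hi, hr⟩
  rw [Set.mem_iUnion₂]
  exact ⟨u, hadj, i, hi, hr⟩

/-- all edges of a list carry bars -/
theorem list_prob {J n N : ℕ} {T : ℝ} (hT : 0 ≤ T) (u : List (Fin N)) (j : Fin J)
    (L : List (Sym2 (Option (Fin n)))) (hL : L.Nodup) :
    stirLaw (TV J n N) T {ω | ActE ω u j L} ≤ ENNReal.ofReal T ^ L.length := by
  classical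
  have h1 : {ω : Cfg (TV J n N) | ActE ω u j L}
      = {ω | ∀ e ∈ (L.map (Sym2.map (cv u j))).toFinset, ω e ∈ {a : EdgeData | 1 ≤ a.1}} := by
    ext ω
    simp [ActE]
  rw [h1, box_prob T _ (fun _ => {a : EdgeData | 1 ≤ a.1}) (fun _ _ => cnt_meas {k | 1 ≤ k}),
    Finset.prod_const]
  have hn : (L.map (Sym2.map (cv u j))).Nodup := hL.map (Sym2.map.injective (cv_inj u j))
  rw [List.toFinset_card_of_nodup hn, List.length_map]
  gcongr
  exact act_prob hT

end

end Pool.Agent.H592S
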