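import Mathlib
import Pool.Agent.H592S.Prob

set_option autoImplicit false
open MeasureTheory ProbabilityTheory
open scoped ENNReal NNReal

namespace Pool.Agent.H592S

noncomputable section

variable {J n N : ℕ}

/-- sums over lists -/
theorem list_sum {α : Type} (W : α → ℝ≥0∞) (C : ℝ≥0∞) (hC : 1 + (∑' c, W c) * C ≤ C) (n : ℕ) :
    ∑' L : List α, (if L.length < n then (L.map W).prod else 0) ≤ C := by
  classical
  induction n with
  | zero => simp
  | succ n ih =>
    refine le_trans ?_ hC
    rw [ENNReal.tsum_eq_add_tsum_ite ([] : List α)]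
    refine add_le_add (by simp) ?_
    have hinj : Function.Injective fun x : α × List α => x.1 :: x.2 := by
      rintro ⟨a, l⟩ ⟨a', l'⟩ h
      simp only [List.cons.injEq] at h
      exact Prod.ext h.1 h.2
    have h1 := hinj.tsum_eq (f := fun L : List α => if L = [] then (0 : ℝ≥0∞) else
      (if L.length < n + 1 then (L.map W).prod else 0)) (by
        intro L hL
        cases L with
        | nil => simp at hL
        | cons a l => exact ⟨(a, l), rfl⟩)
    refine (le_of_eq (Eq.trans (tsum_congr fun L => ?_) h1.symm)).trans ?_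
    · cases L <;> simp
    calc ∑' c : α × List α, (if c.1 :: c.2 = [] then (0 : ℝ≥0∞) else
          (if (c.1 :: c.2).length < n + 1 then ((c.1 :: c.2).map W).prod else 0))
        = ∑' c : α × List α, W c.1 * (if c.2.length < n then (c.2.map W).prod else 0) := by
          refine tsum_congr fun c => ?_
          rw [if_neg (by simp)]
          simp only [List.length_cons, Nat.add_lt_add_iff_right, List.map_cons, List.prod_cons,
            mul_ite, mul_zero]
      _ = ∑' (a : α), ∑' (l : List α), W a * (if l.length < n then (l.map W).prod else 0) :=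
          ENNReal.tsum_prod (f := fun a l => W a * (if List.length l < n then (List.map W l).prod else 0))
      _ = (∑' a, W a) * ∑' (l : List α), (if l.length < n then (l.map W).prod else 0) := by
          rw [← ENNReal.tsum_mul_right]
          refine tsum_congr fun a => ?_
          rw [ENNReal.tsum_mul_left]
      _ ≤ (∑' a, W a) * C := by gcongr

/-- the number of lists, weighted -/
theorem list_geom (t C : ℝ≥0∞) (hC : 1 + (n * t) * C ≤ C) (m : ℕ) :
    ∑' L : List (Fin n), (if L.length < m then t ^ (L.length + 1) else 0) ≤ t * C := by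
  have h := list_sum (α := Fin n) (fun _ => t) C (by
    rw [tsum_fintype, Finset.sum_const, Finset.card_univ, Fintype.card_fin, nsmul_eq_mul]
    exact hC) m
  calc ∑' L : List (Fin n), (if L.length < m then t ^ (L.length + 1) else 0)
      = ∑' L : List (Fin n), t * (if L.length < m then (L.map fun _ => t).prod else 0) := by
        refine tsum_congr fun L => ?_
        split_ifs with hL
        · rw [List.map_const', List.prod_replicate, pow_succ, mul_comm]
        · rw [mul_zero]
    _ = t * ∑' L : List (Fin n), (if L.length < m then (L.map fun _ => t).prod else 0) :=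
        ENNReal.tsum_mul_left
    _ ≤ t * C := by gcongr

theorem actE_meas (u : List (Fin N)) (j : Fin J) (L : List (Sym2 (Option (Fin n)))) :
    MeasurableSet {ω : Cfg (TV J n N) | ActE ω u j L} := by
  classical
  have : {ω : Cfg (TV J n N) | ActE ω u j L}
      = ⋂ e ∈ L.toFinset, {ω | ω (Sym2.map (cv u j) e) ∈ {a : EdgeData | 1 ≤ a.1}} := by
    ext ω
    simp [ActE]
  rw [this]
  exact Finset.measurableSet_biInter _ fun e _ => (measurable_pi_apply _) (cnt_meas {k | 1 ≤ k})

theorem cnt_ev_meas (e : Sym2 (TV J n N)) (A : Set ℕ) :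
    MeasurableSet {ω : Cfg (TV J n N) | (ω e).1 ∈ A} := by
  have h : Measurable fun ω : Cfg (TV J n N) => ω e := measurable_pi_apply e
  exact h (cnt_meas A)

theorem triv_meas (u : List (Fin N)) : MeasurableSet {ω : Cfg (TV J n N) | Triv ω u} := by
  have : {ω : Cfg (TV J n N) | Triv ω u}
      = (⋂ j : Fin J, ⋂ y : Fin n, {ω | (ω s(cv u j none, cv u j (some y))).1 ∈ {k | k ≤ 1}}) ∩
        (⋂ j : Fin J, ⋂ b : List (Fin n), ⋂ (_ : b.Nodup), ⋂ (_ : 2 ≤ b.length),
          {ω | ActE ω u j (earE none none b)}ᶜ) := by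
    ext ω
    simp [Triv, cnt]
  rw [this]
  refine MeasurableSet.inter ?_ ?_
  · exact MeasurableSet.iInter fun j => MeasurableSet.iInter fun y => cnt_ev_meas _ _
  · exact MeasurableSet.iInter fun j => MeasurableSet.iInter fun b => MeasurableSet.iInter fun _ =>
      MeasurableSet.iInter fun _ => (actE_meas _ _ _).compl

theorem triv_prob {T : ℝ} (hT : 0 ≤ T) (C : ℝ≥0∞)
    (hC : 1 + (n * ENNReal.ofReal T) * C ≤ C) (u : List (Fin N)) :
    stirLaw (TV J n N) T {ω | ¬ Triv ω u}
      ≤ J * n * ENNReal.ofReal (T ^ 2) + J * (ENNReal.ofReal T * C) := by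
  classical
  have hsub : {ω : Cfg (TV J n N) | ¬ Triv ω u} ⊆
      (⋃ j : Fin J, ⋃ y : Fin n, {ω | ω s(cv u j none, cv u j (some y)) ∈ {a : EdgeData | 2 ≤ a.1}}) ∪
      (⋃ j : Fin J, ⋃ b : List (Fin n), {ω | b.Nodup ∧ 2 ≤ b.length ∧ ActE ω u j (earE none none b)}) := by
    intro ω hω
    rw [Set.mem_ofPred_eq] at hω
    unfold Triv at hω
    rw [not_and_or] at hω
    rcases hω with h | h
    · left
      push Not at h
      obtain ⟨j, y, h⟩ := h
      rw [Set.mem_iUnion]
      refine ⟨j, Set.mem_iUnion.mpr ⟨y, ?_⟩⟩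
      exact h
    · right
      push Not at h
      obtain ⟨j, b, h1, h2, h3⟩ := h
      exact Set.mem_iUnion.mpr ⟨j, Set.mem_iUnion.mpr ⟨b, h1, h2, h3⟩⟩
  refine (measure_mono hsub).trans ((measure_union_le _ _).trans (add_le_add ?_ ?_))
  · calc stirLaw (TV J n N) T (⋃ j : Fin J, ⋃ y : Fin n,
          {ω | ω s(cv u j none, cv u j (some y)) ∈ {a : EdgeData | 2 ≤ a.1}})
        ≤ ∑ j : Fin J, ∑ y : Fin n, ENNReal.ofReal (T ^ 2) := by
          refine (measure_iUnion_fintype_le _ _).trans (Finset.sum_le_sum fun j _ => ?_)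
          refine (measure_iUnion_fintype_le _ _).trans (Finset.sum_le_sum fun y _ => ?_)
          have h5 := eval_prob T s(cv (N := N) u j none, cv u j (some y)) {a : EdgeData | 2 ≤ a.1}
            (cnt_meas {k | 2 ≤ k})
          rw [h5]
          exact mul_prob hT
      _ = _ := by simp [mul_assoc]
  · calc stirLaw (TV J n N) T (⋃ j : Fin J, ⋃ b : List (Fin n),
          {ω | b.Nodup ∧ 2 ≤ b.length ∧ ActE ω u j (earE none none b)})
        ≤ ∑ j : Fin J, ∑' b : List (Fin n),
            (if b.length < n + 1 then ENNReal.ofReal T ^ (b.length + 1) else 0) := by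
          refine (measure_iUnion_fintype_le _ _).trans (Finset.sum_le_sum fun j _ => ?_)
          refine (measure_iUnion_le _).trans (ENNReal.tsum_le_tsum fun b => ?_)
          by_cases hb : b.Nodup ∧ 2 ≤ b.length
          · have hlen : b.length < n + 1 := by
              have := hb.1.length_le_card
              rw [Fintype.card_fin] at this
              omega
            rw [if_pos hlen]
            have hnd : (earE none none b).Nodup := by
              refine earE_nodup ?_ hb.1 (by simp) (by simp) ?_
              · rintro rfl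
                simp at hb
              · rintro ⟨-, h⟩
                omega
            have h1 := list_prob (N := N) hT u j _ hnd
            rw [earE_length] at h1
            refine le_trans (measure_mono fun ω hω => hω.2.2) h1
          · have : {ω : Cfg (TV J n N) | b.Nodup ∧ 2 ≤ b.length ∧ ActE ω u j (earE none none b)} = ∅ := by
              rw [Set.eq_empty_iff_forall_notMem]
              rintro ω ⟨h1, h2, -⟩
              exact hb ⟨h1, h2⟩
            rw [this, measure_empty]
            exact zero_le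
      _ ≤ ∑ j : Fin J, ENNReal.ofReal T * C := Finset.sum_le_sum fun j _ => list_geom _ _ hC _
      _ = _ := by simp

/-- the edges inside a block -/
def FB (J n : ℕ) {N : ℕ} (u : List (Fin N)) : Finset (Sym2 (TV J n N)) := by
  classical
  exact (Finset.univ : Finset (Option (Fin J × Fin n) × Option (Fin J × Fin n))).image
    fun o => s((u, o.1), (u, o.2))

/-- the edges to the children -/
def CB (J n : ℕ) {N : ℕ} (u : List (Fin N)) : Finset (Sym2 (TV J n N)) := by
  classical
  exact (Finset.univ : Finset (Fin N)).image fun i => ech u i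

theorem mem_FB {u : List (Fin N)} {e : Sym2 (TV J n N)} :
    e ∈ FB J n u ↔ ∃ o o', e = s((u, o), (u, o')) := by
  unfold FB
  simp only [Finset.mem_image, Finset.mem_univ, true_and, Prod.exists]
  constructor
  · rintro ⟨o, o', rfl⟩; exact ⟨o, o', rfl⟩
  · rintro ⟨o, o', rfl⟩; exact ⟨o, o', rfl⟩

theorem mem_CB {u : List (Fin N)} {e : Sym2 (TV J n N)} : e ∈ CB J n u ↔ ∃ i, e = ech u i := by
  unfold CB
  simp only [Finset.mem_image, Finset.mem_univ, true_and]
  constructor
  · rintro ⟨i, rfl⟩; exact ⟨i, rfl⟩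
  · rintro ⟨i, rfl⟩; exact ⟨i, rfl⟩

theorem cv_eq (u : List (Fin N)) (j : Fin J) (x : Option (Fin n)) : ∃ o, cv u j x = (u, o) := by
  cases x
  · exact ⟨none, rfl⟩
  · exact ⟨_, rfl⟩

theorem cv_FB (u : List (Fin N)) (j : Fin J) (x y : Option (Fin n)) :
    s(cv u j x, cv u j y) ∈ FB J n u := by
  obtain ⟨o, ho⟩ := cv_eq u j x
  obtain ⟨o', ho'⟩ := cv_eq u j y
  rw [mem_FB]
  exact ⟨o, o', by rw [ho, ho']⟩

theorem map_cv_FB (u : List (Fin N)) (j : Fin J) (e : Sym2 (Option (Fin n))) :
    e.map (cv u j) ∈ FB J n u := by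
  induction e using Sym2.ind with
  | _ x y => exact cv_FB u j x y

theorem triv_dep {ω ω' : Cfg (TV J n N)} {u : List (Fin N)} (h : ∀ e ∈ FB J n u, ω e = ω' e) :
    Triv ω u ↔ Triv ω' u := by
  have h1 : ∀ j x y, cnt ω u j x y = cnt ω' u j x y := by
    intro j x y
    unfold cnt
    rw [h _ (cv_FB u j x y)]
  have h2 : ∀ j L, ActE ω u j L ↔ ActE ω' u j L := by
    intro j L
    unfold ActE
    refine forall_congr' fun e => imp_congr_right fun _ => ?_
    rw [h _ (map_cv_FB u j e)]
  unfold Triv
  simp only [h1, h2]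

/-- coordinates used by survival -/
def suppS (J n : ℕ) {N : ℕ} : ℕ → List (Fin N) → Finset (Sym2 (TV J n N))
  | 0, _ => ∅
  | k + 1, u => by
    classical
    exact (FB J n u ∪ CB J n u) ∪ Finset.univ.biUnion fun i => suppS J n k (i :: u)

theorem suppS_sub (k : ℕ) : ∀ (u : List (Fin N)), ∀ e ∈ suppS J n k u, ∀ a ∈ e, a ∈ Sub J n u := by
  classical
  induction k with
  | zero => intro u e he; simp [suppS] at he
  | succ k ih =>
    intro u e he a ha
    simp only [suppS, Finset.mem_union, Finset.mem_biUnion, Finset.mem_univ, true_and] at he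
    rcases he with (he | he) | ⟨i, he⟩
    · obtain ⟨o, o', rfl⟩ := mem_FB.mp he
      rw [Sym2.mem_iff] at ha
      rcases ha with rfl | rfl
      · exact List.suffix_refl _
      · exact List.suffix_refl _
    · obtain ⟨i, rfl⟩ := mem_CB.mp he
      unfold ech at ha
      rw [Sym2.mem_iff] at ha
      rcases ha with rfl | rfl
      · exact List.suffix_refl _
      · exact List.suffix_cons _ _
    · exact (List.suffix_cons _ _).trans (ih (i :: u) e he a ha)

theorem surv_dep (k : ℕ) : ∀ {ω ω' : Cfg (TV J n N)} {u : List (Fin N)},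
    (∀ e ∈ suppS J n k u, ω e = ω' e) → (Surv ω k u ↔ Surv ω' k u) := by
  classical
  induction k with
  | zero => intro _ _ _ _; exact Iff.rfl
  | succ k ih =>
    intro ω ω' u h
    have h1 : ∀ e ∈ FB J n u, ω e = ω' e := fun e he => h e (by
      simp only [suppS, Finset.mem_union]; exact Or.inl (Or.inl he))
    have h2 : ∀ i, ω (ech u i) = ω' (ech u i) := fun i => h _ (by
      simp only [suppS, Finset.mem_union]; exact Or.inl (Or.inr (mem_CB.mpr ⟨i, rfl⟩)))
    have h3 : ∀ i, Surv ω k (i :: u) ↔ Surv ω' k (i :: u) := fun i => ih fun e he => h e (by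
      simp only [suppS, Finset.mem_union, Finset.mem_biUnion, Finset.mem_univ, true_and]
      exact Or.inr ⟨i, he⟩)
    simp only [Surv, triv_dep h1, h2, h3]

theorem surv_meas (k : ℕ) : ∀ (u : List (Fin N)), MeasurableSet {ω : Cfg (TV J n N) | Surv ω k u} := by
  induction k with
  | zero => intro u; simp [Surv]
  | succ k ih =>
    intro u
    have : {ω : Cfg (TV J n N) | Surv ω (k + 1) u}
        = ({ω | Triv ω u} ∩ ⋂ i, {ω | (ω (ech u i)).1 ∈ {k | k ≤ 1}}) ∩
          ⋃ i, ({ω | (ω (ech u i)).1 ∈ ({1} : Set ℕ)} ∩ {ω | Surv ω k (i :: u)}) := by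
      ext ω
      simp [Surv]
    rw [this]
    exact ((triv_meas u).inter (MeasurableSet.iInter fun i => cnt_ev_meas _ _)).inter
      (MeasurableSet.iUnion fun i => (cnt_ev_meas _ _).inter (ih _))

theorem surv_anti (k : ℕ) : ∀ {ω : Cfg (TV J n N)} {u : List (Fin N)}, Surv ω (k + 1) u → Surv ω k u := by
  induction k with
  | zero => intro _ _ _; trivial
  | succ k ih =>
    intro ω u h
    obtain ⟨h1, i, h2, h3⟩ := h
    exact ⟨h1, i, h2, ih h3⟩

/-- edges attached to a child subtree -/
def Reg (J n : ℕ) {N : ℕ} (u : List (Fin N)) (i : Fin N) : Set (Sym2 (TV J n N)) :=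
  {e | e = ech u i ∨ ∀ a ∈ e, a ∈ Sub J n (i :: u)}

theorem sub_inter {v v' : List (Fin N)} {a : TV J n N} (h : a ∈ Sub J n v) (h' : a ∈ Sub J n v')
    (hl : v.length ≤ v'.length) : v <:+ v' :=
  List.suffix_of_suffix_length_le (show v <:+ a.1 from h) (show v' <:+ a.1 from h') hl

theorem ech_inj {u u' : List (Fin N)} {i i' : Fin N} (h : ech (J := J) (n := n) u i = ech u' i') :
    u = u' ∧ i = i' := by
  unfold ech at h
  rw [Sym2.eq_iff] at h
  rcases h with ⟨h1, h2⟩ | ⟨h1, h2⟩
  · simp only [Prod.mk.injEq, and_true] at h1 h2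
    rw [h1] at h2
    simp only [List.cons.injEq, and_true] at h2
    exact ⟨h1, h2⟩
  · simp only [Prod.mk.injEq, and_true] at h1 h2
    rw [h1] at h2
    have := congrArg List.length h2
    simp at this
    omega

theorem surv_lower {T : ℝ} (hT : 0 ≤ T) (π r p1 σ : ℝ) (hσ0 : 0 ≤ σ) (hσ1 : σ ≤ 1)
    (hπ0 : 0 ≤ π) (hπ : ∀ u : List (Fin N), ENNReal.ofReal π ≤ stirLaw (TV J n N) T {ω | Triv ω u})
    (hr : r = Real.exp (-T) + T * Real.exp (-T)) (hp1 : p1 = T * Real.exp (-T))
    (hnum : σ ≤ π * (r ^ N - (r - p1 * σ) ^ N)) (k : ℕ) :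
    ∀ u : List (Fin N), ENNReal.ofReal σ ≤ stirLaw (TV J n N) T {ω | Surv ω k u} := by
  classical
  have hp0 : 0 ≤ p1 := by rw [hp1]; exact mul_nonneg hT (Real.exp_pos _).le
  have hrp : p1 ≤ r := by rw [hr, hp1]; linarith [Real.exp_pos (-T)]
  induction k with
  | zero =>
    intro u
    have : {ω : Cfg (TV J n N) | Surv ω 0 u} = Set.univ := by ext; simp [Surv]
    rw [this, measure_univ, ← ENNReal.ofReal_one]
    exact ENNReal.ofReal_le_ofReal hσ1
  | succ k ih =>
    intro u
    set μ := stirLaw (TV J n N) T with hμ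
    set A1 : Set (Cfg (TV J n N)) := {ω | ∀ i, (ω (ech u i)).1 ≤ 1} with hA1
    set A2 : Set (Cfg (TV J n N)) := {ω | ∃ i, (ω (ech u i)).1 = 1 ∧ Surv ω k (i :: u)} with hA2
    set E : Fin N → Set (Cfg (TV J n N)) := fun i =>
      {ω | (ω (ech u i)).1 ≤ 1 ∧ ¬ ((ω (ech u i)).1 = 1 ∧ Surv ω k (i :: u))} with hE
    have hsplit : {ω : Cfg (TV J n N) | Surv ω (k + 1) u} = {ω | Triv ω u} ∩ (A1 ∩ A2) := by
      ext ω
      simp only [Surv, hA1, hA2, Set.mem_ofPred_eq, Set.mem_inter_iff]
      tauto
    have mA1 : MeasurableSet A1 := by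
      have : A1 = ⋂ i, {ω | (ω (ech u i)).1 ∈ {k | k ≤ 1}} := by ext; simp [hA1]
      rw [this]
      exact MeasurableSet.iInter fun i => cnt_ev_meas _ _
    have mA2 : MeasurableSet A2 := by
      have : A2 = ⋃ i, ({ω | (ω (ech u i)).1 ∈ ({1} : Set ℕ)} ∩ {ω | Surv ω k (i :: u)}) := by
        ext; simp [hA2]
      rw [this]
      exact MeasurableSet.iUnion fun i => (cnt_ev_meas _ _).inter (surv_meas _ _)
    have mE : ∀ i, MeasurableSet (E i) := by
      intro i
      have : E i = {ω | (ω (ech u i)).1 ∈ {k | k ≤ 1}} ∩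
          ({ω | (ω (ech u i)).1 ∈ ({1} : Set ℕ)} ∩ {ω | Surv ω k (i :: u)})ᶜ := by
        ext; simp [hE]
      rw [this]
      exact (cnt_ev_meas _ _).inter ((cnt_ev_meas _ _).inter (surv_meas _ _)).compl
    set SS : Fin N → Finset (Sym2 (TV J n N)) := fun i => insert (ech u i) (suppS J n k (i :: u)) with hSS
    have hSSreg : ∀ i, ∀ e ∈ SS i, e ∈ Reg J n u i := by
      intro i e he
      rw [hSS, Finset.mem_insert] at he
      rcases he with rfl | he
      · exact Or.inl rfl
      · exact Or.inr (suppS_sub k _ e he)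
    have hregd : ∀ i i', i ≠ i' → ∀ e, e ∈ Reg J n u i → e ∉ Reg J n u i' := by
      intro i i' hne e he he'
      have h3 : ∀ a : TV J n N, a ∈ Sub J n (i :: u) → a ∉ Sub J n (i' :: u) := by
        intro a ha ha'
        have := (sub_inter ha ha' (by simp)).eq_of_length (by simp)
        simp only [List.cons.injEq, and_true] at this
        exact hne this
      have h4 : ∀ i, ((u, none) : TV J n N) ∉ Sub J n (i :: u) := by
        intro i hcon
        have := List.IsSuffix.length_le (show i :: u <:+ u from hcon)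
        simp at this
      rcases he with rfl | he
      · rcases he' with he' | he'
        · exact hne (ech_inj he').2
        · exact h4 i' (he' _ (by unfold ech; exact Sym2.mem_mk_left _ _))
      · rcases he' with rfl | he'
        · exact h4 i (he _ (by unfold ech; exact Sym2.mem_mk_left _ _))
        · induction e using Sym2.ind with
          | _ x y => exact h3 x (he x (Sym2.mem_mk_left _ _)) (he' x (Sym2.mem_mk_left _ _))
    have hSSd : ∀ i ∈ (Finset.univ : Finset (Fin N)), ∀ i' ∈ (Finset.univ : Finset (Fin N)), i ≠ i' →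
        Disjoint (SS i) (SS i') := by
      intro i _ i' _ hne
      rw [Finset.disjoint_left]
      intro e he he'
      exact hregd i i' hne e (hSSreg i e he) (hSSreg i' e he')
    have hdE : ∀ i ∈ (Finset.univ : Finset (Fin N)), ∀ ω ω' : Cfg (TV J n N),
        (∀ e ∈ SS i, ω e = ω' e) → (ω ∈ E i ↔ ω' ∈ E i) := by
      intro i _ ω ω' h
      have h1 : ω (ech u i) = ω' (ech u i) := h _ (Finset.mem_insert_self _ _)
      have h2 : Surv ω k (i :: u) ↔ Surv ω' k (i :: u) :=
        surv_dep k fun e he => h e (Finset.mem_insert_of_mem he)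
      simp only [hE, Set.mem_ofPred_eq, h1, h2]
    -- product over the children
    have hprod : μ (⋂ i ∈ (Finset.univ : Finset (Fin N)), E i)
        ≤ ENNReal.ofReal ((r - p1 * σ) ^ N) := by
      rw [hμ]
      unfold stirLaw
      rw [indepN (edgeLaw T) (0, fun _ => 0) Finset.univ SS hSSd E (fun i _ => mE i) hdE]
      calc ∏ i : Fin N, (Measure.infinitePi fun _ : Sym2 (TV J n N) => edgeLaw T) (E i)
          ≤ ∏ i : Fin N, ENNReal.ofReal (r - p1 * σ) := by
            refine Finset.prod_le_prod' fun i _ => ?_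
            have e1 : E i = {ω | (ω (ech u i)).1 ∈ {k | k ≤ 1}} \
                ({ω | (ω (ech u i)).1 ∈ ({1} : Set ℕ)} ∩ {ω | Surv ω k (i :: u)}) := by
              ext; simp [hE]
            have e2 : ({ω : Cfg (TV J n N) | (ω (ech u i)).1 ∈ ({1} : Set ℕ)} ∩ {ω | Surv ω k (i :: u)})
                ⊆ {ω | (ω (ech u i)).1 ∈ {k | k ≤ 1}} := by
              rintro ω ⟨h1, -⟩
              simp only [Set.mem_ofPred_eq, Set.mem_singleton_iff] at h1 ⊢
              omega
            have e3 : (Measure.infinitePi fun _ : Sym2 (TV J n N) => edgeLaw T)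
                ({ω : Cfg (TV J n N) | (ω (ech u i)).1 ∈ ({1} : Set ℕ)} ∩ {ω | Surv ω k (i :: u)})
                = ENNReal.ofReal p1 * stirLaw (TV J n N) T {ω | Surv ω k (i :: u)} := by
              rw [indep2 (edgeLaw T) (0, fun _ => 0) {ech u i} (suppS J n k (i :: u)) ?_ _ _
                (cnt_ev_meas _ _) (surv_meas _ _) ?_ ?_]
              · congr 1
                have h5 := eval_prob T (ech (J := J) (n := n) u i) {a | a.1 ∈ ({1} : Set ℕ)} (cnt_meas {1})
                simp only [Set.mem_singleton_iff] at h5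
                rw [one_prob hT, ← hp1] at h5
                exact h5
              · rw [Finset.disjoint_singleton_left]
                intro hmem
                have h5 := suppS_sub k _ _ hmem (u, none) (by unfold ech; exact Sym2.mem_mk_left _ _)
                have := List.IsSuffix.length_le (show i :: u <:+ u from h5)
                simp at this
              · intro ω ω' h
                simp only [Set.mem_ofPred_eq, h _ (Finset.mem_singleton_self _)]
              · intro ω ω' h
                exact surv_dep k h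
            rw [e1, measure_sdiff e2 ((cnt_ev_meas _ _).inter (surv_meas _ _)).nullMeasurableSet
              (measure_ne_top _ _), e3]
            have h6 := eval_prob T (ech (J := J) (n := n) u i) {a | a.1 ≤ 1} (cnt_meas {k | k ≤ 1})
            rw [le_one_prob hT, ← hr] at h6
            have h7 : (Measure.infinitePi fun _ : Sym2 (TV J n N) => edgeLaw T)
                {ω : Cfg (TV J n N) | (ω (ech u i)).1 ∈ {k | k ≤ 1}} = ENNReal.ofReal r := h6
            rw [h7, ENNReal.ofReal_sub _ (mul_nonneg hp0 hσ0), ENNReal.ofReal_mul hp0]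
            gcongr
            exact ih (i :: u)
        _ = ENNReal.ofReal ((r - p1 * σ) ^ N) := by
            rw [Finset.prod_const, Finset.card_univ, Fintype.card_fin, ENNReal.ofReal_pow]
            nlinarith
    have hA1p : μ A1 = ENNReal.ofReal (r ^ N) := by
      have h1 : A1 = ⋂ i ∈ (Finset.univ : Finset (Fin N)), {ω : Cfg (TV J n N) | (ω (ech u i)).1 ∈ {k | k ≤ 1}} := by
        ext; simp [hA1]
      rw [h1, hμ]
      unfold stirLaw
      rw [indepN (edgeLaw T) (0, fun _ => 0) Finset.univ (fun i => {ech u i}) ?_ _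
        (fun i _ => cnt_ev_meas _ _) ?_]
      · have h7 : ∀ i, (Measure.infinitePi fun _ : Sym2 (TV J n N) => edgeLaw T)
            {ω : Cfg (TV J n N) | (ω (ech u i)).1 ∈ {k | k ≤ 1}} = ENNReal.ofReal r := by
          intro i
          have h6 := eval_prob T (ech (J := J) (n := n) u i) {a | a.1 ≤ 1} (cnt_meas {k | k ≤ 1})
          rw [le_one_prob hT, ← hr] at h6
          exact h6
        simp only [h7]
        rw [Finset.prod_const, Finset.card_univ, Fintype.card_fin, ENNReal.ofReal_pow (by linarith)]
      · intro i _ i' _ hne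
        rw [Finset.disjoint_singleton]
        intro h
        exact hne (ech_inj h).2
      · intro i _ ω ω' h
        simp only [Set.mem_ofPred_eq, h _ (Finset.mem_singleton_self _)]
    have hA12 : ENNReal.ofReal (r ^ N - (r - p1 * σ) ^ N) ≤ μ (A1 ∩ A2) := by
      have h1 : A1 ∩ A2 = A1 \ ⋂ i ∈ (Finset.univ : Finset (Fin N)), E i := by
        ext ω
        simp only [hA1, hA2, hE, Set.mem_inter_iff, Set.mem_ofPred_eq, Set.mem_sdiff, Set.mem_iInter,
          Finset.mem_univ, true_implies]
        constructor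
        · rintro ⟨h1, i, h2⟩
          exact ⟨h1, fun h3 => (h3 i).2 h2⟩
        · rintro ⟨h1, h2⟩
          refine ⟨h1, ?_⟩
          by_contra hcon
          push Not at hcon
          exact h2 fun i => ⟨h1 i, fun h3 => hcon i h3.1 h3.2⟩
      have h2 : (⋂ i ∈ (Finset.univ : Finset (Fin N)), E i) ⊆ A1 := by
        intro ω hω
        simp only [Set.mem_iInter, Finset.mem_univ, true_implies] at hω
        intro i
        exact (hω i).1
      rw [h1, measure_sdiff h2 (Finset.measurableSet_biInter _ fun i _ => mE i).nullMeasurableSet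
        (measure_ne_top _ _), hA1p, ENNReal.ofReal_sub _ (by
          refine pow_nonneg ?_ _
          nlinarith)]
      gcongr
    have hind : μ ({ω | Triv ω u} ∩ (A1 ∩ A2)) = μ {ω | Triv ω u} * μ (A1 ∩ A2) := by
      rw [hμ]
      unfold stirLaw
      refine indep2 (edgeLaw T) (0, fun _ => 0) (FB J n u) (CB J n u ∪ Finset.univ.biUnion fun i =>
        suppS J n k (i :: u)) ?_ _ _ (triv_meas u) (mA1.inter mA2) ?_ ?_
      · rw [Finset.disjoint_left]
        intro e he he'
        obtain ⟨o, o', rfl⟩ := mem_FB.mp he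
        rw [Finset.mem_union, Finset.mem_biUnion] at he'
        rcases he' with he' | ⟨i, -, he'⟩
        · obtain ⟨i, hi⟩ := mem_CB.mp he'
          unfold ech at hi
          have h1 : ((i :: u, none) : TV J n N) ∈ s(((u, o) : TV J n N), (u, o')) := by
            rw [hi]; exact Sym2.mem_mk_right _ _
          rw [Sym2.mem_iff] at h1
          rcases h1 with h1 | h1 <;>
          · have := congrArg (fun a : TV J n N => a.1.length) h1
            simp at this
        · have h5 := suppS_sub k _ _ he' (u, o) (Sym2.mem_mk_left _ _)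
          have := List.IsSuffix.length_le (show i :: u <:+ u from h5)
          simp at this
      · intro ω ω' h
        exact triv_dep h
      · intro ω ω' h
        have h1 : ∀ i, ω (ech u i) = ω' (ech u i) := fun i =>
          h _ (Finset.mem_union_left _ (mem_CB.mpr ⟨i, rfl⟩))
        have h2 : ∀ i, Surv ω k (i :: u) ↔ Surv ω' k (i :: u) := fun i =>
          surv_dep k fun e he => h e (Finset.mem_union_right _ (Finset.mem_biUnion.mpr
            ⟨i, Finset.mem_univ _, he⟩))
        simp only [hA1, hA2, Set.mem_inter_iff, Set.mem_ofPred_eq, h1, h2]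
    rw [hsplit, hind]
    calc ENNReal.ofReal σ ≤ ENNReal.ofReal (π * (r ^ N - (r - p1 * σ) ^ N)) :=
          ENNReal.ofReal_le_ofReal hnum
      _ = ENNReal.ofReal π * ENNReal.ofReal (r ^ N - (r - p1 * σ) ^ N) := ENNReal.ofReal_mul hπ0
      _ ≤ _ := mul_le_mul' (hπ u) hA12

end

end Pool.Agent.H592S
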