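import Mathlib
import Pool.Agent.H592S.LowProb

set_option autoImplicit false
open MeasureTheory ProbabilityTheory
open scoped ENNReal NNReal

namespace Pool.Agent.H592S

noncomputable section

variable {J n N : ℕ}

/-- sums over words of length `K` -/
def wsum (N : ℕ) : ℕ → (List (Fin N) → ℝ≥0∞) → ℝ≥0∞
  | 0, f => f []
  | K + 1, f => wsum N K fun x => ∑ i, f (i :: x)

theorem wsum_mono (K : ℕ) : ∀ {f g : List (Fin N) → ℝ≥0∞}, (∀ x, x.length = K → f x ≤ g x) →
    wsum N K f ≤ wsum N K g := by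
  induction K with
  | zero => intro f g h; exact h [] rfl
  | succ K ih =>
    intro f g h
    exact ih fun x hx => Finset.sum_le_sum fun i _ => h (i :: x) (by simp [hx])

theorem wsum_mul (K : ℕ) (c : ℝ≥0∞) : ∀ (f : List (Fin N) → ℝ≥0∞),
    wsum N K (fun x => c * f x) = c * wsum N K f := by
  induction K with
  | zero => intro f; rfl
  | succ K ih =>
    intro f
    show wsum N K (fun x => ∑ i, c * f (i :: x)) = _
    simp_rw [← Finset.mul_sum]
    exact ih _

theorem wsum_union {Ω : Type} [MeasurableSpace Ω] (μ : Measure Ω) (K : ℕ) :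
    ∀ (P : List (Fin N) → Set Ω), μ {ω | ∃ x, x.length = K ∧ ω ∈ P x} ≤ wsum N K fun x => μ (P x) := by
  induction K with
  | zero =>
    intro P
    refine measure_mono ?_
    rintro ω ⟨x, hx, h⟩
    rw [List.length_eq_zero_iff] at hx
    rwa [← hx]
  | succ K ih =>
    intro P
    refine le_trans (measure_mono ?_) ((ih fun x => ⋃ i, P (i :: x)).trans (wsum_mono K fun x _ =>
      measure_iUnion_fintype_le _ _))
    rintro ω ⟨x, hx, h⟩
    cases x with
    | nil => simp at hx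
    | cons i x =>
      refine ⟨x, by simpa using hx, ?_⟩
      exact Set.mem_iUnion.mpr ⟨i, h⟩

theorem wsum_decay (r : ℝ≥0∞) (w : List (Fin N) → ℝ≥0∞)
    (h : ∀ x : List (Fin N), x ≠ [] → ∑ i, w (i :: x) ≤ r * w x) (K : ℕ) :
    wsum N (K + 1) w ≤ r ^ K * wsum N 1 w := by
  induction K with
  | zero => simp
  | succ K ih =>
    calc wsum N (K + 1 + 1) w = wsum N (K + 1) fun x => ∑ i, w (i :: x) := rfl
      _ ≤ wsum N (K + 1) fun x => r * w x := wsum_mono _ fun x hx => h x (by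
          rintro rfl; simp at hx)
      _ = r * wsum N (K + 1) w := wsum_mul _ _ _
      _ ≤ r * (r ^ K * wsum N 1 w) := by gcongr
      _ = _ := by ring

/-- coordinates of the blocks on the path -/
def VS (J n : ℕ) {N : ℕ} (u0 : List (Fin N)) : List (Fin N) → Finset (Sym2 (TV J n N))
  | [] => ∅
  | _ :: x => by
    classical
    exact VS J n u0 x ∪ (FB J n (x ++ u0) ∪ CB J n (x ++ u0))

theorem block_level {u : List (Fin N)} {e : Sym2 (TV J n N)} (h : e ∈ FB J n u ∨ e ∈ CB J n u) :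
    (∃ o, ((u, o) : TV J n N) ∈ e) ∧ ∀ a ∈ e, u.length ≤ a.1.length := by
  rcases h with h | h
  · obtain ⟨o, o', rfl⟩ := mem_FB.mp h
    refine ⟨⟨o, Sym2.mem_mk_left _ _⟩, ?_⟩
    intro a ha
    rw [Sym2.mem_iff] at ha
    rcases ha with rfl | rfl <;> exact le_rfl
  · obtain ⟨i, rfl⟩ := mem_CB.mp h
    refine ⟨⟨none, Sym2.mem_mk_left _ _⟩, ?_⟩
    intro a ha
    unfold ech at ha
    rw [Sym2.mem_iff] at ha
    rcases ha with rfl | rfl
    · exact le_rfl
    · simp

theorem VS_level {u0 : List (Fin N)} : ∀ (x : List (Fin N)) (e : Sym2 (TV J n N)), e ∈ VS J n u0 x →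
    ∃ a ∈ e, a.1.length < (x ++ u0).length := by
  classical
  intro x
  induction x with
  | nil => intro e he; simp [VS] at he
  | cons i x ih =>
    intro e he
    simp only [VS, Finset.mem_union] at he
    rcases he with he | he
    · obtain ⟨a, h1, h2⟩ := ih e he
      exact ⟨a, h1, by simp only [List.length_append, List.length_cons] at h2 ⊢; omega⟩
    · obtain ⟨⟨o, ho⟩, -⟩ := block_level he
      exact ⟨_, ho, by simp⟩

theorem VS_disj {u0 x : List (Fin N)} {e : Sym2 (TV J n N)} (h : e ∈ VS J n u0 x)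
    (h' : ∀ a ∈ e, (x ++ u0).length ≤ a.1.length) : False := by
  obtain ⟨a, h1, h2⟩ := VS_level x e h
  have := h' a h1
  omega

/-- a pair of consecutive edges which can be crossed -/
def PairEv (ω : Cfg (TV J n N)) (e e' : Sym2 (TV J n N)) : Prop :=
  (1 ≤ (ω e).1 ∧ 1 ≤ (ω e').1) ∧ ¬ (((ω e).1 = 1 ∧ (ω e).2 0 ∈ Quarter 3) ∧
    ((ω e').1 = 1 ∧ (ω e').2 0 ∈ Quarter 0))

theorem chain_pair {T : ℝ} (hT : 0 < T) {ω : Cfg (TV J n N)} {u0 y : List (Fin N)} {i j : Fin N}
    {t : ℝ} (h : Chain T ω u0 (i :: j :: y) t) :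
    PairEv ω (ech (y ++ u0) j) (ech (j :: y ++ u0) i) ∧ Chain T ω u0 y t := by
  have htail : Chain T ω u0 y t := chain_tail (chain_tail h)
  obtain ⟨r, h1, hbar, r', h3, r2, h4, hbar2, -⟩ := h
  refine ⟨⟨⟨bar_pos hbar2, bar_pos hbar⟩, ?_⟩, htail⟩
  rintro ⟨⟨k1, k2⟩, k3, k4⟩
  have e1 := bar_single hbar2 k1.le
  have e2 := bar_single hbar k3.le
  have h5 : (3 : ℝ) / 4 ≤ ((ω (ech (y ++ u0) j)).2 0 : ℝ) := by
    have := k2.1
    norm_num at this
    exact this
  have h6 : ((ω (ech (j :: y ++ u0) i)).2 0 : ℝ) < 1 / 4 := by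
    have := k4.2
    norm_num at this
    norm_num
    exact this
  have h7 : r2 < r := lt_of_le_of_lt h4 h3
  rw [e1, e2] at h7
  have h8 : T * ((ω (ech (y ++ u0) j)).2 0 : ℝ) < T * ((ω (ech (j :: y ++ u0) i)).2 0 : ℝ) := h7
  have h9 := lt_of_mul_lt_mul_left h8 hT.le
  linarith

/-- all pairs can be crossed -/
def PC (ω : Cfg (TV J n N)) (u0 : List (Fin N)) : List (Fin N) → Prop
  | i :: j :: y => PairEv ω (ech (y ++ u0) j) (ech (j :: y ++ u0) i) ∧ PC ω u0 y
  | _ => True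

theorem chain_PC {T : ℝ} (hT : 0 < T) {ω : Cfg (TV J n N)} {u0 : List (Fin N)} {t : ℝ} :
    ∀ (x : List (Fin N)), Chain T ω u0 x t → PC ω u0 x
  | [], _ => by simp [PC]
  | [_], _ => by simp [PC]
  | i :: j :: y, h => by
    obtain ⟨h1, h2⟩ := chain_pair hT h
    exact ⟨h1, chain_PC hT y h2⟩

theorem ev_meas (e : Sym2 (TV J n N)) (A : Set EdgeData) (hA : MeasurableSet A) :
    MeasurableSet {ω : Cfg (TV J n N) | ω e ∈ A} := by
  have h : Measurable fun ω : Cfg (TV J n N) => ω e := measurable_pi_apply e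
  exact h hA

/-- single bar in a quarter -/
def oneQ (q : Fin 4) : Set EdgeData := {a | a.1 = 1 ∧ a.2 0 ∈ Quarter q}

theorem oneQ_meas (q : Fin 4) : MeasurableSet (oneQ q) := one_pos_meas _ (quarter_meas q)

theorem two_prob (T : ℝ) {e e' : Sym2 (TV J n N)} (he : e ≠ e') (A B : Set EdgeData)
    (hA : MeasurableSet A) (hB : MeasurableSet B) :
    stirLaw (TV J n N) T ({ω | ω e ∈ A} ∩ {ω | ω e' ∈ B}) = edgeLaw T A * edgeLaw T B := by
  have h1 := eval_prob T e A hA
  have h2 := eval_prob T e' B hB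
  rw [← h1, ← h2]
  unfold stirLaw
  refine indep2 (edgeLaw T) (0, fun _ => 0) {e} {e'} ?_ _ _ (ev_meas e A hA) (ev_meas e' B hB) ?_ ?_
  · rw [Finset.disjoint_singleton]; exact he
  · intro ω ω' h
    simp only [Set.mem_ofPred_eq, h _ (Finset.mem_singleton_self _)]
  · intro ω ω' h
    simp only [Set.mem_ofPred_eq, h _ (Finset.mem_singleton_self _)]

theorem pair_eq (e e' : Sym2 (TV J n N)) : {ω : Cfg (TV J n N) | PairEv ω e e'}
    = ({ω | ω e ∈ {a : EdgeData | 1 ≤ a.1}} ∩ {ω | ω e' ∈ {a : EdgeData | 1 ≤ a.1}}) \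
      ({ω | ω e ∈ oneQ 3} ∩ {ω | ω e' ∈ oneQ 0}) := by
  ext ω
  simp only [PairEv, oneQ, Set.mem_ofPred_eq, Set.mem_sdiff, Set.mem_inter_iff]

theorem pair_meas (e e' : Sym2 (TV J n N)) : MeasurableSet {ω : Cfg (TV J n N) | PairEv ω e e'} := by
  rw [pair_eq]
  have h1 : MeasurableSet {a : EdgeData | 1 ≤ a.1} := cnt_meas {k | 1 ≤ k}
  exact ((ev_meas e _ h1).inter (ev_meas e' _ h1)).diff
    ((ev_meas e _ (oneQ_meas 3)).inter (ev_meas e' _ (oneQ_meas 0)))

theorem pair_prob {T : ℝ} (hT : 0 ≤ T) {e e' : Sym2 (TV J n N)} (he : e ≠ e') :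
    stirLaw (TV J n N) T {ω | PairEv ω e e'}
      ≤ ENNReal.ofReal (T ^ 2 - (T * Real.exp (-T) / 4) ^ 2) := by
  have h1 : MeasurableSet {a : EdgeData | 1 ≤ a.1} := cnt_meas {k | 1 ≤ k}
  rw [pair_eq, measure_sdiff _ ((ev_meas e _ (oneQ_meas 3)).inter
    (ev_meas e' _ (oneQ_meas 0))).nullMeasurableSet (measure_ne_top _ _),
    two_prob T he _ _ h1 h1, two_prob T he _ _ (oneQ_meas 3) (oneQ_meas 0)]
  · unfold oneQ
    rw [oneQ_prob hT, oneQ_prob hT, ENNReal.ofReal_sub _ (by positivity), ENNReal.ofReal_pow hT,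
      ENNReal.ofReal_pow (by positivity), pow_two, pow_two]
    exact tsub_le_tsub (mul_le_mul' (act_prob hT) (act_prob hT)) le_rfl
  · rintro ω ⟨h2, h3⟩
    simp only [oneQ, Set.mem_ofPred_eq] at h2 h3
    exact ⟨h2.1.ge, h3.1.ge⟩

theorem PC_dep {u0 : List (Fin N)} {ω ω' : Cfg (TV J n N)} :
    ∀ (x : List (Fin N)), (∀ e ∈ VS J n u0 x, ω e = ω' e) → (PC ω u0 x ↔ PC ω' u0 x)
  | [], _ => by simp [PC]
  | [_], _ => by simp [PC]
  | i :: j :: y, h => by
    classical
    have h1 : ω (ech (y ++ u0) j) = ω' (ech (y ++ u0) j) := h _ (by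
      simp only [VS, Finset.mem_union]
      exact Or.inl (Or.inr (Or.inr (mem_CB.mpr ⟨j, rfl⟩))))
    have h2 : ω (ech (j :: y ++ u0) i) = ω' (ech (j :: y ++ u0) i) := h _ (by
      simp only [VS, Finset.mem_union]
      exact Or.inr (Or.inr (mem_CB.mpr ⟨i, rfl⟩)))
    have h3 := PC_dep y (ω := ω) (ω' := ω') fun e he => h e (by
      simp only [VS, Finset.mem_union]
      exact Or.inl (Or.inl he))
    simp only [PC, PairEv, h1, h2, h3]

theorem PC_meas {u0 : List (Fin N)} : ∀ (x : List (Fin N)),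
    MeasurableSet {ω : Cfg (TV J n N) | PC ω u0 x}
  | [] => by simp [PC]
  | [_] => by simp [PC]
  | i :: j :: y => by
    have : {ω : Cfg (TV J n N) | PC ω u0 (i :: j :: y)}
        = {ω | PairEv ω (ech (y ++ u0) j) (ech (j :: y ++ u0) i)} ∩ {ω | PC ω u0 y} := rfl
    rw [this]
    exact (pair_meas _ _).inter (PC_meas y)

theorem PC_prob {T : ℝ} (hT : 0 ≤ T) {u0 : List (Fin N)} (i j : Fin N) (y : List (Fin N)) :
    stirLaw (TV J n N) T {ω | PC ω u0 (i :: j :: y)}
      ≤ ENNReal.ofReal (T ^ 2 - (T * Real.exp (-T) / 4) ^ 2) * stirLaw (TV J n N) T {ω | PC ω u0 y} := by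
  classical
  have h1 : {ω : Cfg (TV J n N) | PC ω u0 (i :: j :: y)}
      = {ω | PairEv ω (ech (y ++ u0) j) (ech (j :: y ++ u0) i)} ∩ {ω | PC ω u0 y} := rfl
  have hne : ech (J := J) (n := n) (y ++ u0) j ≠ ech (j :: y ++ u0) i := by
    intro h
    have := congrArg List.length (ech_inj h).1
    simp at this
  rw [h1]
  refine le_trans (le_of_eq ?_) (mul_le_mul' (pair_prob hT hne) le_rfl)
  unfold stirLaw
  refine indep2 (edgeLaw T) (0, fun _ => 0) {ech (y ++ u0) j, ech (j :: y ++ u0) i} (VS J n u0 y) ?_ _ _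
    (pair_meas _ _) (PC_meas y) ?_ ?_
  · rw [Finset.disjoint_left]
    intro e he he'
    rw [Finset.mem_insert, Finset.mem_singleton] at he
    refine VS_disj he' ?_
    rcases he with rfl | rfl
    · exact (block_level (Or.inr (mem_CB.mpr ⟨j, rfl⟩))).2
    · intro a ha
      have := (block_level (Or.inr (mem_CB.mpr ⟨i, rfl⟩))).2 a ha
      simp only [List.cons_append, List.length_cons] at this
      omega
  · intro ω ω' h
    have e1 := h (ech (y ++ u0) j) (by simp)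
    have e2 := h (ech (j :: y ++ u0) i) (by simp)
    simp only [Set.mem_ofPred_eq, PairEv, e1, e2]
  · intro ω ω' h
    exact PC_dep y h

theorem tends_zero {μ : ℝ≥0∞} {β C : ℝ≥0∞} (hβ : β < 1) (hC : C ≠ ⊤) (h : ∀ M : ℕ, μ ≤ β ^ M * C) :
    μ = 0 := by
  have h1 := ENNReal.tendsto_pow_atTop_nhds_zero_of_lt_one hβ
  have h2 : Filter.Tendsto (fun M : ℕ => β ^ M * C) Filter.atTop (nhds (0 * C)) :=
    ENNReal.Tendsto.mul_const h1 (Or.inr hC)
  rw [zero_mul] at h2
  exact le_antisymm (ge_of_tendsto' h2 h) zero_le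

theorem noinc_ae {T : ℝ} (hT : 0 < T) {β : ℝ≥0∞} (hβ : β < 1)
    (hb : (N : ℝ≥0∞) * N * ENNReal.ofReal (T ^ 2 - (T * Real.exp (-T) / 4) ^ 2) ≤ β) :
    ∀ᵐ ω ∂(stirLaw (TV J n N) T), ∀ u0 : List (Fin N), ∃ K, ∀ x : List (Fin N), x.length = K →
      ¬ Chain T ω u0 x T := by
  rw [ae_all_iff]
  intro u0
  rw [ae_iff]
  refine tends_zero (C := 1) hβ ENNReal.one_ne_top fun M => ?_
  rw [mul_one]
  have hw : ∀ M : ℕ, wsum N (2 * M) (fun x => stirLaw (TV J n N) T {ω | PC ω u0 x}) ≤ β ^ M := by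
    intro M
    induction M with
    | zero =>
      simp only [mul_zero, pow_zero, wsum]
      exact prob_le_one
    | succ M ih =>
      rw [show 2 * (M + 1) = 2 * M + 1 + 1 by ring]
      calc wsum N (2 * M + 1 + 1) (fun x => stirLaw (TV J n N) T {ω | PC ω u0 x})
          = wsum N (2 * M) fun x => ∑ j, ∑ i, stirLaw (TV J n N) T {ω | PC ω u0 (i :: j :: x)} := rfl
        _ ≤ wsum N (2 * M) fun x => β * stirLaw (TV J n N) T {ω | PC ω u0 x} := by
            refine wsum_mono _ fun x _ => ?_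
            calc ∑ j : Fin N, ∑ i : Fin N, stirLaw (TV J n N) T {ω | PC ω u0 (i :: j :: x)}
                ≤ ∑ j : Fin N, ∑ i : Fin N, ENNReal.ofReal (T ^ 2 - (T * Real.exp (-T) / 4) ^ 2) *
                    stirLaw (TV J n N) T {ω | PC ω u0 x} :=
                  Finset.sum_le_sum fun j _ => Finset.sum_le_sum fun i _ => PC_prob hT.le i j x
              _ = (N : ℝ≥0∞) * N * ENNReal.ofReal (T ^ 2 - (T * Real.exp (-T) / 4) ^ 2) *
                    stirLaw (TV J n N) T {ω | PC ω u0 x} := by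
                  simp only [Finset.sum_const, Finset.card_univ, Fintype.card_fin, nsmul_eq_mul]
                  ring
              _ ≤ _ := by gcongr
        _ = β * wsum N (2 * M) (fun x => stirLaw (TV J n N) T {ω | PC ω u0 x}) := wsum_mul _ _ _
        _ ≤ β * β ^ M := by gcongr
        _ = β ^ (M + 1) := by ring
  refine le_trans (measure_mono ?_) ((wsum_union (stirLaw (TV J n N) T) (2 * M)
    fun x => {ω | PC ω u0 x}).trans (hw M))
  intro ω hω
  rw [Set.mem_ofPred_eq] at hω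
  push Not at hω
  obtain ⟨x, h1, h2⟩ := hω (2 * M)
  exact ⟨x, h1, chain_PC hT x h2⟩

end

end Pool.Agent.H592S
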