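import Mathlib
import Pool.Agent.H592S.LowFin

set_option autoImplicit false
open MeasureTheory ProbabilityTheory
open scoped ENNReal NNReal

namespace Pool.Agent.H592S

noncomputable section

variable {J n N : ℕ}

/-- the base words -/
def bw (i0 : Fin N) (m : ℕ) : List (Fin N) := List.replicate m i0

/-- the start of an infinite cycle in the subtree number `m` -/
def GE (J n : ℕ) {N : ℕ} (i0 i1 : Fin N) (m K : ℕ) : Set (Cfg (TV J n N)) :=
  {ω | (ω (ech (bw i0 m) i1)).1 ≤ 1} ∩ {ω | Surv ω K (i1 :: bw i0 m)}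

/-- its coordinates -/
def GS (J n : ℕ) {N : ℕ} (i0 i1 : Fin N) (m K : ℕ) : Finset (Sym2 (TV J n N)) := by
  classical
  exact insert (ech (bw i0 m) i1) (suppS J n K (i1 :: bw i0 m))

theorem GE_meas (i0 i1 : Fin N) (m K : ℕ) : MeasurableSet (GE J n i0 i1 m K) :=
  (cnt_ev_meas _ {k | k ≤ 1}).inter (surv_meas _ _)

theorem GE_dep (i0 i1 : Fin N) (m K : ℕ) (ω ω' : Cfg (TV J n N))
    (h : ∀ e ∈ GS J n i0 i1 m K, ω e = ω' e) : ω ∈ GE J n i0 i1 m K ↔ ω' ∈ GE J n i0 i1 m K := by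
  classical
  have h1 : ω (ech (bw i0 m) i1) = ω' (ech (bw i0 m) i1) := h _ (Finset.mem_insert_self _ _)
  have h2 : Surv ω K (i1 :: bw i0 m) ↔ Surv ω' K (i1 :: bw i0 m) :=
    surv_dep K fun e he => h e (Finset.mem_insert_of_mem he)
  simp only [GE, Set.mem_inter_iff, Set.mem_ofPred_eq, h1, h2]

theorem not_suffix {i0 i1 : Fin N} (h01 : i1 ≠ i0) {m m' : ℕ} : ¬ i1 :: bw i0 m <:+ bw i0 m' := by
  intro h
  have : i1 ∈ bw i0 m' := h.subset (List.mem_cons_self ..)
  exact h01 (List.eq_of_mem_replicate this)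

theorem GS_disj {i0 i1 : Fin N} (h01 : i1 ≠ i0) {m m' K K' : ℕ} (hmm : m < m') :
    Disjoint (GS J n i0 i1 m K) (GS J n i0 i1 m' K') := by
  classical
  rw [Finset.disjoint_left]
  intro e he he'
  unfold GS at he he'
  rw [Finset.mem_insert] at he he'
  have hsub : ∀ {a : TV J n N}, a ∈ Sub J n (i1 :: bw i0 m) → a ∉ Sub J n (i1 :: bw i0 m') := by
    intro a ha ha'
    have h1 := sub_inter ha ha' (by simp [bw]; omega)
    rw [List.suffix_cons_iff] at h1
    rcases h1 with h1 | h1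
    · have := congrArg List.length h1
      simp [bw] at this
      omega
    · exact not_suffix h01 h1
  rcases he with rfl | he
  · rcases he' with he' | he'
    · have := congrArg List.length (ech_inj he').1
      simp [bw] at this
      omega
    · exact not_suffix h01 (suppS_sub _ _ _ he' (bw i0 m, none) (by unfold ech; exact Sym2.mem_mk_left _ _))
  · rcases he' with rfl | he'
    · exact not_suffix h01 (suppS_sub _ _ _ he (bw i0 m', none) (by unfold ech; exact Sym2.mem_mk_left _ _))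
    · induction e using Sym2.ind with
      | _ x y => exact hsub (suppS_sub _ _ _ he x (Sym2.mem_mk_left _ _))
                  (suppS_sub _ _ _ he' x (Sym2.mem_mk_left _ _))

theorem GE_prob {T : ℝ} (hT : 0 ≤ T) {σ : ℝ} 
    (hσ : ∀ (k : ℕ) (u : List (Fin N)), ENNReal.ofReal σ ≤ stirLaw (TV J n N) T {ω | Surv ω k u})
    (i0 i1 : Fin N) (m K : ℕ) :
    ENNReal.ofReal ((Real.exp (-T) + T * Real.exp (-T)) * σ) ≤ stirLaw (TV J n N) T (GE J n i0 i1 m K) := by
  classical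
  have h1 : stirLaw (TV J n N) T (GE J n i0 i1 m K)
      = stirLaw (TV J n N) T {ω | (ω (ech (bw i0 m) i1)).1 ≤ 1} *
        stirLaw (TV J n N) T {ω | Surv ω K (i1 :: bw i0 m)} := by
    unfold GE stirLaw
    refine indep2 (edgeLaw T) (0, fun _ => 0) {ech (bw i0 m) i1} (suppS J n K (i1 :: bw i0 m)) ?_ _ _
      (cnt_ev_meas _ {k | k ≤ 1}) (surv_meas _ _) ?_ ?_
    · rw [Finset.disjoint_singleton_left]
      intro hmem
      have h5 := suppS_sub K _ _ hmem (bw i0 m, none) (by unfold ech; exact Sym2.mem_mk_left _ _)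
      have := List.IsSuffix.length_le (show i1 :: bw i0 m <:+ bw i0 m from h5)
      simp at this
    · intro ω ω' h
      simp only [Set.mem_ofPred_eq, h _ (Finset.mem_singleton_self _)]
    · intro ω ω' h
      exact surv_dep K h
  have h6 := eval_prob T (ech (J := J) (n := n) (bw i0 m) i1) {a | a.1 ≤ 1} (cnt_meas {k | k ≤ 1})
  rw [le_one_prob hT] at h6
  have h7 : stirLaw (TV J n N) T {ω : Cfg (TV J n N) | (ω (ech (bw i0 m) i1)).1 ≤ 1}
      = ENNReal.ofReal (Real.exp (-T) + T * Real.exp (-T)) := h6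
  rw [h1, h7, ENNReal.ofReal_mul (add_nonneg (Real.exp_pos _).le (mul_nonneg hT (Real.exp_pos _).le))]
  gcongr
  exact hσ _ _

theorem surv_anti' {K K' : ℕ} (h : K ≤ K') {ω : Cfg (TV J n N)} {u : List (Fin N)}
    (hs : Surv ω K' u) : Surv ω K u := by
  induction K', h using Nat.le_induction with
  | base => exact hs
  | succ K' _ ih => exact ih (surv_anti _ hs)

theorem ginf_ae {T : ℝ} (hT : 0 ≤ T) {σ : ℝ} (hσ0 : 0 < σ)
    (hσ : ∀ (k : ℕ) (u : List (Fin N)), ENNReal.ofReal σ ≤ stirLaw (TV J n N) T {ω | Surv ω k u})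
    {i0 i1 : Fin N} (h01 : i1 ≠ i0) :
    ∀ᵐ ω ∂(stirLaw (TV J n N) T), ∃ m, (ω (ech (bw i0 m) i1)).1 ≤ 1 ∧ ∀ k, Surv ω k (i1 :: bw i0 m) := by
  classical
  set c : ℝ := (Real.exp (-T) + T * Real.exp (-T)) * σ with hc
  have hc0 : 0 < c := mul_pos (add_pos_of_pos_of_nonneg (Real.exp_pos _)
    (mul_nonneg hT (Real.exp_pos _).le)) hσ0
  set F : ℕ → ℕ → Set (Cfg (TV J n N)) := fun M K => ⋂ m ∈ Finset.range M, (GE J n i0 i1 m K)ᶜ with hF
  have hFm : ∀ M K, stirLaw (TV J n N) T (F M K) ≤ (1 - ENNReal.ofReal c) ^ M := by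
    intro M K
    rw [hF]
    unfold stirLaw
    simp only
    rw [indepN (edgeLaw T) (0, fun _ => 0) (Finset.range M) (fun m => GS J n i0 i1 m K) ?_ _
      (fun m _ => (GE_meas i0 i1 m K).compl) ?_]
    · calc ∏ m ∈ Finset.range M, (Measure.infinitePi fun _ : Sym2 (TV J n N) => edgeLaw T)
            (GE J n i0 i1 m K)ᶜ ≤ ∏ m ∈ Finset.range M, (1 - ENNReal.ofReal c) := by
            refine Finset.prod_le_prod' fun m _ => ?_
            have h1 := prob_compl_eq_one_sub (μ := stirLaw (TV J n N) T) (GE_meas (J := J) (n := n) i0 i1 m K)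
            refine (le_of_eq h1).trans ?_
            exact tsub_le_tsub le_rfl (GE_prob hT hσ i0 i1 m K)
        _ = _ := by rw [Finset.prod_const, Finset.card_range]
    · intro m _ m' _ hne
      rcases lt_or_gt_of_ne hne with h | h
      · exact GS_disj h01 h
      · exact (GS_disj h01 h).symm
    · intro m _ ω ω' h
      have := GE_dep i0 i1 m K ω ω' h
      simp only [Set.mem_compl_iff, this]
  have hmono : ∀ M, Monotone (F M) := by
    intro M K K' hK ω hω
    rw [hF] at hω ⊢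
    simp only [Set.mem_iInter] at hω ⊢
    intro m hm hcon
    exact hω m hm ⟨hcon.1, surv_anti' hK hcon.2⟩
  rw [ae_iff]
  refine tends_zero (β := 1 - ENNReal.ofReal c) (C := 1) ?_ ENNReal.one_ne_top fun M => ?_
  · exact ENNReal.sub_lt_self ENNReal.one_ne_top one_ne_zero (by simpa using hc0)
  rw [mul_one]
  have hsub : {ω : Cfg (TV J n N) | ¬ ∃ m, (ω (ech (bw i0 m) i1)).1 ≤ 1 ∧
      ∀ k, Surv ω k (i1 :: bw i0 m)} ⊆ ⋃ K, F M K := by
    intro ω hω
    rw [Set.mem_ofPred_eq] at hω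
    push Not at hω
    have h1 : ∀ m, ∃ K, ω ∉ GE J n i0 i1 m K := by
      intro m
      by_cases h2 : (ω (ech (bw i0 m) i1)).1 ≤ 1
      · obtain ⟨K, hK⟩ := hω m h2
        exact ⟨K, fun h => hK h.2⟩
      · exact ⟨0, fun h => h2 h.1⟩
    choose Kf hKf using h1
    rw [Set.mem_iUnion]
    refine ⟨(Finset.range M).sup Kf, ?_⟩
    rw [hF]
    simp only [Set.mem_iInter]
    intro m hm hcon
    exact hKf m ⟨hcon.1, surv_anti' (Finset.le_sup (f := Kf) hm) hcon.2⟩
  refine (measure_mono hsub).trans ?_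
  rw [(hmono M).measure_iUnion]
  exact iSup_le fun K => hFm M K

theorem low_mem {T : ℝ} (hT : 0 < T) {β : ℝ≥0∞} (hβ : β < 1)
    (hb : (N : ℝ≥0∞) * N * ENNReal.ofReal (T ^ 2 - (T * Real.exp (-T) / 4) ^ 2) ≤ β)
    {σ : ℝ} (hσ0 : 0 < σ)
    (hσ : ∀ (k : ℕ) (u : List (Fin N)), ENNReal.ofReal σ ≤ stirLaw (TV J n N) T {ω | Surv ω k u})
    {i0 i1 : Fin N} (h01 : i1 ≠ i0) : T ∈ infiniteSet (treeG J n N) := by
  refine ⟨hT, ?_⟩
  filter_upwards [regular_ae (treeG J n N) hT, noinc_ae (J := J) (n := n) hT hβ hb,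
    ginf_ae hT.le hσ0 hσ h01] with ω hR hC hG
  obtain ⟨m, h1, h2⟩ := hG
  refine ⟨_, infinite_of_surv hR (finBars T ω) (noinc (finBars T ω) hC) (i1 :: bw i0 m) ?_ h2⟩
  intro i u' h
  simp only [List.cons.injEq] at h
  obtain ⟨rfl, rfl⟩ := h
  exact h1

end

end Pool.Agent.H592S
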