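import Mathlib
import Pool.Agent.H592S.LowEx

set_option autoImplicit false
open MeasureTheory ProbabilityTheory
open scoped ENNReal NNReal

namespace Pool.Agent.H592S

noncomputable section

variable {J n N : ℕ}

/-- a good gadget exists -/
def Good (ω : Cfg (TV J n N)) (u : List (Fin N)) (q : Fin 4) : Prop :=
  ∃ g : Σ k : ℕ, Fin J × (Fin k ↪ Fin n), 2 ≤ g.1 ∧ Cyc ω u g.2.1 g.2.2 q ∧ Clear ω u g.2.1 g.2.2

theorem cyc_dep {ω ω' : Cfg (TV J n N)} {u : List (Fin N)} (h : ∀ e ∈ FB J n u, ω e = ω' e)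
    (j : Fin J) {k : ℕ} (γ : Fin k ↪ Fin n) (q : Fin 4) : Cyc ω u j γ q ↔ Cyc ω' u j γ q := by
  have h1 : ∀ j x y, cnt ω u j x y = cnt ω' u j x y := by
    intro j x y
    unfold cnt
    rw [h _ (cv_FB u j x y)]
  have h2 : ∀ j x y, posn ω u j x y = posn ω' u j x y := by
    intro j x y
    unfold posn
    rw [h _ (cv_FB u j x y)]
  simp only [Cyc, h1, h2]

theorem clear_dep {ω ω' : Cfg (TV J n N)} {u : List (Fin N)} (h : ∀ e ∈ FB J n u, ω e = ω' e)
    (j : Fin J) {k : ℕ} (γ : Fin k ↪ Fin n) : Clear ω u j γ ↔ Clear ω' u j γ := by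
  have h1 : ∀ j x y, cnt ω u j x y = cnt ω' u j x y := by
    intro j x y
    unfold cnt
    rw [h _ (cv_FB u j x y)]
  have h2 : ∀ j L, ActE ω u j L ↔ ActE ω' u j L := by
    intro j L
    unfold ActE
    refine forall_congr' fun e => imp_congr_right fun _ => ?_
    rw [h _ (map_cv_FB u j e)]
  simp only [Clear, h1, h2]

theorem good_dep {ω ω' : Cfg (TV J n N)} {u : List (Fin N)} (h : ∀ e ∈ FB J n u, ω e = ω' e)
    (q : Fin 4) : Good ω u q ↔ Good ω' u q := by
  unfold Good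
  refine exists_congr fun g => and_congr_right fun _ => ?_
  rw [cyc_dep h, clear_dep h]

theorem cyc_meas (u : List (Fin N)) (j : Fin J) {k : ℕ} (γ : Fin k ↪ Fin n) (q : Fin 4) :
    MeasurableSet {ω : Cfg (TV J n N) | Cyc ω u j γ q} := by
  have : {ω : Cfg (TV J n N) | Cyc ω u j γ q}
      = (⋂ i : Fin (k + 1), {ω | (ω s(cv u j (core γ i), cv u j (core γ (i + 1)))).1 ∈ ({1} : Set ℕ)}) ∩
        ({ω | ω s(cv u j (core γ 0), cv u j (core γ (0 + 1))) ∈ {a : EdgeData | a.2 0 ∈ Quarter (q + 1)}} ∩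
         {ω | ω s(cv u j (core γ (0 - 1)), cv u j (core γ (0 - 1 + 1))) ∈
            {a : EdgeData | a.2 0 ∈ Quarter (q + 3)}}) := by
    ext ω
    simp only [Cyc, cnt, posn, Set.mem_inter_iff, Set.mem_iInter, Set.mem_ofPred_eq,
      Set.mem_singleton_iff]
  rw [this]
  exact (MeasurableSet.iInter fun i => cnt_ev_meas _ _).inter
    ((ev_meas _ _ (pos_meas 0 _ (quarter_meas _))).inter (ev_meas _ _ (pos_meas 0 _ (quarter_meas _))))

theorem clear_meas (u : List (Fin N)) (j : Fin J) {k : ℕ} (γ : Fin k ↪ Fin n) :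
    MeasurableSet {ω : Cfg (TV J n N) | Clear ω u j γ} := by
  have : {ω : Cfg (TV J n N) | Clear ω u j γ}
      = (⋂ i, ⋂ y, ⋂ (_ : y ≠ core γ i), {ω | (ω s(cv u j (core γ i), cv u j y)).1 ∈ {k | k ≤ 1}}) ∩
        ((⋂ j', ⋂ y : Fin n, {ω | (ω s(cv u j' none, cv u j' (some y))).1 ∈ {k | k ≤ 1}}) ∩
        ((⋂ i, ⋂ i', ⋂ (_ : i' ≠ i), ⋂ (_ : i' ≠ i + 1), ⋂ (_ : i ≠ i' + 1),
            {ω | (ω s(cv u j (core γ i), cv u j (core γ i'))).1 ∈ {k | 1 ≤ k}}ᶜ) ∩
        (⋂ j', ⋂ p, ⋂ p', ⋂ (b : List (Fin n)), ⋂ (_ : CoreP j γ j' p), ⋂ (_ : CoreP j γ j' p'),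
            ⋂ (_ : b ≠ []), ⋂ (_ : b.Nodup), ⋂ (_ : ∀ y ∈ b, NC j γ j' y),
            ⋂ (_ : ¬ (p = p' ∧ b.length = 1)), {ω | ActE ω u j' (earE p p' b)}ᶜ))) := by
    ext ω
    simp only [Clear, cnt, Set.mem_inter_iff, Set.mem_iInter, Set.mem_ofPred_eq, Set.mem_compl_iff]
  rw [this]
  refine MeasurableSet.inter ?_ (MeasurableSet.inter ?_ (MeasurableSet.inter ?_ ?_))
  · exact MeasurableSet.iInter fun i => MeasurableSet.iInter fun y => MeasurableSet.iInter fun _ =>
      cnt_ev_meas _ _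
  · exact MeasurableSet.iInter fun i => MeasurableSet.iInter fun y => cnt_ev_meas _ _
  · exact MeasurableSet.iInter fun i => MeasurableSet.iInter fun i' => MeasurableSet.iInter fun _ =>
      MeasurableSet.iInter fun _ => MeasurableSet.iInter fun _ => (cnt_ev_meas _ _).compl
  · exact MeasurableSet.iInter fun j' => MeasurableSet.iInter fun p => MeasurableSet.iInter fun p' =>
      MeasurableSet.iInter fun b => MeasurableSet.iInter fun _ => MeasurableSet.iInter fun _ =>
      MeasurableSet.iInter fun _ => MeasurableSet.iInter fun _ => MeasurableSet.iInter fun _ =>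
      MeasurableSet.iInter fun _ => (actE_meas _ _ _).compl

theorem good_meas (u : List (Fin N)) (q : Fin 4) :
    MeasurableSet {ω : Cfg (TV J n N) | Good ω u q} := by
  have : {ω : Cfg (TV J n N) | Good ω u q}
      = ⋃ g : Σ k : ℕ, Fin J × (Fin k ↪ Fin n), ⋃ (_ : 2 ≤ g.1),
        ({ω | Cyc ω u g.2.1 g.2.2 q} ∩ {ω | Clear ω u g.2.1 g.2.2}) := by
    ext ω
    simp only [Good, Set.mem_inter_iff, Set.mem_iUnion, Set.mem_ofPred_eq, exists_prop]
  rw [this]
  exact MeasurableSet.iUnion fun g => MeasurableSet.iUnion fun _ =>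
    (cyc_meas _ _ _ _).inter (clear_meas _ _ _)

/-- the edges of a gadget -/
def ced (u : List (Fin N)) (j : Fin J) {k : ℕ} (γ : Fin k ↪ Fin n) (i : Fin (k + 1)) :
    Sym2 (TV J n N) := s(cv u j (core γ i), cv u j (core γ (i + 1)))

theorem core_ne {k : ℕ} (hk : 2 ≤ k) (γ : Fin k ↪ Fin n) (i : Fin (k + 1)) :
    core γ i ≠ core γ (i + 1) := by
  intro hcon
  have h1 := core_inj γ hcon
  have h2 := fin_two hk (i + 1)
  apply h2
  rw [add_sub_cancel_right, ← h1, ← h1]

theorem ced_inj {k : ℕ} (hk : 2 ≤ k) (u : List (Fin N)) (j : Fin J) (γ : Fin k ↪ Fin n) :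
    Function.Injective (ced u j γ) := by
  intro i i' h
  unfold ced at h
  rw [Sym2.eq_iff] at h
  rcases h with ⟨h1, -⟩ | ⟨h1, h2⟩
  · exact core_inj γ (cv_inj u j h1)
  · exfalso
    have e1 := core_inj γ (cv_inj u j h1)
    have e2 := core_inj γ (cv_inj u j h2)
    apply fin_two hk i
    rw [e2, e1]
    simp

/-- the set of edges of a gadget -/
def ceds (u : List (Fin N)) (j : Fin J) {k : ℕ} (γ : Fin k ↪ Fin n) : Finset (Sym2 (TV J n N)) := by
  classical
  exact Finset.univ.image (ced u j γ)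

theorem mem_ceds {u : List (Fin N)} {j : Fin J} {k : ℕ} {γ : Fin k ↪ Fin n} {e : Sym2 (TV J n N)} :
    e ∈ ceds u j γ ↔ ∃ i, e = ced u j γ i := by
  unfold ceds
  simp only [Finset.mem_image, Finset.mem_univ, true_and]
  constructor
  · rintro ⟨i, rfl⟩; exact ⟨i, rfl⟩
  · rintro ⟨i, rfl⟩; exact ⟨i, rfl⟩

theorem cyc_dep' {ω ω' : Cfg (TV J n N)} {u : List (Fin N)} {j : Fin J} {k : ℕ} {γ : Fin k ↪ Fin n}
    {q : Fin 4} (h : ∀ e ∈ ceds u j γ, ω e = ω' e) : Cyc ω u j γ q ↔ Cyc ω' u j γ q := by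
  have h1 : ∀ i, ω s(cv u j (core γ i), cv u j (core γ (i + 1)))
      = ω' s(cv u j (core γ i), cv u j (core γ (i + 1))) := fun i => h _ (mem_ceds.mpr ⟨i, rfl⟩)
  simp only [Cyc, cnt, posn, h1]

theorem cyc_prob {T : ℝ} (hT : 0 ≤ T) {k : ℕ} (hk : 2 ≤ k) (u : List (Fin N)) (j : Fin J)
    (γ : Fin k ↪ Fin n) (q : Fin 4) :
    stirLaw (TV J n N) T {ω | Cyc ω u j γ q} = ENNReal.ofReal ((T * Real.exp (-T)) ^ (k + 1) / 16) := by
  classical
  have h01 : (0 : Fin (k + 1)) ≠ 0 - 1 := by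
    intro h
    have := fin_two hk 0
    have h1 : (0 : Fin (k + 1)) = 0 + 1 := by
      have := congrArg (· + (1 : Fin (k + 1))) h
      simp at this
      omega
    have := congrArg Fin.val h1
    simp at this
    omega
  set A : Fin (k + 1) → Set EdgeData := fun i =>
    if i = 0 then oneQ (q + 1) else if i = 0 - 1 then oneQ (q + 3) else {a | a.1 = 1} with hA
  have hAm : ∀ i, MeasurableSet (A i) := by
    intro i
    rw [hA]
    simp only
    split_ifs
    · exact oneQ_meas _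
    · exact oneQ_meas _
    · exact cnt_meas {1}
  have hAp : ∀ i, edgeLaw T (A i) = ENNReal.ofReal (T * Real.exp (-T)) *
      ((if i = 0 then ENNReal.ofReal (1 / 4) else 1) * (if i = 0 - 1 then ENNReal.ofReal (1 / 4) else 1)) := by
    intro i
    have hp0 : 0 ≤ T * Real.exp (-T) := mul_nonneg hT (Real.exp_pos _).le
    have hq : ∀ q, edgeLaw T (oneQ q) = ENNReal.ofReal (T * Real.exp (-T)) * ENNReal.ofReal (1 / 4) := by
      intro q
      unfold oneQ
      rw [oneQ_prob hT, ← ENNReal.ofReal_mul hp0]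
      congr 1
      ring
    rw [hA]
    simp only
    by_cases hi0 : i = 0
    · rw [if_pos hi0, if_pos hi0, if_neg (by rw [hi0]; exact h01), mul_one, hq]
    · rw [if_neg hi0, if_neg hi0, one_mul]
      by_cases hi1 : i = 0 - 1
      · rw [if_pos hi1, if_pos hi1, hq]
      · rw [if_neg hi1, if_neg hi1, mul_one, one_prob hT]
  have hset : {ω : Cfg (TV J n N) | Cyc ω u j γ q}
      = ⋂ i ∈ (Finset.univ : Finset (Fin (k + 1))), {ω | ω (ced u j γ i) ∈ A i} := by
    ext ω
    simp only [Set.mem_ofPred_eq, Set.mem_iInter, Finset.mem_univ, true_implies]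
    constructor
    · rintro ⟨h1, h2, h3⟩ i
      rw [hA]
      simp only
      by_cases hi0 : i = 0
      · rw [if_pos hi0]
        subst hi0
        exact ⟨h1 0, h2⟩
      · rw [if_neg hi0]
        by_cases hi1 : i = 0 - 1
        · rw [if_pos hi1]
          subst hi1
          exact ⟨h1 _, h3⟩
        · rw [if_neg hi1]
          exact h1 i
    · intro h
      refine ⟨fun i => ?_, ?_, ?_⟩
      · have h1 := h i
        rw [hA] at h1
        simp only at h1
        split_ifs at h1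
        · exact h1.1
        · exact h1.1
        · exact h1
      · have h1 := h 0
        rw [hA] at h1
        simp only at h1
        rw [if_pos trivial] at h1
        exact h1.2
      · have h1 := h (0 - 1)
        rw [hA] at h1
        simp only at h1
        rw [if_neg h01.symm, if_pos trivial] at h1
        exact h1.2
  rw [hset]
  unfold stirLaw
  rw [indepN (edgeLaw T) (0, fun _ => 0) Finset.univ (fun i => {ced u j γ i}) ?_ _
    (fun i _ => ev_meas _ _ (hAm i)) ?_]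
  · have h7 : ∀ i, (Measure.infinitePi fun _ : Sym2 (TV J n N) => edgeLaw T)
        {ω : Cfg (TV J n N) | ω (ced u j γ i) ∈ A i} = edgeLaw T (A i) :=
      fun i => eval_prob T _ _ (hAm i)
    simp only [h7, hAp]
    rw [Finset.prod_mul_distrib, Finset.prod_const, Finset.card_univ, Fintype.card_fin,
      Finset.prod_mul_distrib, Finset.prod_ite_eq', Finset.prod_ite_eq', if_pos (Finset.mem_univ _),
      if_pos (Finset.mem_univ _), ← ENNReal.ofReal_pow (mul_nonneg hT (Real.exp_pos _).le),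
      ← ENNReal.ofReal_mul (by norm_num), ← ENNReal.ofReal_mul (by positivity)]
    congr 1
    ring
  · intro i _ i' _ hne
    rw [Finset.disjoint_singleton]
    exact fun h => hne (ced_inj hk u j γ h)
  · intro i _ ω ω' h
    simp only [Set.mem_ofPred_eq, h _ (Finset.mem_singleton_self _)]

/-- independence of the gadget from other edges -/
theorem cyc_indep {T : ℝ} {k : ℕ} (u : List (Fin N)) (j : Fin J) (γ : Fin k ↪ Fin n) (q : Fin 4)
    (B : Set (Cfg (TV J n N))) (hB : MeasurableSet B) (S : Finset (Sym2 (TV J n N)))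
    (hS : ∀ e ∈ S, e ∉ ceds u j γ) (hd : ∀ ω ω' : Cfg (TV J n N), (∀ e ∈ S, ω e = ω' e) → (ω ∈ B ↔ ω' ∈ B)) :
    stirLaw (TV J n N) T ({ω | Cyc ω u j γ q} ∩ B)
      = stirLaw (TV J n N) T {ω | Cyc ω u j γ q} * stirLaw (TV J n N) T B := by
  unfold stirLaw
  refine indep2 (edgeLaw T) (0, fun _ => 0) (ceds u j γ) S ?_ _ _ (cyc_meas u j γ q) hB ?_ hd
  · rw [Finset.disjoint_right]
    exact hS
  · intro ω ω' h
    exact cyc_dep' h

theorem multi_bd {T : ℝ} (hT : 0 ≤ T) {k : ℕ} (u : List (Fin N)) (j : Fin J) (γ : Fin k ↪ Fin n)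
    (q : Fin 4) (e : Sym2 (TV J n N)) :
    stirLaw (TV J n N) T ({ω | Cyc ω u j γ q} ∩ {ω | ω e ∈ {a : EdgeData | 2 ≤ a.1}})
      ≤ stirLaw (TV J n N) T {ω | Cyc ω u j γ q} * ENNReal.ofReal (T ^ 2) := by
  have hm : MeasurableSet {a : EdgeData | 2 ≤ a.1} := cnt_meas {k | 2 ≤ k}
  by_cases he : e ∈ ceds u j γ
  · obtain ⟨i, rfl⟩ := mem_ceds.mp he
    have : {ω | Cyc ω u j γ q} ∩ {ω : Cfg (TV J n N) | ω (ced u j γ i) ∈ {a : EdgeData | 2 ≤ a.1}} = ∅ := by
      rw [Set.eq_empty_iff_forall_notMem]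
      rintro ω ⟨h1, h2⟩
      have h3 : (ω (ced u j γ i)).1 = 1 := h1.1 i
      simp only [Set.mem_ofPred_eq] at h2
      omega
    rw [this, measure_empty]
    exact zero_le
  · rw [cyc_indep u j γ q _ (ev_meas e _ hm) {e} (by intro e' he'; rw [Finset.mem_singleton] at he'; rwa [he'])
      (by intro ω ω' h; simp only [Set.mem_ofPred_eq, h _ (Finset.mem_singleton_self _)]),
      eval_prob T e _ hm]
    gcongr
    exact mul_prob hT

theorem chord_bd {T : ℝ} (hT : 0 ≤ T) {k : ℕ} (u : List (Fin N)) (j : Fin J) (γ : Fin k ↪ Fin n)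
    (q : Fin 4) (e : Sym2 (TV J n N)) (he : e ∉ ceds u j γ) :
    stirLaw (TV J n N) T ({ω | Cyc ω u j γ q} ∩ {ω | ω e ∈ {a : EdgeData | 1 ≤ a.1}})
      ≤ stirLaw (TV J n N) T {ω | Cyc ω u j γ q} * ENNReal.ofReal T := by
  have hm : MeasurableSet {a : EdgeData | 1 ≤ a.1} := cnt_meas {k | 1 ≤ k}
  rw [cyc_indep u j γ q _ (ev_meas e _ hm) {e} (by intro e' he'; rw [Finset.mem_singleton] at he'; rwa [he'])
      (by intro ω ω' h; simp only [Set.mem_ofPred_eq, h _ (Finset.mem_singleton_self _)]),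
      eval_prob T e _ hm]
  gcongr
  exact act_prob hT

theorem ear_bd {T : ℝ} (hT : 0 ≤ T) {k : ℕ} (u : List (Fin N)) (j : Fin J) (γ : Fin k ↪ Fin n)
    (q : Fin 4) (j' : Fin J) (L : List (Sym2 (Option (Fin n)))) (hL : L.Nodup)
    (he : ∀ e ∈ L, e.map (cv u j') ∉ ceds u j γ) :
    stirLaw (TV J n N) T ({ω | Cyc ω u j γ q} ∩ {ω | ActE ω u j' L})
      ≤ stirLaw (TV J n N) T {ω | Cyc ω u j γ q} * ENNReal.ofReal T ^ L.length := by
  classical
  rw [cyc_indep u j γ q _ (actE_meas u j' L) (L.map (Sym2.map (cv u j'))).toFinset ?_ ?_]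
  · gcongr
    exact list_prob hT u j' L hL
  · intro e h
    rw [List.mem_toFinset, List.mem_map] at h
    obtain ⟨e', h1, rfl⟩ := h
    exact he e' h1
  · intro ω ω' h
    simp only [Set.mem_ofPred_eq, ActE]
    refine forall_congr' fun e => forall_congr' fun hmem => ?_
    rw [h _ (by rw [List.mem_toFinset, List.mem_map]; exact ⟨e, hmem, rfl⟩)]

theorem path_mem (p' : Option (Fin n)) : ∀ (l : List (Fin n)) (y : Fin n),
    ∀ e ∈ pathE (some y :: (l.map some ++ [p'])), ∃ z ∈ y :: l, some z ∈ e := by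
  intro l
  induction l with
  | nil =>
    intro y e he
    simp only [List.map_nil, List.nil_append, pathE, List.mem_cons, List.not_mem_nil, or_false] at he
    subst he
    exact ⟨y, by simp, Sym2.mem_mk_left _ _⟩
  | cons z l ih =>
    intro y e he
    simp only [List.map_cons, List.cons_append, pathE, List.mem_cons] at he
    rcases he with rfl | he
    · exact ⟨y, by simp, Sym2.mem_mk_left _ _⟩
    · obtain ⟨w, h1, h2⟩ := ih z e he
      exact ⟨w, List.mem_cons_of_mem _ h1, h2⟩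

theorem ear_mem {p p' : Option (Fin n)} {b : List (Fin n)} (hb : b ≠ [])
    {e : Sym2 (Option (Fin n))} (he : e ∈ earE p p' b) : ∃ z ∈ b, some z ∈ e := by
  obtain ⟨y, l, rfl⟩ := List.exists_cons_of_ne_nil hb
  unfold earE at he
  simp only [List.map_cons, List.cons_append, pathE, List.mem_cons] at he
  rcases he with rfl | he
  · exact ⟨y, by simp, Sym2.mem_mk_right _ _⟩
  · exact path_mem p' l y e he

theorem ear_not_ced {u : List (Fin N)} {j : Fin J} {k : ℕ} {γ : Fin k ↪ Fin n} {j' : Fin J}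
    {p p' : Option (Fin n)} {b : List (Fin n)} (hb : b ≠ []) (hNC : ∀ y ∈ b, NC j γ j' y)
    {e : Sym2 (Option (Fin n))} (he : e ∈ earE p p' b) : e.map (cv u j') ∉ ceds u j γ := by
  intro hcon
  obtain ⟨i, hi⟩ := mem_ceds.mp hcon
  obtain ⟨z, h1, h2⟩ := ear_mem hb he
  have h3 : cv u j' (some z) ∈ e.map (cv u j') := Sym2.mem_map.mpr ⟨_, h2, rfl⟩
  rw [hi] at h3
  unfold ced at h3
  rw [Sym2.mem_iff] at h3
  have key : ∀ i, cv u j' (some z) = cv u j (core γ i) → False := by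
    intro i h
    cases hc : core γ i with
    | none => rw [hc] at h; simp [cv] at h
    | some w =>
      rw [hc] at h
      simp only [cv, Prod.mk.injEq, Option.some.injEq, true_and] at h
      obtain ⟨h4, h5⟩ := h
      refine hNC z h1 h4 ?_
      rw [h5]
      exact core_some γ hc
  rcases h3 with h3 | h3
  · exact key _ h3
  · exact key _ h3

end

end Pool.Agent.H592S
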