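import Mathlib
import Pool.Agent.H592S.HighProb

set_option autoImplicit false
open MeasureTheory ProbabilityTheory
open scoped ENNReal NNReal

namespace Pool.Agent.H592S

noncomputable section

variable {J n N : ℕ}

theorem chord_not_ced {u : List (Fin N)} {j : Fin J} {k : ℕ} {γ : Fin k ↪ Fin n} {i i' : Fin (k + 1)}
    (h2 : i' ≠ i + 1) (h3 : i ≠ i' + 1) :
    s(cv u j (core γ i), cv u j (core γ i')) ∉ ceds u j γ := by
  intro hcon
  obtain ⟨a, ha⟩ := mem_ceds.mp hcon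
  unfold ced at ha
  rw [Sym2.eq_iff] at ha
  rcases ha with ⟨e1, e2⟩ | ⟨e1, e2⟩
  · have f1 := core_inj γ (cv_inj u j e1)
    have f2 := core_inj γ (cv_inj u j e2)
    exact h2 (by rw [f2, f1])
  · have f1 := core_inj γ (cv_inj u j e1)
    have f2 := core_inj γ (cv_inj u j e2)
    exact h3 (by rw [f1, f2])

theorem nodup_len {b : List (Fin n)} (h : b.Nodup) : b.length < n + 1 := by
  have := h.length_le_card
  rw [Fintype.card_fin] at this
  omega

theorem eg_lower {T : ℝ} (hT : 0 ≤ T) (C : ℝ≥0∞) (hC : 1 + (n * ENNReal.ofReal T) * C ≤ C) {k : ℕ}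
    (hk : 2 ≤ k) (u : List (Fin N)) (j : Fin J) (γ : Fin k ↪ Fin n) (q : Fin 4)
    (herr : ((k + 1 : ℕ) : ℝ≥0∞) * (n + 1 : ℕ) * ENNReal.ofReal (T ^ 2) +
      ((J : ℝ≥0∞) * n * ENNReal.ofReal (T ^ 2) +
      (((k + 1 : ℕ) : ℝ≥0∞) * (k + 1 : ℕ) * ENNReal.ofReal T +
      ((J : ℝ≥0∞) * (ENNReal.ofReal T * C) +
      ((k + 1 : ℕ) : ℝ≥0∞) * (k + 1 : ℕ) * (ENNReal.ofReal T * C)))) ≤ 2⁻¹) :
    stirLaw (TV J n N) T {ω | Cyc ω u j γ q} * 2⁻¹
      ≤ stirLaw (TV J n N) T ({ω | Cyc ω u j γ q} ∩ {ω | Clear ω u j γ}) := by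
  classical
  set μ := stirLaw (TV J n N) T with hμ
  set Y : Set (Cfg (TV J n N)) := {ω | Cyc ω u j γ q} with hY
  set U1 : Set (Cfg (TV J n N)) := ⋃ i : Fin (k + 1), ⋃ y : Option (Fin n),
    (Y ∩ {ω | ω s(cv u j (core γ i), cv u j y) ∈ {a : EdgeData | 2 ≤ a.1}}) with hU1
  set U2 : Set (Cfg (TV J n N)) := ⋃ j' : Fin J, ⋃ y : Fin n,
    (Y ∩ {ω | ω s(cv u j' none, cv u j' (some y)) ∈ {a : EdgeData | 2 ≤ a.1}}) with hU2
  set U3 : Set (Cfg (TV J n N)) := ⋃ i : Fin (k + 1), ⋃ i' : Fin (k + 1),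
    {ω | (i' ≠ i + 1 ∧ i ≠ i' + 1) ∧
      ω ∈ Y ∩ {ω | ω s(cv u j (core γ i), cv u j (core γ i')) ∈ {a : EdgeData | 1 ≤ a.1}}} with hU3
  set U4 : Set (Cfg (TV J n N)) := ⋃ j' : Fin J, ⋃ b : List (Fin n),
    {ω | ((b ≠ [] ∧ b.Nodup ∧ 2 ≤ b.length) ∧ ∀ y ∈ b, NC j γ j' y) ∧
      ω ∈ Y ∩ {ω | ActE ω u j' (earE none none b)}} with hU4
  set U5 : Set (Cfg (TV J n N)) := ⋃ i : Fin (k + 1), ⋃ i' : Fin (k + 1), ⋃ b : List (Fin n),
    {ω | (((b ≠ [] ∧ b.Nodup) ∧ ∀ y ∈ b, NC j γ j y) ∧ ¬ (core γ i = core γ i' ∧ b.length = 1)) ∧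
      ω ∈ Y ∩ {ω | ActE ω u j (earE (core γ i) (core γ i') b)}} with hU5
  have hcov : Y ⊆ (Y ∩ {ω | Clear ω u j γ}) ∪ (U1 ∪ (U2 ∪ (U3 ∪ (U4 ∪ U5)))) := by
    intro ω hω
    by_cases hcl : Clear ω u j γ
    · exact Or.inl ⟨hω, hcl⟩
    · right
      unfold Clear at hcl
      rw [not_and_or, not_and_or, not_and_or] at hcl
      rcases hcl with h | h | h | h
      · left
        push Not at h
        obtain ⟨i, y, -, h⟩ := h
        exact Set.mem_iUnion.mpr ⟨i, Set.mem_iUnion.mpr ⟨y, hω, h⟩⟩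
      · right; left
        push Not at h
        obtain ⟨j', y, h⟩ := h
        exact Set.mem_iUnion.mpr ⟨j', Set.mem_iUnion.mpr ⟨y, hω, h⟩⟩
      · right; right; left
        push Not at h
        obtain ⟨i, i', h1, h2, h3, h4⟩ := h
        exact Set.mem_iUnion.mpr ⟨i, Set.mem_iUnion.mpr ⟨i', ⟨h2, h3⟩, hω, h4⟩⟩
      · right; right; right
        push Not at h
        obtain ⟨j', p, p', b, h1, h2, h3, h4, h5, h6, h7⟩ := h
        by_cases hj : j' = j
        · right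
          subst hj
          have hp : ∀ {p}, CoreP j' γ j' p → ∃ i, p = core γ i := by
            intro p hp
            rcases hp with hp | ⟨-, hp⟩
            · exact ⟨0, hp⟩
            · exact hp
          obtain ⟨i, rfl⟩ := hp h1
          obtain ⟨i', rfl⟩ := hp h2
          refine Set.mem_iUnion.mpr ⟨i, Set.mem_iUnion.mpr ⟨i', Set.mem_iUnion.mpr ⟨b,
            ⟨⟨⟨h3, h4⟩, h5⟩, ?_⟩, hω, h7⟩⟩⟩
          rintro ⟨h8, h9⟩
          exact h6 h8 h9
        · left
          have hp : ∀ {p}, CoreP j γ j' p → p = none := by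
            intro p hp
            rcases hp with hp | ⟨hp, -⟩
            · exact hp
            · exact absurd hp hj
          obtain rfl := hp h1
          obtain rfl := hp h2
          have hlen : 2 ≤ b.length := by
            have h8 : b.length ≠ 1 := fun h => h6 rfl h
            have h9 : b.length ≠ 0 := fun h => h3 (List.length_eq_zero_iff.mp h)
            omega
          exact Set.mem_iUnion.mpr ⟨j', Set.mem_iUnion.mpr ⟨b, ⟨⟨h3, h4, hlen⟩, h5⟩, hω, h7⟩⟩
  have b1 : μ U1 ≤ μ Y * (((k + 1 : ℕ) : ℝ≥0∞) * (n + 1 : ℕ) * ENNReal.ofReal (T ^ 2)) := by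
    calc μ U1 ≤ ∑ i : Fin (k + 1), ∑ y : Option (Fin n), μ Y * ENNReal.ofReal (T ^ 2) := by
          refine (measure_iUnion_fintype_le _ _).trans (Finset.sum_le_sum fun i _ => ?_)
          exact (measure_iUnion_fintype_le _ _).trans (Finset.sum_le_sum fun y _ =>
            multi_bd hT u j γ q _)
      _ = _ := by
          simp only [Finset.sum_const, Finset.card_univ, Fintype.card_fin, Fintype.card_option,
            nsmul_eq_mul]
          ring
  have b2 : μ U2 ≤ μ Y * ((J : ℝ≥0∞) * n * ENNReal.ofReal (T ^ 2)) := by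
    calc μ U2 ≤ ∑ j' : Fin J, ∑ y : Fin n, μ Y * ENNReal.ofReal (T ^ 2) := by
          refine (measure_iUnion_fintype_le _ _).trans (Finset.sum_le_sum fun i _ => ?_)
          exact (measure_iUnion_fintype_le _ _).trans (Finset.sum_le_sum fun y _ =>
            multi_bd hT u j γ q _)
      _ = _ := by
          simp only [Finset.sum_const, Finset.card_univ, Fintype.card_fin, nsmul_eq_mul]
          ring
  have b3 : μ U3 ≤ μ Y * (((k + 1 : ℕ) : ℝ≥0∞) * (k + 1 : ℕ) * ENNReal.ofReal T) := by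
    calc μ U3 ≤ ∑ i : Fin (k + 1), ∑ i' : Fin (k + 1), μ Y * ENNReal.ofReal T := by
          refine (measure_iUnion_fintype_le _ _).trans (Finset.sum_le_sum fun i _ => ?_)
          refine (measure_iUnion_fintype_le _ _).trans (Finset.sum_le_sum fun i' _ => ?_)
          by_cases hc : i' ≠ i + 1 ∧ i ≠ i' + 1
          · exact (measure_mono fun ω hω => hω.2).trans
              (chord_bd hT u j γ q _ (chord_not_ced hc.1 hc.2))
          · refine (measure_mono (t := ∅) fun ω hω => absurd hω.1 hc).trans ?_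
            rw [measure_empty]
            exact zero_le
      _ = _ := by
          simp only [Finset.sum_const, Finset.card_univ, Fintype.card_fin, nsmul_eq_mul]
          ring
  have hgeom : ∀ f : List (Fin n) → ℝ≥0∞, (∀ b, f b ≤ μ Y *
      (if b.length < n + 1 then ENNReal.ofReal T ^ (b.length + 1) else 0)) →
      ∑' b, f b ≤ μ Y * (ENNReal.ofReal T * C) := by
    intro f hf
    calc ∑' b, f b ≤ ∑' b : List (Fin n), μ Y *
          (if b.length < n + 1 then ENNReal.ofReal T ^ (b.length + 1) else 0) := ENNReal.tsum_le_tsum hf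
      _ = μ Y * ∑' b : List (Fin n), (if b.length < n + 1 then ENNReal.ofReal T ^ (b.length + 1) else 0) :=
          ENNReal.tsum_mul_left
      _ ≤ _ := by
          gcongr
          exact list_geom _ _ hC _
  have b4 : μ U4 ≤ μ Y * ((J : ℝ≥0∞) * (ENNReal.ofReal T * C)) := by
    calc μ U4 ≤ ∑ j' : Fin J, μ Y * (ENNReal.ofReal T * C) := by
          refine (measure_iUnion_fintype_le _ _).trans (Finset.sum_le_sum fun j' _ => ?_)
          refine (measure_iUnion_le _).trans (hgeom _ fun b => ?_)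
          by_cases hc : (b ≠ [] ∧ b.Nodup ∧ 2 ≤ b.length) ∧ ∀ y ∈ b, NC j γ j' y
          · rw [if_pos (nodup_len hc.1.2.1)]
            refine (measure_mono fun ω hω => hω.2).trans ?_
            have h1 := ear_bd hT u j γ q j' (earE none none b) (earE_nodup hc.1.1 hc.1.2.1 (by simp)
              (by simp) (by rintro ⟨-, h⟩; have := hc.1.2.2; omega))
              (fun e he => ear_not_ced hc.1.1 hc.2 he)
            rwa [earE_length] at h1
          · refine (measure_mono (t := ∅) fun ω hω => absurd hω.1 hc).trans ?_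
            rw [measure_empty]
            exact zero_le
      _ = _ := by
          simp only [Finset.sum_const, Finset.card_univ, Fintype.card_fin, nsmul_eq_mul]
          ring
  have b5 : μ U5 ≤ μ Y * (((k + 1 : ℕ) : ℝ≥0∞) * (k + 1 : ℕ) * (ENNReal.ofReal T * C)) := by
    calc μ U5 ≤ ∑ i : Fin (k + 1), ∑ i' : Fin (k + 1), μ Y * (ENNReal.ofReal T * C) := by
          refine (measure_iUnion_fintype_le _ _).trans (Finset.sum_le_sum fun i _ => ?_)
          refine (measure_iUnion_fintype_le _ _).trans (Finset.sum_le_sum fun i' _ => ?_)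
          refine (measure_iUnion_le _).trans (hgeom _ fun b => ?_)
          by_cases hc : ((b ≠ [] ∧ b.Nodup) ∧ ∀ y ∈ b, NC j γ j y) ∧
              ¬ (core γ i = core γ i' ∧ b.length = 1)
          · rw [if_pos (nodup_len hc.1.1.2)]
            refine (measure_mono fun ω hω => hω.2).trans ?_
            have hout : ∀ i : Fin (k + 1), ∀ y ∈ b, core γ i ≠ some y := fun i y hy h =>
              hc.1.2 y hy rfl (core_some γ h)
            have h1 := ear_bd hT u j γ q j (earE (core γ i) (core γ i') b) (earE_nodup hc.1.1.1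
              hc.1.1.2 (hout i) (hout i') hc.2)
              (fun e he => ear_not_ced hc.1.1.1 hc.1.2 he)
            rwa [earE_length] at h1
          · refine (measure_mono (t := ∅) fun ω hω => absurd hω.1 hc).trans ?_
            rw [measure_empty]
            exact zero_le
      _ = _ := by
          simp only [Finset.sum_const, Finset.card_univ, Fintype.card_fin, nsmul_eq_mul]
          ring
  have hbad : μ (U1 ∪ (U2 ∪ (U3 ∪ (U4 ∪ U5)))) ≤ μ Y * 2⁻¹ := by
    calc μ (U1 ∪ (U2 ∪ (U3 ∪ (U4 ∪ U5)))) ≤ μ U1 + (μ U2 + (μ U3 + (μ U4 + μ U5))) := by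
          refine (measure_union_le _ _).trans (add_le_add le_rfl ?_)
          refine (measure_union_le _ _).trans (add_le_add le_rfl ?_)
          refine (measure_union_le _ _).trans (add_le_add le_rfl ?_)
          exact measure_union_le _ _
      _ ≤ _ := add_le_add b1 (add_le_add b2 (add_le_add b3 (add_le_add b4 b5)))
      _ = μ Y * (((k + 1 : ℕ) : ℝ≥0∞) * (n + 1 : ℕ) * ENNReal.ofReal (T ^ 2) +
            ((J : ℝ≥0∞) * n * ENNReal.ofReal (T ^ 2) +
            (((k + 1 : ℕ) : ℝ≥0∞) * (k + 1 : ℕ) * ENNReal.ofReal T +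
            ((J : ℝ≥0∞) * (ENNReal.ofReal T * C) +
            ((k + 1 : ℕ) : ℝ≥0∞) * (k + 1 : ℕ) * (ENNReal.ofReal T * C))))) := by ring
      _ ≤ μ Y * 2⁻¹ := by gcongr
  have htot : μ Y ≤ μ (Y ∩ {ω | Clear ω u j γ}) + μ Y * 2⁻¹ :=
    (measure_mono hcov).trans ((measure_union_le _ _).trans (add_le_add le_rfl hbad))
  have h2 : μ Y * 2⁻¹ + μ Y * 2⁻¹ ≤ μ (Y ∩ {ω | Clear ω u j γ}) + μ Y * 2⁻¹ := by
    rw [← mul_add, ENNReal.inv_two_add_inv_two, mul_one]
    exact htot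
  exact (ENNReal.add_le_add_iff_right (ENNReal.mul_ne_top (measure_ne_top _ _) (by simp))).mp h2

theorem good_lower {T : ℝ} (hT : 0 ≤ T) (C : ℝ≥0∞) (hC : 1 + (n * ENNReal.ofReal T) * C ≤ C) (l : ℕ)
    (u : List (Fin N)) (q : Fin 4)
    (herr : ((l + 1 : ℕ) : ℝ≥0∞) * (n + 1 : ℕ) * ENNReal.ofReal (T ^ 2) +
      ((J : ℝ≥0∞) * n * ENNReal.ofReal (T ^ 2) +
      (((l + 1 : ℕ) : ℝ≥0∞) * (l + 1 : ℕ) * ENNReal.ofReal T +
      ((J : ℝ≥0∞) * (ENNReal.ofReal T * C) +
      ((l + 1 : ℕ) : ℝ≥0∞) * (l + 1 : ℕ) * (ENNReal.ofReal T * C)))) ≤ 2⁻¹) :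
    ∑ k ∈ Finset.Icc 2 l, ((J * n.descFactorial k : ℕ) : ℝ≥0∞) *
      (ENNReal.ofReal ((T * Real.exp (-T)) ^ (k + 1) / 16) * 2⁻¹)
      ≤ stirLaw (TV J n N) T {ω | Good ω u q} := by
  classical
  set S : Finset (Σ k : ℕ, Fin J × (Fin k ↪ Fin n)) :=
    (Finset.Icc 2 l).sigma fun k => (Finset.univ : Finset (Fin J × (Fin k ↪ Fin n))) with hS
  set E : (Σ k : ℕ, Fin J × (Fin k ↪ Fin n)) → Set (Cfg (TV J n N)) := fun g =>
    {ω | Cyc ω u g.2.1 g.2.2 q} ∩ {ω | Clear ω u g.2.1 g.2.2} with hE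
  have hsub : (⋃ g ∈ S, E g) ⊆ {ω | Good ω u q} := by
    intro ω hω
    rw [Set.mem_iUnion₂] at hω
    obtain ⟨g, hg, h1, h2⟩ := hω
    rw [hS, Finset.mem_sigma, Finset.mem_Icc] at hg
    exact ⟨g, hg.1.1, h1, h2⟩
  have hdis : (S : Set (Σ k : ℕ, Fin J × (Fin k ↪ Fin n))).PairwiseDisjoint E := by
    rintro ⟨k, j, γ⟩ hg ⟨k', j', γ'⟩ hg' hne
    rw [hS, Finset.mem_coe, Finset.mem_sigma, Finset.mem_Icc] at hg hg'
    rw [Function.onFun, Set.disjoint_left]
    rintro ω ⟨h1, h2⟩ ⟨h3, -⟩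
    exact hne (uniq hg.1.1 hg'.1.1 h1 h2 h3)
  refine le_trans ?_ (measure_mono hsub)
  rw [measure_biUnion_finset hdis fun g _ => (cyc_meas _ _ _ _).inter (clear_meas _ _ _), hS,
    Finset.sum_sigma]
  refine Finset.sum_le_sum fun k hk => ?_
  rw [Finset.mem_Icc] at hk
  calc ((J * n.descFactorial k : ℕ) : ℝ≥0∞) * (ENNReal.ofReal ((T * Real.exp (-T)) ^ (k + 1) / 16) * 2⁻¹)
      = ∑ g : Fin J × (Fin k ↪ Fin n), ENNReal.ofReal ((T * Real.exp (-T)) ^ (k + 1) / 16) * 2⁻¹ := by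
        rw [Finset.sum_const, Finset.card_univ, Fintype.card_prod, Fintype.card_fin,
          Fintype.card_embedding_eq, Fintype.card_fin, Fintype.card_fin, nsmul_eq_mul]
    _ ≤ _ := by
        refine Finset.sum_le_sum fun g _ => ?_
        rw [← cyc_prob hT hk.1 u g.1 g.2 q]
        refine eg_lower hT C hC hk.1 u g.1 g.2 q (le_trans ?_ herr)
        have hkl : k + 1 ≤ l + 1 := by omega
        gcongr <;> omega

end

end Pool.Agent.H592S
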