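import Mathlib
import Pool.Agent.H592S.GoodProb

set_option autoImplicit false
open MeasureTheory ProbabilityTheory
open scoped ENNReal NNReal

namespace Pool.Agent.H592S

noncomputable section

variable {J n N : ℕ}

theorem quarter_eq {q q' : Fin 4} {x : unitInterval} (h : x ∈ Quarter q) (h' : x ∈ Quarter q') :
    q = q' := by
  obtain ⟨h1, h2⟩ := h
  obtain ⟨h3, h4⟩ := h'
  have h5 : (q.val : ℝ) < q'.val + 1 := by linarith
  have h6 : (q'.val : ℝ) < q.val + 1 := by linarith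
  have h7 : q.val < q'.val + 1 := by exact_mod_cast h5
  have h8 : q'.val < q.val + 1 := by exact_mod_cast h6
  exact Fin.ext (by omega)

theorem quarter_ex (x : unitInterval) (h : x ≠ 1) : ∃ q, x ∈ Quarter q := by
  have h0 : (0 : ℝ) ≤ x := unitInterval.nonneg x
  have h1 : (x : ℝ) < 1 := lt_of_le_of_ne (unitInterval.le_one x) fun h' => h (Subtype.ext h')
  by_cases a : (x : ℝ) < 1 / 4
  · refine ⟨0, ?_, ?_⟩ <;> norm_num <;> linarith
  by_cases b : (x : ℝ) < 2 / 4
  · refine ⟨1, ?_, ?_⟩ <;> norm_num <;> linarith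
  by_cases c : (x : ℝ) < 3 / 4
  · refine ⟨2, ?_, ?_⟩ <;> norm_num <;> linarith
  · have e : ((3 : Fin 4).val : ℝ) = 3 := by norm_num
    refine ⟨3, ?_, ?_⟩
    · rw [e]; linarith
    · rw [e]; linarith

/-- active, but not by a single bar in a quarter -/
def badE : Set EdgeData := {a | 1 ≤ a.1} \ ⋃ q, oneQ q

theorem badE_meas : MeasurableSet badE := by
  have h1 : MeasurableSet {a : EdgeData | 1 ≤ a.1} := cnt_meas {k | 1 ≤ k}
  exact h1.diff (MeasurableSet.iUnion fun q => oneQ_meas q)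

theorem badE_prob {T : ℝ} (hT : 0 ≤ T) : edgeLaw T badE ≤ ENNReal.ofReal (T ^ 2) := by
  have hsub : badE ⊆ {a : EdgeData | 2 ≤ a.1} ∪ {a : EdgeData | a.2 0 ∈ ({1} : Set unitInterval)} := by
    rintro a ⟨h1, h2⟩
    by_contra hcon
    rw [Set.mem_union, not_or] at hcon
    obtain ⟨h3, h4⟩ := hcon
    simp only [Set.mem_ofPred_eq, not_le, Set.mem_singleton_iff] at h1 h3 h4
    obtain ⟨q, hq⟩ := quarter_ex _ h4
    exact h2 (Set.mem_iUnion.mpr ⟨q, by omega, hq⟩)
  refine (measure_mono hsub).trans ((measure_union_le _ _).trans ?_)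
  have hm : MeasurableSet ({1} : Set unitInterval) := measurableSet_singleton _
  rw [pos_prob T 0 _ hm, Set.Finite.measure_zero (Set.finite_singleton _), add_zero]
  exact mul_prob hT

theorem entry_meas (q : Fin 4) (u : List (Fin N)) :
    MeasurableSet {ω : Cfg (TV J n N) | Entry ω q u} := by
  cases u with
  | nil => simp [Entry]
  | cons i u => exact ev_meas _ _ (oneQ_meas q)

theorem visB_meas (u0 : List (Fin N)) : ∀ x : List (Fin N),
    MeasurableSet {ω : Cfg (TV J n N) | VisB ω u0 x} := by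
  intro x
  induction x with
  | nil => simp [VisB]
  | cons i x ih =>
    have : {ω : Cfg (TV J n N) | VisB ω u0 (i :: x)}
        = {ω | VisB ω u0 x} ∩ ({ω | (ω (ech (x ++ u0) i)).1 ∈ {k | 1 ≤ k}} ∩
          ({ω | x = []} ∪ (⋃ q, ({ω | Entry ω q (x ++ u0)} ∩
            ((⋂ i', {ω | (ω (ech (x ++ u0) i')).1 ∈ {k | k ≤ 1}}) ∩
            ({ω | ω (ech (x ++ u0) i) ∈ {a : EdgeData | a.2 0 ∈ Quarter (q + 2)}} ∩
              {ω | Good ω (x ++ u0) q}))))ᶜ)) := by
      ext ω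
      simp only [VisB, Prot, Good, Set.mem_inter_iff, Set.mem_union, Set.mem_iUnion, Set.mem_iInter,
        Set.mem_ofPred_eq, Set.mem_compl_iff]
    rw [this]
    refine ih.inter ((cnt_ev_meas _ _).inter ((MeasurableSet.const _).union
      (MeasurableSet.iUnion fun q => ?_).compl))
    exact (entry_meas _ _).inter ((MeasurableSet.iInter fun i' => cnt_ev_meas _ _).inter
      ((ev_meas _ _ (pos_meas 0 _ (quarter_meas _))).inter (good_meas _ _)))

theorem entry_dep {ω ω' : Cfg (TV J n N)} {u0 x : List (Fin N)} (hx : x ≠ []) (q : Fin 4)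
    (h : ∀ e ∈ VS J n u0 x, ω e = ω' e) : Entry ω q (x ++ u0) ↔ Entry ω' q (x ++ u0) := by
  classical
  obtain ⟨i, x, rfl⟩ := List.exists_cons_of_ne_nil hx
  have h1 : ω (ech (x ++ u0) i) = ω' (ech (x ++ u0) i) := h _ (by
    simp only [VS, Finset.mem_union]
    exact Or.inr (Or.inr (mem_CB.mpr ⟨i, rfl⟩)))
  simp only [List.cons_append, Entry, h1]

theorem visB_dep {ω ω' : Cfg (TV J n N)} {u0 : List (Fin N)} : ∀ x : List (Fin N),
    (∀ e ∈ VS J n u0 x, ω e = ω' e) → (VisB ω u0 x ↔ VisB ω' u0 x) := by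
  classical
  intro x
  induction x with
  | nil => intro _; exact Iff.rfl
  | cons i x ih =>
    intro h
    have h1 : ∀ i, ω (ech (x ++ u0) i) = ω' (ech (x ++ u0) i) := fun i => h _ (by
      simp only [VS, Finset.mem_union]
      exact Or.inr (Or.inr (mem_CB.mpr ⟨i, rfl⟩)))
    have h2 : ∀ e ∈ FB J n (x ++ u0), ω e = ω' e := fun e he => h e (by
      simp only [VS, Finset.mem_union]
      exact Or.inr (Or.inl he))
    have h3 : ∀ e ∈ VS J n u0 x, ω e = ω' e := fun e he => h e (by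
      simp only [VS, Finset.mem_union]
      exact Or.inl he)
    have h4 := ih h3
    have h5 : ∀ i q, Prot ω (x ++ u0) i q ↔ Prot ω' (x ++ u0) i q := by
      intro i q
      unfold Prot
      rw [h1 i]
      exact and_congr_right fun _ => good_dep h2 q
    by_cases hx : x = []
    · subst hx
      simp only [VisB, h4, h1, true_or]
    · have h6 : ∀ q, Entry ω q (x ++ u0) ↔ Entry ω' q (x ++ u0) := fun q => entry_dep hx q h3
      simp only [VisB, h4, h1, h5, h6]

/-- the coordinates of a block and its child edges -/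
def BS (J n : ℕ) {N : ℕ} (u : List (Fin N)) : Finset (Sym2 (TV J n N)) := by
  classical
  exact FB J n u ∪ CB J n u

theorem BS_disj {u0 x : List (Fin N)} : Disjoint (VS J n u0 x) (BS J n (x ++ u0)) := by
  classical
  rw [Finset.disjoint_left]
  intro e he he'
  unfold BS at he'
  rw [Finset.mem_union] at he'
  exact VS_disj he (block_level he').2

/-- the child `i` may be entered -/
def DD (J n : ℕ) {N : ℕ} (u : List (Fin N)) (i : Fin N) (q : Fin 4) : Set (Cfg (TV J n N)) :=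
  {ω | ω (ech u i) ∈ {a : EdgeData | 1 ≤ a.1}} \
    ((⋂ i', {ω | (ω (ech u i')).1 ∈ {k | k ≤ 1}}) ∩
      ({ω | ω (ech u i) ∈ {a : EdgeData | a.2 0 ∈ Quarter (q + 2)}} ∩ {ω | Good ω u q}))

theorem DD_meas (u : List (Fin N)) (i : Fin N) (q : Fin 4) : MeasurableSet (DD J n u i q) := by
  have h1 : MeasurableSet {a : EdgeData | 1 ≤ a.1} := cnt_meas {k | 1 ≤ k}
  exact (ev_meas _ _ h1).diff ((MeasurableSet.iInter fun i' => cnt_ev_meas _ _).inter
      ((ev_meas _ _ (pos_meas 0 _ (quarter_meas _))).inter (good_meas _ _)))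

theorem DD_dep (u : List (Fin N)) (i : Fin N) (q : Fin 4) (ω ω' : Cfg (TV J n N))
    (h : ∀ e ∈ BS J n u, ω e = ω' e) : ω ∈ DD J n u i q ↔ ω' ∈ DD J n u i q := by
  classical
  have h1 : ∀ i, ω (ech u i) = ω' (ech u i) := fun i => h _ (by
    unfold BS; exact Finset.mem_union_right _ (mem_CB.mpr ⟨i, rfl⟩))
  have h2 : ∀ e ∈ FB J n u, ω e = ω' e := fun e he => h e (by
    unfold BS; exact Finset.mem_union_left _ he)
  have h3 := good_dep h2 q
  simp only [DD, Set.mem_sdiff, Set.mem_inter_iff, Set.mem_iInter, Set.mem_ofPred_eq, h1, h3]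

theorem ech_notin_FB (u : List (Fin N)) (i : Fin N) : ech (J := J) (n := n) u i ∉ FB J n u := by
  intro h
  obtain ⟨o, o', he⟩ := mem_FB.mp h
  have h1 : ((i :: u, none) : TV J n N) ∈ ech u i := by unfold ech; exact Sym2.mem_mk_right _ _
  rw [he, Sym2.mem_iff] at h1
  rcases h1 with h1 | h1 <;>
  · have := congrArg (fun a : TV J n N => a.1.length) h1
    simp at this

theorem DD_prob {T G : ℝ} (hT : 0 ≤ T) (hG : 0 ≤ G) (u : List (Fin N)) (i : Fin N) (q : Fin 4)
    (hgood : ENNReal.ofReal G ≤ stirLaw (TV J n N) T {ω | Good ω u q}) :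
    stirLaw (TV J n N) T (DD J n u i q)
      ≤ ENNReal.ofReal (T * Real.exp (-T) - T * Real.exp (-T) / 4 * G) +
        (ENNReal.ofReal (T ^ 2) + N * (ENNReal.ofReal T * ENNReal.ofReal (T ^ 2))) := by
  classical
  set μ := stirLaw (TV J n N) T with hμ
  have hp0 : 0 ≤ T * Real.exp (-T) := mul_nonneg hT (Real.exp_pos _).le
  have m1 : MeasurableSet {a : EdgeData | 1 ≤ a.1} := cnt_meas {k | 1 ≤ k}
  have m2 : MeasurableSet {a : EdgeData | 2 ≤ a.1} := cnt_meas {k | 2 ≤ k}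
  have m3 : MeasurableSet {a : EdgeData | a.1 = 1} := cnt_meas {1}
  have hcov : DD J n u i q ⊆ ({ω | ω (ech u i) ∈ {a : EdgeData | a.1 = 1}} \
      ({ω | ω (ech u i) ∈ oneQ (q + 2)} ∩ {ω | Good ω u q})) ∪
      ({ω | ω (ech u i) ∈ {a : EdgeData | 2 ≤ a.1}} ∪ ⋃ i' : Fin N, {ω | i' ≠ i ∧
        ω ∈ {ω : Cfg (TV J n N) | ω (ech u i) ∈ {a : EdgeData | 1 ≤ a.1}} ∩
          {ω | ω (ech u i') ∈ {a : EdgeData | 2 ≤ a.1}}}) := by
    rintro ω ⟨h1, h2⟩
    by_cases hall : ∀ i', (ω (ech u i')).1 ≤ 1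
    · left
      have h3 : (ω (ech u i)).1 = 1 := by
        have := hall i
        simp only [Set.mem_ofPred_eq] at h1
        omega
      refine ⟨h3, fun h4 => h2 ⟨?_, ?_, h4.2⟩⟩
      · rw [Set.mem_iInter]
        exact hall
      · exact h4.1.2
    · right
      push Not at hall
      obtain ⟨i', hi'⟩ := hall
      by_cases hii : i' = i
      · left
        rw [hii] at hi'
        exact hi'
      · right
        exact Set.mem_iUnion.mpr ⟨i', hii, h1, hi'⟩
  refine (measure_mono hcov).trans ((measure_union_le _ _).trans (add_le_add ?_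
    ((measure_union_le _ _).trans (add_le_add ?_ ?_))))
  · have hsub : ({ω : Cfg (TV J n N) | ω (ech u i) ∈ oneQ (q + 2)} ∩ {ω | Good ω u q})
        ⊆ {ω | ω (ech u i) ∈ {a : EdgeData | a.1 = 1}} := fun ω h => h.1.1
    rw [measure_sdiff hsub ((ev_meas _ _ (oneQ_meas _)).inter (good_meas _ _)).nullMeasurableSet
      (measure_ne_top _ _)]
    have hind : μ ({ω : Cfg (TV J n N) | ω (ech u i) ∈ oneQ (q + 2)} ∩ {ω | Good ω u q})
        = μ {ω : Cfg (TV J n N) | ω (ech u i) ∈ oneQ (q + 2)} * μ {ω | Good ω u q} := by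
      rw [hμ]
      unfold stirLaw
      refine indep2 (edgeLaw T) (0, fun _ => 0) {ech u i} (FB J n u) ?_ _ _
        (ev_meas _ _ (oneQ_meas _)) (good_meas _ _) ?_ ?_
      · rw [Finset.disjoint_singleton_left]
        exact ech_notin_FB u i
      · intro ω ω' h
        simp only [Set.mem_ofPred_eq, h _ (Finset.mem_singleton_self _)]
      · intro ω ω' h
        exact good_dep h q
    have e1 : μ {ω : Cfg (TV J n N) | ω (ech u i) ∈ oneQ (q + 2)}
        = ENNReal.ofReal (T * Real.exp (-T) / 4) := by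
      rw [hμ, eval_prob T _ _ (oneQ_meas _)]
      exact oneQ_prob hT _
    rw [hind, e1, hμ, eval_prob T _ _ m3, one_prob hT, ENNReal.ofReal_sub _ (by positivity),
      ENNReal.ofReal_mul (p := T * Real.exp (-T) / 4) (q := G) (by positivity)]
    gcongr
  · rw [hμ, eval_prob T _ _ m2]
    exact mul_prob hT
  · calc μ (⋃ i' : Fin N, {ω | i' ≠ i ∧
        ω ∈ {ω : Cfg (TV J n N) | ω (ech u i) ∈ {a : EdgeData | 1 ≤ a.1}} ∩
          {ω | ω (ech u i') ∈ {a : EdgeData | 2 ≤ a.1}}})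
        ≤ ∑ i' : Fin N, ENNReal.ofReal T * ENNReal.ofReal (T ^ 2) := by
          refine (measure_iUnion_fintype_le _ _).trans (Finset.sum_le_sum fun i' _ => ?_)
          by_cases hii : i' = i
          · refine (measure_mono (t := ∅) fun ω hω => absurd hii hω.1).trans ?_
            rw [measure_empty]
            exact zero_le
          · refine (measure_mono fun ω hω => hω.2).trans ?_
            rw [hμ, two_prob T (fun h => hii (ech_inj h).2.symm) _ _ m1 m2]
            exact mul_le_mul' (act_prob hT) (mul_prob hT)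
      _ = _ := by rw [Finset.sum_const, Finset.card_univ, Fintype.card_fin, nsmul_eq_mul]

/-- visited, and entered by a single bar in the quarter `q` -/
def SQ (J n : ℕ) {N : ℕ} (u0 x : List (Fin N)) (q : Fin 4) : Set (Cfg (TV J n N)) :=
  {ω | VisB ω u0 x} ∩ {ω | Entry ω q (x ++ u0)}

/-- visited, but not like this -/
def MQ (J n : ℕ) {N : ℕ} (u0 x : List (Fin N)) : Set (Cfg (TV J n N)) :=
  {ω | VisB ω u0 x} \ ⋃ q, SQ J n u0 x q

theorem SQ_meas (u0 x : List (Fin N)) (q : Fin 4) : MeasurableSet (SQ J n u0 x q) :=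
  (visB_meas u0 x).inter (entry_meas q _)

theorem MQ_meas (u0 x : List (Fin N)) : MeasurableSet (MQ J n u0 x) :=
  (visB_meas u0 x).diff (MeasurableSet.iUnion fun q => SQ_meas u0 x q)

theorem vis_split {T : ℝ} {u0 x : List (Fin N)} (hx : x ≠ []) :
    stirLaw (TV J n N) T {ω | VisB ω u0 x}
      = ∑ q, stirLaw (TV J n N) T (SQ J n u0 x q) + stirLaw (TV J n N) T (MQ J n u0 x) := by
  have h1 : {ω : Cfg (TV J n N) | VisB ω u0 x} ∩ (⋃ q, SQ J n u0 x q) = ⋃ q, SQ J n u0 x q := by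
    rw [Set.inter_eq_right]
    exact Set.iUnion_subset fun q ω h => h.1
  rw [← measure_inter_add_sdiff {ω : Cfg (TV J n N) | VisB ω u0 x}
    (MeasurableSet.iUnion fun q => SQ_meas (J := J) (n := n) u0 x q), h1, measure_iUnion, tsum_fintype]
  · rfl
  · intro q q' hne
    rw [Function.onFun, Set.disjoint_left]
    rintro ω ⟨-, h2⟩ ⟨-, h3⟩
    obtain ⟨i, x, rfl⟩ := List.exists_cons_of_ne_nil hx
    exact hne (quarter_eq h2.2 h3.2)
  · exact fun q => SQ_meas u0 x q

theorem vis_step {T G : ℝ} (hT : 0 ≤ T) (hG : 0 ≤ G) {u0 x : List (Fin N)} (hx : x ≠ []) (i : Fin N)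
    (hgood : ∀ q, ENNReal.ofReal G ≤ stirLaw (TV J n N) T {ω | Good ω (x ++ u0) q}) :
    stirLaw (TV J n N) T {ω | VisB ω u0 (i :: x)}
      ≤ (ENNReal.ofReal (T * Real.exp (-T) - T * Real.exp (-T) / 4 * G) +
        (ENNReal.ofReal (T ^ 2) + N * (ENNReal.ofReal T * ENNReal.ofReal (T ^ 2)))) *
          ∑ q, stirLaw (TV J n N) T (SQ J n u0 x q) +
        ENNReal.ofReal T * stirLaw (TV J n N) T (MQ J n u0 x) := by
  classical
  have m1 : MeasurableSet {a : EdgeData | 1 ≤ a.1} := cnt_meas {k | 1 ≤ k}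
  have hcov : {ω : Cfg (TV J n N) | VisB ω u0 (i :: x)}
      ⊆ (⋃ q, (SQ J n u0 x q ∩ DD J n (x ++ u0) i q)) ∪
        (MQ J n u0 x ∩ {ω | ω (ech (x ++ u0) i) ∈ {a : EdgeData | 1 ≤ a.1}}) := by
    rintro ω ⟨h1, h2, h3⟩
    by_cases hq : ∃ q, Entry ω q (x ++ u0)
    · obtain ⟨q, hq⟩ := hq
      left
      refine Set.mem_iUnion.mpr ⟨q, ⟨h1, hq⟩, h2, ?_⟩
      rintro ⟨h4, h5, h6⟩
      rcases h3 with h3 | h3
      · exact hx h3
      · rw [Set.mem_iInter] at h4
        exact h3 ⟨q, hq, h4, h5, h6⟩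
    · right
      refine ⟨⟨h1, ?_⟩, h2⟩
      rw [Set.mem_iUnion]
      rintro ⟨q, -, h4⟩
      exact hq ⟨q, h4⟩
  have hdis : Disjoint (VS J n u0 x) (BS J n (x ++ u0)) := BS_disj
  have hSdep : ∀ q, ∀ ω ω' : Cfg (TV J n N), (∀ e ∈ VS J n u0 x, ω e = ω' e) →
      (ω ∈ SQ J n u0 x q ↔ ω' ∈ SQ J n u0 x q) := by
    intro q ω ω' h
    have h1 := visB_dep x h
    have h2 := entry_dep hx q h
    simp only [SQ, Set.mem_inter_iff, Set.mem_ofPred_eq, h1, h2]
  have hMdep : ∀ ω ω' : Cfg (TV J n N), (∀ e ∈ VS J n u0 x, ω e = ω' e) →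
      (ω ∈ MQ J n u0 x ↔ ω' ∈ MQ J n u0 x) := by
    intro ω ω' h
    have h1 := visB_dep x h
    have h2 : ∀ q, ω ∈ SQ J n u0 x q ↔ ω' ∈ SQ J n u0 x q := fun q => hSdep q ω ω' h
    simp only [MQ, Set.mem_sdiff, Set.mem_ofPred_eq, h1, Set.mem_iUnion, h2]
  refine (measure_mono hcov).trans ((measure_union_le _ _).trans (add_le_add ?_ ?_))
  · rw [Finset.mul_sum]
    refine (measure_iUnion_fintype_le _ _).trans (Finset.sum_le_sum fun q _ => ?_)
    have hind : stirLaw (TV J n N) T (SQ J n u0 x q ∩ DD J n (x ++ u0) i q)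
        = stirLaw (TV J n N) T (SQ J n u0 x q) * stirLaw (TV J n N) T (DD J n (x ++ u0) i q) := by
      unfold stirLaw
      exact indep2 (edgeLaw T) (0, fun _ => 0) _ _ hdis _ _ (SQ_meas u0 x q) (DD_meas _ i q)
        (hSdep q) (DD_dep _ i q)
    rw [hind, mul_comm]
    gcongr
    exact DD_prob hT hG _ i q (hgood q)
  · have hind : stirLaw (TV J n N) T (MQ J n u0 x ∩ {ω | ω (ech (x ++ u0) i) ∈ {a : EdgeData | 1 ≤ a.1}})
        = stirLaw (TV J n N) T (MQ J n u0 x) *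
          stirLaw (TV J n N) T {ω | ω (ech (x ++ u0) i) ∈ {a : EdgeData | 1 ≤ a.1}} := by
      unfold stirLaw
      refine indep2 (edgeLaw T) (0, fun _ => 0) _ _ hdis _ _ (MQ_meas u0 x) (ev_meas _ _ m1)
        hMdep ?_
      intro ω ω' h
      have h1 : ω (ech (x ++ u0) i) = ω' (ech (x ++ u0) i) := h _ (by
        unfold BS; exact Finset.mem_union_right _ (mem_CB.mpr ⟨i, rfl⟩))
      simp only [Set.mem_ofPred_eq, h1]
    rw [hind, mul_comm, eval_prob T _ _ m1]
    gcongr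
    exact act_prob hT

theorem bad_step {T : ℝ} (hT : 0 ≤ T) {u0 x : List (Fin N)} (i : Fin N) :
    stirLaw (TV J n N) T (MQ J n u0 (i :: x))
      ≤ ENNReal.ofReal (T ^ 2) * stirLaw (TV J n N) T {ω | VisB ω u0 x} := by
  classical
  have hcov : MQ J n u0 (i :: x) ⊆ {ω | VisB ω u0 x} ∩ {ω | ω (ech (x ++ u0) i) ∈ badE} := by
    rintro ω ⟨⟨h1, h2, h3⟩, h4⟩
    refine ⟨h1, h2, ?_⟩
    rw [Set.mem_iUnion]
    rintro ⟨q, hq⟩
    exact h4 (Set.mem_iUnion.mpr ⟨q, ⟨h1, h2, h3⟩, hq⟩)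
  refine (measure_mono hcov).trans ?_
  have hind : stirLaw (TV J n N) T ({ω | VisB ω u0 x} ∩ {ω | ω (ech (x ++ u0) i) ∈ badE})
      = stirLaw (TV J n N) T {ω | VisB ω u0 x} *
        stirLaw (TV J n N) T {ω | ω (ech (x ++ u0) i) ∈ badE} := by
    unfold stirLaw
    refine indep2 (edgeLaw T) (0, fun _ => 0) (VS J n u0 x) (BS J n (x ++ u0)) BS_disj _ _
      (visB_meas u0 x) (ev_meas _ _ badE_meas) (fun ω ω' h => visB_dep x h) ?_
    intro ω ω' h
    have h1 : ω (ech (x ++ u0) i) = ω' (ech (x ++ u0) i) := h _ (by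
      unfold BS; exact Finset.mem_union_right _ (mem_CB.mpr ⟨i, rfl⟩))
    simp only [Set.mem_ofPred_eq, h1]
  rw [hind, mul_comm, eval_prob T _ _ badE_meas]
  gcongr
  exact badE_prob hT

theorem novis_ae {T G : ℝ} (hT : 0 ≤ T) (hG : 0 ≤ G)
    (hgood : ∀ (u : List (Fin N)) q, ENNReal.ofReal G ≤ stirLaw (TV J n N) T {ω | Good ω u q})
    {r : ℝ≥0∞} (hr : r < 1)
    (h1 : (N : ℝ≥0∞) * ((ENNReal.ofReal (T * Real.exp (-T) - T * Real.exp (-T) / 4 * G) +
        (ENNReal.ofReal (T ^ 2) + N * (ENNReal.ofReal T * ENNReal.ofReal (T ^ 2)))) +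
        3 * ENNReal.ofReal (T ^ 2)) ≤ r)
    (h2 : (N : ℝ≥0∞) * (ENNReal.ofReal T + 3 * ENNReal.ofReal (T ^ 2)) ≤ 4 * r) :
    ∀ᵐ ω ∂(stirLaw (TV J n N) T), ∀ u0 : List (Fin N), ∃ K, ∀ x : List (Fin N), x.length = K →
      ¬ VisB ω u0 x := by
  rw [ae_all_iff]
  intro u0
  rw [ae_iff]
  set μ := stirLaw (TV J n N) T with hμ
  set s : ℝ≥0∞ := ENNReal.ofReal (T * Real.exp (-T) - T * Real.exp (-T) / 4 * G) +
        (ENNReal.ofReal (T ^ 2) + N * (ENNReal.ofReal T * ENNReal.ofReal (T ^ 2))) with hs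
  set w : List (Fin N) → ℝ≥0∞ := fun x => μ {ω | VisB ω u0 x} + 3 * μ (MQ J n u0 x) with hw
  have hw1 : wsum N 1 w ≠ ⊤ := by
    have : wsum N 1 w = ∑ i : Fin N, w [i] := rfl
    rw [this]
    refine ENNReal.sum_ne_top.mpr fun i _ => ?_
    rw [hw]
    exact ENNReal.add_ne_top.mpr ⟨measure_ne_top _ _, ENNReal.mul_ne_top (by simp) (measure_ne_top _ _)⟩
  have hdec : ∀ x : List (Fin N), x ≠ [] → ∑ i, w (i :: x) ≤ r * w x := by
    intro x hx
    have hsp := vis_split (J := J) (n := n) (T := T) (u0 := u0) hx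
    rw [← hμ] at hsp
    set a : ℝ≥0∞ := ∑ q, μ (SQ J n u0 x q) with ha
    set b : ℝ≥0∞ := μ (MQ J n u0 x) with hb
    calc ∑ i, w (i :: x)
        ≤ ∑ i : Fin N, ((s * a + ENNReal.ofReal T * b) + 3 * (ENNReal.ofReal (T ^ 2) * (a + b))) := by
          refine Finset.sum_le_sum fun i _ => ?_
          rw [hw]
          simp only
          refine add_le_add (vis_step hT hG hx i fun q => hgood _ q) ?_
          gcongr
          rw [← hsp]
          exact bad_step hT i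
      _ = (N : ℝ≥0∞) * (s + 3 * ENNReal.ofReal (T ^ 2)) * a +
          (N : ℝ≥0∞) * (ENNReal.ofReal T + 3 * ENNReal.ofReal (T ^ 2)) * b := by
          rw [Finset.sum_const, Finset.card_univ, Fintype.card_fin, nsmul_eq_mul]
          ring
      _ ≤ r * a + (4 * r) * b := by gcongr
      _ = r * (a + b + 3 * b) := by ring
      _ = r * w x := by rw [hw]; simp only; rw [hsp]
  refine tends_zero (C := wsum N 1 w) hr hw1 fun M => ?_
  refine le_trans (measure_mono ?_) ((wsum_union μ (M + 1) fun x => {ω | VisB ω u0 x}).trans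
    ((wsum_mono (M + 1) (g := w) fun x _ => ?_).trans (wsum_decay r w hdec M)))
  · intro ω hω
    rw [Set.mem_ofPred_eq] at hω
    push Not at hω
    obtain ⟨x, h1, h2⟩ := hω (M + 1)
    exact ⟨x, h1, h2⟩
  · rw [hw]
    exact le_self_add

theorem high_finite {T G : ℝ} (hT : 0 < T) (hG : 0 ≤ G)
    (hgood : ∀ (u : List (Fin N)) q, ENNReal.ofReal G ≤ stirLaw (TV J n N) T {ω | Good ω u q})
    {r : ℝ≥0∞} (hr : r < 1)
    (h1 : (N : ℝ≥0∞) * ((ENNReal.ofReal (T * Real.exp (-T) - T * Real.exp (-T) / 4 * G) +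
        (ENNReal.ofReal (T ^ 2) + N * (ENNReal.ofReal T * ENNReal.ofReal (T ^ 2)))) +
        3 * ENNReal.ofReal (T ^ 2)) ≤ r)
    (h2 : (N : ℝ≥0∞) * (ENNReal.ofReal T + 3 * ENNReal.ofReal (T ^ 2)) ≤ 4 * r) :
    ∀ᵐ ω ∂(stirLaw (TV J n N) T), ∀ v, (stirCycle (treeG J n N) T ω v).Finite := by
  filter_upwards [regular_ae (treeG J n N) hT,
    novis_ae (J := J) (n := n) hT.le hG hgood hr h1 h2] with ω hR hV v
  exact all_finite hT hR hV v

theorem not_mem_of_finite {V : Type} {G : SimpleGraph V} {T : ℝ}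
    (h : ∀ᵐ ω ∂(stirLaw V T), ∀ v, (stirCycle G T ω v).Finite) : T ∉ infiniteSet G := by
  rintro ⟨-, h'⟩
  obtain ⟨ω, ⟨v, hv⟩, hω⟩ := (h'.and h).exists
  exact hv (hω v)

end

end Pool.Agent.H592S
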