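import Mathlib
import Pool.Agent.H592S.HighFin

set_option autoImplicit false
open MeasureTheory ProbabilityTheory
open scoped ENNReal NNReal

namespace Pool.Agent.H592S

noncomputable section

theorem nn (a : ℕ) : (a : ℝ≥0∞) = ENNReal.ofReal a := (ENNReal.ofReal_natCast a).symm

theorem half_eq : (2⁻¹ : ℝ≥0∞) = ENNReal.ofReal (1 / 2) := by
  rw [one_div, ENNReal.ofReal_inv_of_pos (by norm_num)]
  norm_num

theorem nnr (a b : ℕ) (x : ℝ) : (a : ℝ≥0∞) * b * ENNReal.ofReal x = ENNReal.ofReal (a * b * x) := by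
  rw [ENNReal.ofReal_mul (by positivity), ENNReal.ofReal_mul (by positivity), nn a, nn b]

theorem nr (a : ℕ) (x : ℝ) : (a : ℝ≥0∞) * ENNReal.ofReal x = ENNReal.ofReal (a * x) := by
  rw [ENNReal.ofReal_mul (by positivity), nn a]

/-- the terms of the sum for the gadgets -/
theorem term_lower {n k : ℕ} {T : ℝ} (hn : (n : ℝ) = 2 ^ 100) (hT : T = (1 - 1 / 2 ^ 28) / 2 ^ 100)
    (hk : (k : ℝ) + 1 ≤ 2 ^ 26) :
    5 / 8 ≤ (n : ℝ) * n.descFactorial k * (T * Real.exp (-T)) ^ (k + 1) := by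
  have hT0 : 0 ≤ T := by rw [hT]; norm_num
  have hT1 : T ≤ 1 / 2 ^ 100 := by rw [hT]; norm_num
  have hk0 : (0 : ℝ) ≤ k := Nat.cast_nonneg k
  have hkn : k ≤ n := by
    have : (k : ℝ) ≤ n := by rw [hn]; linarith [show (2 : ℝ) ^ 26 ≤ 2 ^ 100 by norm_num]
    exact_mod_cast this
  have h1 : (((n - k : ℕ) : ℝ)) ^ k ≤ n.descFactorial k := by
    have h2 := Nat.pow_sub_le_descFactorial n k
    have h3 : (n - k) ^ k ≤ (n + 1 - k) ^ k := Nat.pow_le_pow_left (by omega) _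
    exact_mod_cast h3.trans h2
  rw [Nat.cast_sub hkn] at h1
  have he : 1 - T ≤ Real.exp (-T) := by
    have := Real.add_one_le_exp (-T)
    linarith
  have h2 : (T * (1 - T)) ^ (k + 1) ≤ (T * Real.exp (-T)) ^ (k + 1) := by
    refine pow_le_pow_left₀ (mul_nonneg hT0 (by linarith [show (1 : ℝ) / 2 ^ 100 ≤ 1 by norm_num])) ?_ _
    exact mul_le_mul_of_nonneg_left he hT0
  have hb1 : 1 + ((k + 1 : ℕ) : ℝ) * (-(1 / 2 ^ 28)) ≤ (1 + -(1 / 2 ^ 28)) ^ (k + 1) :=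
    one_add_mul_le_pow (by norm_num) _
  have hb2 : 1 + ((k + 1 : ℕ) : ℝ) * (-T) ≤ (1 + -T) ^ (k + 1) :=
    one_add_mul_le_pow (by linarith [show (1 : ℝ) / 2 ^ 100 ≤ 1 by norm_num]) _
  have hkk : (k : ℝ) / 2 ^ 100 ≤ 1 / 2 ^ 74 := by
    have h : (k : ℝ) ≤ 2 ^ 26 := by linarith
    calc (k : ℝ) / 2 ^ 100 ≤ 2 ^ 26 / 2 ^ 100 := by gcongr
      _ = 1 / 2 ^ 74 := by norm_num
  have hb3 : 1 + (k : ℝ) * (-((k : ℝ) / 2 ^ 100)) ≤ (1 + -((k : ℝ) / 2 ^ 100)) ^ k :=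
    one_add_mul_le_pow (by linarith [show (1 : ℝ) / 2 ^ 74 ≤ 1 by norm_num]) _
  have g1 : 3 / 4 ≤ (1 + -(1 / 2 ^ 28 : ℝ)) ^ (k + 1) := by
    refine le_trans ?_ hb1
    push_cast
    norm_num at hk ⊢
    linarith
  have g2 : 1 - 1 / 2 ^ 10 ≤ (1 + -T) ^ (k + 1) := by
    refine le_trans ?_ hb2
    push_cast
    have : ((k : ℝ) + 1) * T ≤ 2 ^ 26 * (1 / 2 ^ 100) := mul_le_mul hk hT1 hT0 (by positivity)
    norm_num at this ⊢
    linarith
  have g3 : 1 - 1 / 2 ^ 10 ≤ (1 + -((k : ℝ) / 2 ^ 100)) ^ k := by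
    refine le_trans ?_ hb3
    have : (k : ℝ) * ((k : ℝ) / 2 ^ 100) ≤ 2 ^ 26 * (1 / 2 ^ 74) :=
      mul_le_mul (by linarith) hkk (by positivity) (by positivity)
    norm_num at this ⊢
    linarith
  have e1 : (n : ℝ) * ((n : ℝ) - k) ^ k * (T * (1 - T)) ^ (k + 1)
      = (1 + -(1 / 2 ^ 28 : ℝ)) ^ (k + 1) * (1 + -T) ^ (k + 1) * (1 + -((k : ℝ) / 2 ^ 100)) ^ k := by
    have e2 : (n : ℝ) - k = 2 ^ 100 * (1 + -((k : ℝ) / 2 ^ 100)) := by
      rw [hn]; field_simp; ring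
    have e3 : T * (1 - T) = (1 + -(1 / 2 ^ 28 : ℝ)) * (1 + -T) * (1 / 2 ^ 100) := by
      rw [hT]; ring
    rw [e2, e3, hn, mul_pow, mul_pow, mul_pow, pow_succ (1 / 2 ^ 100 : ℝ) k, one_div_pow]
    have : ((2 : ℝ) ^ 100) ^ k ≠ 0 := by positivity
    field_simp
  have hnk : 0 ≤ (n : ℝ) - k := by
    have : (k : ℝ) ≤ n := by exact_mod_cast hkn
    linarith
  calc (5 : ℝ) / 8 ≤ 3 / 4 * (1 - 1 / 2 ^ 10) * (1 - 1 / 2 ^ 10) := by norm_num
    _ ≤ (1 + -(1 / 2 ^ 28 : ℝ)) ^ (k + 1) * (1 + -T) ^ (k + 1) * (1 + -((k : ℝ) / 2 ^ 100)) ^ k := by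
        refine mul_le_mul (mul_le_mul g1 g2 (by norm_num) ?_) g3 (by norm_num) ?_
        · linarith
        · exact mul_nonneg (by linarith) (le_trans (by norm_num) g2)
    _ = (n : ℝ) * ((n : ℝ) - k) ^ k * (T * (1 - T)) ^ (k + 1) := e1.symm
    _ ≤ (n : ℝ) * n.descFactorial k * (T * Real.exp (-T)) ^ (k + 1) := by
        refine mul_le_mul (mul_le_mul_of_nonneg_left h1 (Nat.cast_nonneg _)) h2 ?_ (by positivity)
        exact pow_nonneg (mul_nonneg hT0 (by linarith [show (1 : ℝ) / 2 ^ 100 ≤ 1 by norm_num])) _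

theorem high_side {J n N : ℕ} (hJ : (J : ℝ) = 2 ^ 68) (hn : (n : ℝ) = 2 ^ 100)
    (hN : (N : ℝ) = 2 ^ 100 + 7 * 2 ^ 83) :
    ∀ᵐ ω ∂(stirLaw (TV J n N) ((1 - 1 / 2 ^ 28) / 2 ^ 100)),
      ∀ v, (stirCycle (treeG J n N) ((1 - 1 / 2 ^ 28) / 2 ^ 100) ω v).Finite := by
  obtain ⟨T, hT⟩ : ∃ T : ℝ, T = (1 - 1 / 2 ^ 28) / 2 ^ 100 := ⟨_, rfl⟩
  rw [← hT]
  have hT0 : 0 < T := by rw [hT]; norm_num
  have he : 1 - T ≤ Real.exp (-T) := by
    have := Real.add_one_le_exp (-T)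
    linarith
  have he1 : Real.exp (-T) ≤ 1 := Real.exp_le_one_iff.mpr (by linarith)
  obtain ⟨l, hl⟩ : ∃ l : ℕ, (l : ℝ) + 1 = 2 ^ 26 := ⟨2 ^ 26 - 1, by norm_num⟩
  have hl' : ((l + 1 : ℕ) : ℝ) = 2 ^ 26 := by push_cast; exact hl
  have hn' : ((n + 1 : ℕ) : ℝ) = 2 ^ 100 + 1 := by push_cast; rw [hn]
  refine high_finite (G := 1 / 2 ^ 12) (r := ENNReal.ofReal (1 - 1 / 2 ^ 18)) hT0 (by positivity)
    (fun u q => ?_) ?_ ?_ ?_
  · refine le_trans ?_ (good_lower hT0.le (ENNReal.ofReal (2 ^ 28)) ?_ l u q ?_)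
    · calc ENNReal.ofReal (1 / 2 ^ 12) ≤ ENNReal.ofReal (((l - 1 : ℕ) : ℝ) * (5 / 8 / 2 ^ 37)) := by
            refine ENNReal.ofReal_le_ofReal ?_
            have h2 : 1 ≤ l := by
              have : (1 : ℝ) ≤ l := by linarith [show (2 : ℝ) ≤ 2 ^ 26 by norm_num]
              exact_mod_cast this
            rw [Nat.cast_sub h2, show (l : ℝ) = 2 ^ 26 - 1 by linarith]
            norm_num
        _ = ∑ k ∈ Finset.Icc 2 l, ENNReal.ofReal (5 / 8 / 2 ^ 37) := by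
            rw [Finset.sum_const, Nat.card_Icc, nsmul_eq_mul, nr]
            congr 3
        _ ≤ _ := by
            refine Finset.sum_le_sum fun k hk => ?_
            rw [Finset.mem_Icc] at hk
            rw [half_eq, ← ENNReal.ofReal_mul (by positivity), nr]
            refine ENNReal.ofReal_le_ofReal ?_
            have hk' : (k : ℝ) + 1 ≤ 2 ^ 26 := by
              have : (k : ℝ) ≤ l := by exact_mod_cast hk.2
              linarith
            have h3 := term_lower hn hT hk'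
            have hJn : (J : ℝ) = n / 2 ^ 32 := by rw [hJ, hn]; norm_num
            push_cast
            rw [hJn]
            calc (5 : ℝ) / 8 / 2 ^ 37 ≤ ((n : ℝ) * n.descFactorial k * (T * Real.exp (-T)) ^ (k + 1)) / 2 ^ 37 := by
                  gcongr
              _ = _ := by ring
    · rw [← ENNReal.ofReal_one, nr, ← ENNReal.ofReal_mul (by positivity),
        ← ENNReal.ofReal_add (by norm_num) (by positivity)]
      refine ENNReal.ofReal_le_ofReal ?_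
      rw [hn, hT]
      norm_num
    · rw [nnr, nnr, nnr, ← ENNReal.ofReal_mul hT0.le, nr, nnr, half_eq,
        ← ENNReal.ofReal_add (by positivity) (by positivity),
        ← ENNReal.ofReal_add (by positivity) (by positivity),
        ← ENNReal.ofReal_add (by positivity) (by positivity),
        ← ENNReal.ofReal_add (by positivity) (by positivity)]
      refine ENNReal.ofReal_le_ofReal ?_
      rw [hl', hn', hJ, hn, hT]
      norm_num
  · rw [← ENNReal.ofReal_one]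
    exact (ENNReal.ofReal_lt_ofReal_iff (by norm_num)).mpr (by norm_num)
  · have hp : T * Real.exp (-T) - T * Real.exp (-T) / 4 * (1 / 2 ^ 12) ≤ T * (1 - 1 / 2 ^ 14) := by
      have h1 : T * Real.exp (-T) ≤ T := by
        nlinarith
      have h2 : T * Real.exp (-T) - T * Real.exp (-T) / 4 * (1 / 2 ^ 12)
          = (T * Real.exp (-T)) * (1 - 1 / 2 ^ 14) := by ring
      rw [h2]
      exact mul_le_mul_of_nonneg_right h1 (by norm_num)
    have h3 : (3 : ℝ≥0∞) = ENNReal.ofReal 3 := by norm_num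
    calc (N : ℝ≥0∞) * ((ENNReal.ofReal (T * Real.exp (-T) - T * Real.exp (-T) / 4 * (1 / 2 ^ 12)) +
        (ENNReal.ofReal (T ^ 2) + N * (ENNReal.ofReal T * ENNReal.ofReal (T ^ 2)))) +
        3 * ENNReal.ofReal (T ^ 2))
        ≤ (N : ℝ≥0∞) * ((ENNReal.ofReal (T * (1 - 1 / 2 ^ 14)) +
        (ENNReal.ofReal (T ^ 2) + N * (ENNReal.ofReal T * ENNReal.ofReal (T ^ 2)))) +
        3 * ENNReal.ofReal (T ^ 2)) := by gcongr
      _ ≤ ENNReal.ofReal (1 - 1 / 2 ^ 18) := by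
        have hp0 : 0 ≤ T * (1 - 1 / 2 ^ 14) := mul_nonneg hT0.le (by norm_num)
        rw [h3, ← ENNReal.ofReal_mul (p := 3) (q := T ^ 2) (by norm_num),
          ← ENNReal.ofReal_mul (p := T) (q := T ^ 2) hT0.le, nr,
          ← ENNReal.ofReal_add (by positivity) (by positivity),
          ← ENNReal.ofReal_add hp0 (by positivity),
          ← ENNReal.ofReal_add (by positivity) (by positivity), nr]
        refine ENNReal.ofReal_le_ofReal ?_
        rw [hN, hT]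
        norm_num
  · have h3 : (3 : ℝ≥0∞) = ENNReal.ofReal 3 := by norm_num
    have h4 : (4 : ℝ≥0∞) = ENNReal.ofReal 4 := by norm_num
    rw [h3, h4, ← ENNReal.ofReal_mul (by norm_num), ← ENNReal.ofReal_add (by positivity) (by positivity),
      nr, ← ENNReal.ofReal_mul (by norm_num)]
    refine ENNReal.ofReal_le_ofReal ?_
    rw [hN, hT]
    norm_num

end

end Pool.Agent.H592S
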