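import Mathlib
import Pool.Agent.H592S.Num

set_option autoImplicit false
open MeasureTheory ProbabilityTheory
open scoped ENNReal NNReal

namespace Pool.Agent.H592S

noncomputable section

theorem pow_upper (x : ℝ) (h0 : 0 ≤ x) (h1 : x ≤ 1) (N : ℕ) :
    (1 - x) ^ N ≤ 1 - N * x + (N * x) ^ 2 / 2 := by
  induction N with
  | zero => simp
  | succ N ih =>
    have hN : (0 : ℝ) ≤ N := Nat.cast_nonneg N
    calc (1 - x) ^ (N + 1) = (1 - x) ^ N * (1 - x) := pow_succ _ _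
      _ ≤ (1 - N * x + (N * x) ^ 2 / 2) * (1 - x) := mul_le_mul_of_nonneg_right ih (by linarith)
      _ ≤ _ := by
          push_cast
          have h2 : 0 ≤ (N * x) ^ 2 * x := by positivity
          nlinarith [sq_nonneg x]

theorem surv_num {N : ℕ} {π T σ r p1 : ℝ} (hT0 : 0 ≤ T) (hT1 : T ≤ 1) (hσ0 : 0 ≤ σ) (hσ1 : σ ≤ 1)
    (hπ : 0 ≤ π) (hr : r = Real.exp (-T) + T * Real.exp (-T)) (hp1 : p1 = T * Real.exp (-T))
    (hM : (N : ℝ) * T ≤ 2) (hN2 : 0 ≤ 1 - (N : ℝ) * T ^ 2)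
    (hmain : 1 ≤ π * ((1 - (N : ℝ) * T ^ 2) * ((N : ℝ) * T * (1 - T)) * (1 - σ))) :
    σ ≤ π * (r ^ N - (r - p1 * σ) ^ N) := by
  have he : 1 - T ≤ Real.exp (-T) := by
    have := Real.add_one_le_exp (-T)
    linarith
  have he1 : Real.exp (-T) ≤ 1 := Real.exp_le_one_iff.mpr (by linarith)
  have he0 : 0 < Real.exp (-T) := Real.exp_pos _
  have hp0 : 0 ≤ p1 := by rw [hp1]; positivity
  have hpT : p1 ≤ T := by rw [hp1]; nlinarith
  have hpl : T * (1 - T) ≤ p1 := by rw [hp1]; exact mul_le_mul_of_nonneg_left he hT0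
  have hrl : 1 - T ^ 2 ≤ r := by rw [hr]; nlinarith
  have hr1 : r ≤ 1 := by
    have h1 := Real.add_one_le_exp T
    have h2 : Real.exp T * Real.exp (-T) = 1 := by rw [← Real.exp_add]; simp
    have h3 : (T + 1) * Real.exp (-T) ≤ Real.exp T * Real.exp (-T) :=
      mul_le_mul_of_nonneg_right h1 he0.le
    rw [hr]; linarith
  have hpr : p1 ≤ r := by rw [hr, hp1]; linarith
  have hN0 : (0 : ℝ) ≤ N := Nat.cast_nonneg N
  set x := p1 * σ with hx
  have hx0 : 0 ≤ x := mul_nonneg hp0 hσ0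
  have hxp : x ≤ p1 := by rw [hx]; nlinarith
  have hx1 : x ≤ 1 := by linarith
  have hr0 : 0 ≤ r := by linarith
  have h1 : (r - x) ^ N ≤ r ^ N * (1 - x) ^ N := by
    rw [← mul_pow]
    refine pow_le_pow_left₀ (by linarith) ?_ _
    nlinarith
  have h2 := pow_upper x hx0 hx1 N
  have h3 : 1 + (N : ℝ) * (-(T ^ 2)) ≤ (1 + -(T ^ 2)) ^ N := one_add_mul_le_pow (by nlinarith) _
  have h4 : 1 - (N : ℝ) * T ^ 2 ≤ r ^ N := by
    refine le_trans (by linarith) (h3.trans (pow_le_pow_left₀ (by nlinarith) (by linarith) _))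
  have hNx : (N : ℝ) * x ≤ 2 * σ := by
    have h5 : (N : ℝ) * p1 ≤ 2 := le_trans (mul_le_mul_of_nonneg_left hpT hN0) hM
    calc (N : ℝ) * x = (N * p1) * σ := by rw [hx]; ring
      _ ≤ 2 * σ := mul_le_mul_of_nonneg_right h5 hσ0
  have hNx' : (N : ℝ) * T * (1 - T) * σ ≤ N * x := by
    calc (N : ℝ) * T * (1 - T) * σ = N * (T * (1 - T)) * σ := by ring
      _ ≤ N * p1 * σ := by gcongr
      _ = N * x := by rw [hx]; ring
  have h6 : (N : ℝ) * x * (1 - σ) ≤ 1 - (1 - x) ^ N := by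
    have h7 : 0 ≤ (N : ℝ) * x := by positivity
    nlinarith
  have h8 : (N : ℝ) * T * (1 - T) * σ * (1 - σ) ≤ 1 - (1 - x) ^ N :=
    le_trans (mul_le_mul_of_nonneg_right hNx' (by linarith)) h6
  have h9 : 0 ≤ (N : ℝ) * T * (1 - T) * σ * (1 - σ) := by
    have : 0 ≤ 1 - T := by linarith
    have : 0 ≤ 1 - σ := by linarith
    positivity
  have h10 : (1 - (N : ℝ) * T ^ 2) * ((N : ℝ) * T * (1 - T) * σ * (1 - σ)) ≤ r ^ N - (r - x) ^ N := by
    calc (1 - (N : ℝ) * T ^ 2) * ((N : ℝ) * T * (1 - T) * σ * (1 - σ))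
        ≤ r ^ N * (1 - (1 - x) ^ N) := mul_le_mul h4 h8 h9 (pow_nonneg hr0 _)
      _ = r ^ N - r ^ N * (1 - x) ^ N := by ring
      _ ≤ r ^ N - (r - x) ^ N := by linarith
  calc σ = σ * 1 := by ring
    _ ≤ σ * (π * ((1 - (N : ℝ) * T ^ 2) * ((N : ℝ) * T * (1 - T)) * (1 - σ))) :=
        mul_le_mul_of_nonneg_left hmain hσ0
    _ = π * ((1 - (N : ℝ) * T ^ 2) * ((N : ℝ) * T * (1 - T) * σ * (1 - σ))) := by ring
    _ ≤ π * (r ^ N - (r - x) ^ N) := mul_le_mul_of_nonneg_left h10 hπ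

theorem low_side {J n N : ℕ} (hJ : (J : ℝ) = 2 ^ 68) (hn : (n : ℝ) = 2 ^ 100)
    (hN : (N : ℝ) = 2 ^ 100 + 7 * 2 ^ 83) :
    ((1 - 1 / 2 ^ 16) / 2 ^ 100 : ℝ) ∈ infiniteSet (treeG J n N) := by
  obtain ⟨T, hT⟩ : ∃ T : ℝ, T = (1 - 1 / 2 ^ 16) / 2 ^ 100 := ⟨_, rfl⟩
  rw [← hT]
  have hT0 : 0 < T := by rw [hT]; norm_num
  have hT1 : T ≤ 1 := by rw [hT]; norm_num
  have he : 1 - T ≤ Real.exp (-T) := by
    have := Real.add_one_le_exp (-T)
    linarith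
  have hN2 : 2 ≤ N := by
    have : (2 : ℝ) ≤ N := by rw [hN]; norm_num
    exact_mod_cast this
  have hne : (⟨1, by omega⟩ : Fin N) ≠ ⟨0, by omega⟩ := by
    intro h
    have := congrArg Fin.val h
    simp at this
  refine low_mem hT0 (β := ENNReal.ofReal (99 / 100)) ?_ ?_ (σ := 1 / 2 ^ 28) (by norm_num)
    (surv_lower hT0.le (1 - 1 / 2 ^ 16 - 1 / 2 ^ 32) _ _ (1 / 2 ^ 28) (by norm_num) (by norm_num)
      (by norm_num) (fun u => ?_) rfl rfl ?_) hne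
  · rw [← ENNReal.ofReal_one]
    exact (ENNReal.ofReal_lt_ofReal_iff (by norm_num)).mpr (by norm_num)
  · rw [nnr]
    refine ENNReal.ofReal_le_ofReal ?_
    have h1 : T ^ 2 - (T * Real.exp (-T) / 4) ^ 2 ≤ T ^ 2 - (T * (1 - T) / 4) ^ 2 := by
      have h2 : (T * (1 - T) / 4) ^ 2 ≤ (T * Real.exp (-T) / 4) ^ 2 := by
        have h3 : 0 ≤ 1 - T := by linarith
        refine pow_le_pow_left₀ (by positivity) ?_ _
        gcongr
      linarith
    calc (N : ℝ) * N * (T ^ 2 - (T * Real.exp (-T) / 4) ^ 2)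
        ≤ (N : ℝ) * N * (T ^ 2 - (T * (1 - T) / 4) ^ 2) := by gcongr
      _ ≤ 99 / 100 := by
          rw [hN, hT]
          norm_num
  · have h1 := triv_prob (J := J) (n := n) (N := N) hT0.le (ENNReal.ofReal (2 ^ 16)) ?_ u
    · rw [nnr, ← ENNReal.ofReal_mul hT0.le, nr, ← ENNReal.ofReal_add (by positivity) (by positivity)] at h1
      have h2 : {ω : Cfg (TV J n N) | ¬ Triv ω u} = {ω | Triv ω u}ᶜ := rfl
      rw [h2, prob_compl_eq_one_sub (triv_meas u)] at h1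
      have h3 : (J : ℝ) * n * T ^ 2 + J * (T * 2 ^ 16) ≤ 1 / 2 ^ 16 + 1 / 2 ^ 32 := by
        rw [hJ, hn, hT]
        norm_num
      have h4 := h1.trans (ENNReal.ofReal_le_ofReal h3)
      rw [tsub_le_iff_right] at h4
      have h5 : ENNReal.ofReal (1 - 1 / 2 ^ 16 - 1 / 2 ^ 32) + ENNReal.ofReal (1 / 2 ^ 16 + 1 / 2 ^ 32) = 1 := by
        rw [← ENNReal.ofReal_add (by norm_num) (by norm_num), ← ENNReal.ofReal_one]
        congr 1
        norm_num
      rw [← h5, add_comm (ENNReal.ofReal (1 / 2 ^ 16 + 1 / 2 ^ 32))] at h4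
      exact (ENNReal.add_le_add_iff_right ENNReal.ofReal_ne_top).mp h4
    · rw [← ENNReal.ofReal_one, nr, ← ENNReal.ofReal_mul (by positivity),
        ← ENNReal.ofReal_add (by norm_num) (by positivity)]
      refine ENNReal.ofReal_le_ofReal ?_
      rw [hn, hT]
      norm_num
  · refine surv_num hT0.le hT1 (by norm_num) (by norm_num) (by norm_num) rfl rfl ?_ ?_ ?_
    · rw [hN, hT]; norm_num
    · rw [hN, hT]; norm_num
    · rw [hN, hT]; norm_num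

end

end Pool.Agent.H592S
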