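import Mathlib
import Pool.Agent.H592S.NumLow

set_option autoImplicit false
open MeasureTheory ProbabilityTheory
open scoped ENNReal NNReal

namespace Pool.Agent.H592S

noncomputable section

variable {J n N : ℕ}

theorem wsum_const (K : ℕ) (c : ℝ≥0∞) : wsum N K (fun _ => c) = (N : ℝ≥0∞) ^ K * c := by
  induction K generalizing c with
  | zero => simp [wsum]
  | succ K ih =>
    show wsum N K (fun _ => ∑ _i : Fin N, c) = _
    rw [Finset.sum_const, Finset.card_univ, Fintype.card_fin, nsmul_eq_mul, ih, pow_succ]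
    ring

/-- subintervals of the time interval -/
def Iv (L s : ℕ) : Set unitInterval := {x | (s : ℝ) ≤ L * x ∧ (L : ℝ) * x < s + 1}

theorem iv_meas (L s : ℕ) : MeasurableSet (Iv L s) := by
  unfold Iv
  have h : Measurable fun x : unitInterval => (L : ℝ) * (x : ℝ) := by fun_prop
  exact (measurableSet_le measurable_const h).inter (measurableSet_lt h measurable_const)

theorem iv_vol {L : ℕ} (hL : 0 < L) (s : ℕ) :
    (volume : Measure unitInterval) (Iv L s) ≤ ENNReal.ofReal (1 / L) := by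
  have hL' : (0 : ℝ) < L := by exact_mod_cast hL
  rw [unitInterval.volume_apply]
  have hsub : Subtype.val '' (Iv L s) ⊆ Set.Ico ((s : ℝ) / L) (((s : ℝ) + 1) / L) := by
    rintro _ ⟨x, ⟨h1, h2⟩, rfl⟩
    constructor
    · rw [div_le_iff₀ hL']; linarith
    · rw [lt_div_iff₀ hL']; linarith
  refine (measure_mono hsub).trans ?_
  rw [Real.volume_Ico]
  refine ENNReal.ofReal_le_ofReal (le_of_eq ?_)
  ring

/-- a bar in the subinterval -/
def BI (L s : ℕ) : Set EdgeData := {a | ∃ i < a.1, a.2 i ∈ Iv L s}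

theorem BI_meas (L s : ℕ) : MeasurableSet (BI L s) := by
  have : BI L s = ⋃ i : ℕ, ({a : EdgeData | a.1 ∈ {k | i < k}} ∩ {a | a.2 i ∈ Iv L s}) := by
    ext a
    simp [BI]
  rw [this]
  exact MeasurableSet.iUnion fun i => (cnt_meas _).inter (pos_meas i _ (iv_meas L s))

theorem BI_prob (T : ℝ) {L : ℕ} (hL : 0 < L) (s M : ℕ) :
    edgeLaw T (BI L s) ≤ edgeLaw T {a | M < a.1} + M * ENNReal.ofReal (1 / L) := by
  have hsub : BI L s ⊆ {a : EdgeData | M < a.1} ∪ ⋃ i : Fin M, {a | a.2 i.val ∈ Iv L s} := by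
    rintro a ⟨i, h1, h2⟩
    by_cases h : M < a.1
    · exact Or.inl h
    · exact Or.inr (Set.mem_iUnion.mpr ⟨⟨i, by omega⟩, h2⟩)
  refine (measure_mono hsub).trans ((measure_union_le _ _).trans (add_le_add le_rfl ?_))
  calc edgeLaw T (⋃ i : Fin M, {a : EdgeData | a.2 i.val ∈ Iv L s})
      ≤ ∑ i : Fin M, ENNReal.ofReal (1 / L) := by
        refine (measure_iUnion_fintype_le _ _).trans (Finset.sum_le_sum fun i _ => ?_)
        rw [pos_prob T _ _ (iv_meas L s)]
        exact iv_vol hL s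
    _ = _ := by rw [Finset.sum_const, Finset.card_univ, Fintype.card_fin, nsmul_eq_mul]

theorem tail_small (T : ℝ) {δ : ℝ≥0∞} (hδ : 0 < δ) : ∃ M : ℕ, edgeLaw T {a | M < a.1} ≤ δ := by
  have hm : ∀ M : ℕ, MeasurableSet {a : EdgeData | M < a.1} := fun M => cnt_meas {k | M < k}
  have hanti : Antitone fun M : ℕ => {a : EdgeData | M < a.1} := by
    intro M M' h a ha
    exact lt_of_le_of_lt h ha
  have h1 := tendsto_measure_iInter_atTop (μ := edgeLaw T) (fun M => (hm M).nullMeasurableSet) hanti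
    ⟨0, measure_ne_top _ _⟩
  have h2 : (⋂ M : ℕ, {a : EdgeData | M < a.1}) = ∅ := by
    rw [Set.eq_empty_iff_forall_notMem]
    intro a ha
    rw [Set.mem_iInter] at ha
    have h3 : a.1 < a.1 := ha a.1
    exact lt_irrefl _ h3
  rw [h2, measure_empty] at h1
  obtain ⟨M, hM⟩ := (h1.eventually (gt_mem_nhds hδ)).exists
  exact ⟨M, hM.le⟩

/-- nondecreasing bars along the path, in terms of the subintervals -/
def CL (L : ℕ) (ω : Cfg (TV J n N)) (u0 : List (Fin N)) : List (Fin N) → ℕ → Prop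
  | [], _ => True
  | i :: x, s => ∃ s' ≤ s, ω (ech (x ++ u0) i) ∈ BI L s' ∧ CL L ω u0 x s'

theorem chain_CL {T : ℝ} (hT : 0 < T) (L : ℕ) (hL : 0 < L) {ω : Cfg (TV J n N)} {u0 : List (Fin N)} :
    ∀ (x : List (Fin N)) (t : ℝ) (s : ℕ), L * t < T * (s + 1) → Chain T ω u0 x t → CL L ω u0 x s := by
  intro x
  induction x with
  | nil => intro _ _ _ _; trivial
  | cons i x ih =>
    rintro t s hts ⟨r, h1, ⟨-, b, h2, h3⟩, r', h4, h5⟩
    have hL' : (0 : ℝ) < L := by exact_mod_cast hL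
    set p : ℝ := ((ω (ech (x ++ u0) i)).2 b : ℝ) with hp
    have h3' : T * p = r := h3
    have hp0 : 0 ≤ (L : ℝ) * p := mul_nonneg hL'.le (unitInterval.nonneg _)
    have hf1 := Nat.floor_le hp0
    have hf2 := Nat.lt_floor_add_one ((L : ℝ) * p)
    refine ⟨⌊(L : ℝ) * p⌋₊, ?_, ⟨b, h2, hf1, hf2⟩, ih r' _ ?_ h5⟩
    · have h6 : (L : ℝ) * p < s + 1 := by
        have h7 : T * ((L : ℝ) * p) < T * (s + 1) := by
          calc T * ((L : ℝ) * p) = L * r := by rw [← h3']; ring
            _ ≤ L * t := mul_le_mul_of_nonneg_left h1 hL'.le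
            _ < T * (s + 1) := hts
        exact lt_of_mul_lt_mul_left h7 hT.le
      have h8 : (⌊(L : ℝ) * p⌋₊ : ℝ) < s + 1 := lt_of_le_of_lt hf1 h6
      have h9 : ⌊(L : ℝ) * p⌋₊ < s + 1 := by exact_mod_cast h8
      omega
    · calc (L : ℝ) * r' ≤ L * r := mul_le_mul_of_nonneg_left h4.le hL'.le
        _ = T * ((L : ℝ) * p) := by rw [← h3']; ring
        _ < T * (⌊(L : ℝ) * p⌋₊ + 1) := mul_lt_mul_of_pos_left hf2 hT

theorem CL_dep {L : ℕ} {ω ω' : Cfg (TV J n N)} {u0 : List (Fin N)} : ∀ (x : List (Fin N)) (s : ℕ),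
    (∀ e ∈ VS J n u0 x, ω e = ω' e) → (CL L ω u0 x s ↔ CL L ω' u0 x s) := by
  classical
  intro x
  induction x with
  | nil => intro _ _; exact Iff.rfl
  | cons i x ih =>
    intro s h
    have h1 : ω (ech (x ++ u0) i) = ω' (ech (x ++ u0) i) := h _ (by
      simp only [VS, Finset.mem_union]
      exact Or.inr (Or.inr (mem_CB.mpr ⟨i, rfl⟩)))
    have h3 : ∀ s, CL L ω u0 x s ↔ CL L ω' u0 x s := fun s => ih s fun e he => h e (by
      simp only [VS, Finset.mem_union]
      exact Or.inl he)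
    simp only [CL, h1, h3]

theorem CL_meas {L : ℕ} {u0 : List (Fin N)} : ∀ (x : List (Fin N)) (s : ℕ),
    MeasurableSet {ω : Cfg (TV J n N) | CL L ω u0 x s} := by
  intro x
  induction x with
  | nil => intro s; simp [CL]
  | cons i x ih =>
    intro s
    have : {ω : Cfg (TV J n N) | CL L ω u0 (i :: x) s}
        = ⋃ s', ⋃ (_ : s' ≤ s), ({ω | ω (ech (x ++ u0) i) ∈ BI L s'} ∩ {ω | CL L ω u0 x s'}) := by
      ext ω
      simp only [CL, Set.mem_iUnion, Set.mem_inter_iff, Set.mem_ofPred_eq, exists_prop]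
    rw [this]
    exact MeasurableSet.iUnion fun s' => MeasurableSet.iUnion fun _ =>
      (ev_meas _ _ (BI_meas L s')).inter (ih s')

theorem CL_prob {T : ℝ} {L : ℕ} {h : ℝ≥0∞} (hh : ∀ s, edgeLaw T (BI L s) ≤ h) {u0 : List (Fin N)} :
    ∀ (x : List (Fin N)) (s : ℕ),
      stirLaw (TV J n N) T {ω | CL L ω u0 x s} ≤ (2 * h) ^ x.length * 2 ^ s := by
  classical
  intro x
  induction x with
  | nil =>
    intro s
    simp only [List.length_nil, pow_zero, one_mul]
    exact prob_le_one.trans (one_le_pow₀ (by norm_num))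
  | cons i x ih =>
    intro s
    have hsub : {ω : Cfg (TV J n N) | CL L ω u0 (i :: x) s}
        ⊆ ⋃ s' ∈ Finset.range (s + 1), ({ω | ω (ech (x ++ u0) i) ∈ BI L s'} ∩ {ω | CL L ω u0 x s'}) := by
      rintro ω ⟨s', h1, h2, h3⟩
      exact Set.mem_iUnion₂.mpr ⟨s', Finset.mem_range.mpr (by omega), h2, h3⟩
    have hind : ∀ s', stirLaw (TV J n N) T
        ({ω | ω (ech (x ++ u0) i) ∈ BI L s'} ∩ {ω | CL L ω u0 x s'})
        ≤ h * ((2 * h) ^ x.length * 2 ^ s') := by
      intro s'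
      have e1 : stirLaw (TV J n N) T
          ({ω | ω (ech (x ++ u0) i) ∈ BI L s'} ∩ {ω | CL L ω u0 x s'})
          = stirLaw (TV J n N) T {ω | ω (ech (x ++ u0) i) ∈ BI L s'} *
            stirLaw (TV J n N) T {ω | CL L ω u0 x s'} := by
        unfold stirLaw
        refine indep2 (edgeLaw T) (0, fun _ => 0) {ech (x ++ u0) i} (VS J n u0 x) ?_ _ _
          (ev_meas _ _ (BI_meas L s')) (CL_meas x s') ?_ (fun ω ω' h => CL_dep x s' h)
        · rw [Finset.disjoint_singleton_left]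
          intro hmem
          exact VS_disj hmem (block_level (Or.inr (mem_CB.mpr ⟨i, rfl⟩))).2
        · intro ω ω' h
          simp only [Set.mem_ofPred_eq, h _ (Finset.mem_singleton_self _)]
      rw [e1, eval_prob T _ _ (BI_meas L s')]
      exact mul_le_mul' (hh s') (ih s')
    have hgeo : ∀ s : ℕ, ∑ s' ∈ Finset.range (s + 1), (2 : ℝ≥0∞) ^ s' ≤ 2 * 2 ^ s := by
      intro s
      induction s with
      | zero => norm_num
      | succ s ih2 =>
        rw [Finset.sum_range_succ]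
        calc ∑ s' ∈ Finset.range (s + 1), (2 : ℝ≥0∞) ^ s' + 2 ^ (s + 1)
            ≤ 2 * 2 ^ s + 2 ^ (s + 1) := by gcongr
          _ = 2 * 2 ^ (s + 1) := by ring
    calc stirLaw (TV J n N) T {ω | CL L ω u0 (i :: x) s}
        ≤ ∑ s' ∈ Finset.range (s + 1), h * ((2 * h) ^ x.length * 2 ^ s') :=
          (measure_mono hsub).trans ((measure_biUnion_finset_le _ _).trans
            (Finset.sum_le_sum fun s' _ => hind s'))
      _ = h * (2 * h) ^ x.length * ∑ s' ∈ Finset.range (s + 1), (2 : ℝ≥0∞) ^ s' := by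
          rw [Finset.mul_sum]
          refine Finset.sum_congr rfl fun s' _ => ?_
          ring
      _ ≤ h * (2 * h) ^ x.length * (2 * 2 ^ s) := by gcongr; exact hgeo s
      _ = _ := by rw [List.length_cons]; ring

theorem chain_ae {T : ℝ} (hT : 0 < T) :
    ∀ᵐ ω ∂(stirLaw (TV J n N) T), ∀ u0 : List (Fin N), ∃ K, ∀ x : List (Fin N), x.length = K →
      ¬ Chain T ω u0 x T := by
  set δ : ℝ := 1 / (8 * (N + 1)) with hδ
  have hδ0 : 0 < δ := by positivity
  obtain ⟨M, hM⟩ := tail_small T (δ := ENNReal.ofReal δ) (by simpa using hδ0)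
  obtain ⟨L, hL⟩ := exists_nat_gt ((M : ℝ) / δ)
  have hLM : (M : ℝ) < L * δ := by rwa [div_lt_iff₀ hδ0] at hL
  have hL0' : (0 : ℝ) < L := by
    have : (0 : ℝ) ≤ M / δ := by positivity
    linarith
  have hL0 : 0 < L := by exact_mod_cast hL0'
  set h : ℝ≥0∞ := ENNReal.ofReal (2 * δ) with hh
  have hb : ∀ s, edgeLaw T (BI L s) ≤ h := by
    intro s
    refine (BI_prob T hL0 s M).trans ?_
    calc edgeLaw T {a | M < a.1} + M * ENNReal.ofReal (1 / L)
        ≤ ENNReal.ofReal δ + ENNReal.ofReal (M * (1 / L)) := by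
          rw [nr]
          exact add_le_add hM le_rfl
      _ ≤ ENNReal.ofReal δ + ENNReal.ofReal δ := by
          gcongr
          rw [mul_one_div, div_le_iff₀ hL0']
          linarith
      _ = h := by rw [hh, ← ENNReal.ofReal_add hδ0.le hδ0.le]; congr 1; ring
  rw [ae_all_iff]
  intro u0
  rw [ae_iff]
  have hβ : (N : ℝ≥0∞) * (2 * h) < 1 := by
    have h2 : (2 : ℝ≥0∞) = ENNReal.ofReal 2 := by norm_num
    rw [hh, h2, ← ENNReal.ofReal_mul (by norm_num), nr, ← ENNReal.ofReal_one]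
    refine (ENNReal.ofReal_lt_ofReal_iff (by norm_num)).mpr ?_
    rw [hδ]
    have : (0 : ℝ) ≤ N := Nat.cast_nonneg N
    have h3 : (N : ℝ) * (2 * (2 * (1 / (8 * ((N : ℝ) + 1))))) = (N : ℝ) / (2 * (N + 1)) := by
      field_simp
      ring
    rw [h3, div_lt_one (by positivity)]
    linarith
  refine tends_zero (C := 2 ^ L) hβ (ENNReal.pow_ne_top (by simp)) fun K => ?_
  refine le_trans (measure_mono ?_) ((wsum_union (stirLaw (TV J n N) T) K
    fun x => {ω | CL L ω u0 x L}).trans ((wsum_mono K (g := fun _ => (2 * h) ^ K * 2 ^ L)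
      fun x hx => ?_).trans (le_of_eq ?_)))
  · intro ω hω
    rw [Set.mem_ofPred_eq] at hω
    push Not at hω
    obtain ⟨x, h1, h2⟩ := hω K
    refine ⟨x, h1, chain_CL hT L hL0 x T L ?_ h2⟩
    nlinarith
  · rw [← hx]
    exact CL_prob hb x L
  · rw [wsum_const, mul_pow]
    ring

theorem tree_connected : (treeG J n N).Connected := by
  have h0 : ∀ u : List (Fin N), (treeG J n N).Reachable (u, none) ([], none) := by
    intro u
    induction u with
    | nil => exact SimpleGraph.Reachable.refl _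
    | cons i u ih =>
      have hadj : (treeG J n N).Adj (i :: u, none) (u, none) := Or.inr (Or.inr (Or.inr ⟨rfl, rfl, i, rfl⟩))
      exact hadj.reachable.trans ih
  have h1 : ∀ v : TV J n N, (treeG J n N).Reachable v ([], none) := by
    rintro ⟨u, o⟩
    cases o with
    | none => exact h0 u
    | some x =>
      have hadj : (treeG J n N).Adj (u, some x) (u, none) := Or.inr (Or.inl ⟨rfl, rfl, by simp⟩)
      exact hadj.reachable.trans (h0 u)
  have : Nonempty (TV J n N) := ⟨([], none)⟩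
  exact ⟨fun v w => (h1 v).trans (h1 w).symm⟩

theorem tree_degree : ∃ D : ℕ, ∀ v, ((treeG J n N).neighborSet v).encard ≤ D := by
  classical
  refine ⟨Fintype.card (Option (Fin J × Fin n) ⊕ (Fin N ⊕ Unit)), fun v => ?_⟩
  set f : Option (Fin J × Fin n) ⊕ (Fin N ⊕ Unit) → TV J n N := fun z =>
    match z with
    | Sum.inl o => (v.1, o)
    | Sum.inr (Sum.inl i) => (i :: v.1, none)
    | Sum.inr (Sum.inr _) => (v.1.tail, none) with hf
  have hsub : (treeG J n N).neighborSet v ⊆ ((Finset.univ.image f : Finset (TV J n N)) : Set (TV J n N)) := by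
    intro b hb
    rw [Finset.coe_image, Finset.coe_univ, Set.image_univ]
    rcases nbr_subset v hb with ⟨o, ho⟩ | ⟨i, hi⟩ | h
    · exact ⟨Sum.inl o, ho⟩
    · exact ⟨Sum.inr (Sum.inl i), hi⟩
    · exact ⟨Sum.inr (Sum.inr ()), (Set.mem_singleton_iff.mp h).symm⟩
  refine (Set.encard_le_encard hsub).trans ?_
  rw [Set.encard_coe_eq_coe_finsetCard]
  exact_mod_cast Finset.card_image_le.trans (by rw [Finset.card_univ])

end

end Pool.Agent.H592S
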